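import Pool.Agent.H71.Prod.Loc

/-!
# Local analysis of one factor
-/

set_option autoImplicit false

namespace Pool.Agent.H71.Prod

open IsLocalRing Pool.Agent.H19.NF Matrix

section

variable {A : Type*} [CommRing A] [IsDomain A] [IsDiscreteValuationRing A] {K : Type*} [Field K]
  [Algebra A K] {ϖ : A} {n : ℕ} (F : Fac A K ϖ n) (R : Subring K) [IsLocalRing R]

/-- The local ring `R` is centered at the singular point of the factor. -/
def Fac.Centered (a₀ : Fin (n + 1)) : Prop := F.bad ∧ ∀ a, Sm R (F.mu a / F.W a₀)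

variable {F R}

theorem Fac.mu_succ (a : Fin n) : F.mu a.succ = F.W a.succ := by
  simp [Fac.mu, Fin.succ_ne_zero]

theorem Fac.mu_zero (h : F.bad) : F.mu 0 = algebraMap A K ϖ * F.W 0 := by
  simp [Fac.mu, h]

theorem Fac.mu_good (h : ¬ F.bad) (a : Fin (n + 1)) : F.mu a = F.W a := by
  simp [Fac.mu, h]

theorem Fac.Centered.eq_zero {a₀ : Fin (n + 1)} (h : F.Centered R a₀) (ha₀ : F.W a₀ ≠ 0) :
    a₀ = 0 := by
  by_contra hne
  obtain ⟨a, rfl⟩ := Fin.exists_succ_eq.mpr hne
  have h1 := h.2 a.succ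
  rw [Fac.mu_succ, div_self ha₀] at h1
  exact not_sm_one h1

theorem Fac.Centered.sm_succ (h : F.Centered R 0) (a : Fin n) :
    Sm R (F.W a.succ / F.W 0) := by
  have h1 := h.2 a.succ
  rwa [Fac.mu_succ] at h1

theorem Fac.Centered.sm_pi (h : F.Centered R 0) (h0 : F.W 0 ≠ 0) : Sm R (algebraMap A K ϖ) := by
  have h1 := h.2 0
  rwa [Fac.mu_zero h.1, mul_div_assoc, div_self h0, mul_one] at h1

omit [IsDomain A] [IsDiscreteValuationRing A] in
theorem qf_mem {ι : Type*} [Fintype ι] (Q : Matrix ι ι A) (B : Subring K)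
    (hA : ∀ a, algebraMap A K a ∈ B) (x : ι → K) (hx : ∀ i, x i ∈ B) : qf Q x ∈ B :=
  B.sum_mem fun i _ => B.sum_mem fun j _ => B.mul_mem (hA _) (B.mul_mem (hx i) (hx j))

/-- The relation in the coordinates of the blowup. -/
theorem Fac.Centered.relation (h : F.Centered R 0) (h0 : F.W 0 ≠ 0) (β : Fin n)
    (hβ : F.W β.succ ≠ 0) :
    algebraMap A K ϖ * (algebraMap A K F.u + F.W β.succ / F.W 0 *
      ∑ a, algebraMap A K (F.l a) * (F.W a.succ / F.W β.succ)) +
      (F.W β.succ / F.W 0) ^ 2 *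
        qf (F.Q.submatrix Fin.succ Fin.succ) (fun a => F.W a.succ / F.W β.succ) = 0 := by
  have h1 := (F.hbad h.1).qf_eq F.W
  rw [F.hW] at h1
  have h2 : (fun a : Fin n => F.W a.succ) = F.W β.succ • fun a => F.W a.succ / F.W β.succ := by
    ext a
    rw [Pi.smul_apply, smul_eq_mul, mul_div_cancel₀ _ hβ]
  rw [h2, qf_smul] at h1
  have h3 : ∑ a : Fin n, algebraMap A K (F.l a) * F.W a.succ =
      F.W β.succ * ∑ a, algebraMap A K (F.l a) * (F.W a.succ / F.W β.succ) := by
    rw [Finset.mul_sum]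
    refine Finset.sum_congr rfl fun a _ => ?_
    field_simp
  rw [h3] at h1
  have h4 : (F.W 0) ^ 2 ≠ 0 := pow_ne_zero 2 h0
  apply mul_left_cancel₀ h4
  rw [mul_zero, h1]
  field_simp

/-- The unit factor. -/
theorem Fac.Centered.not_sm_unit (h : F.Centered R 0) (hA : ∀ a, algebraMap A K a ∈ R)
    (β : Fin n) (hβ : F.W β.succ ≠ 0) :
    ¬ Sm R (algebraMap A K F.u + F.W β.succ / F.W 0 *
      ∑ a, algebraMap A K (F.l a) * (F.W a.succ / F.W β.succ)) := by
  intro h1
  have h2 : F.W β.succ / F.W 0 * ∑ a, algebraMap A K (F.l a) * (F.W a.succ / F.W β.succ) =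
      ∑ a, (F.W a.succ / F.W 0) * algebraMap A K (F.l a) := by
    rw [Finset.mul_sum]
    refine Finset.sum_congr rfl fun a _ => ?_
    field_simp
  rw [h2] at h1
  have h3 : Sm R (∑ a, (F.W a.succ / F.W 0) * algebraMap A K (F.l a)) :=
    sm_sum _ _ fun a _ => (h.sm_succ a).mul (hA _)
  have h4 := h1.sub h3
  rw [add_sub_cancel_right] at h4
  obtain ⟨v, hv⟩ := (F.hbad h.1).unit.exists_right_inv
  have h5 : algebraMap A K F.u * algebraMap A K v = 1 := by rw [← map_mul, hv, map_one]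
  refine not_sm_of_inv (left_ne_zero_of_mul_eq_one h5) ?_ h4
  rw [inv_eq_of_mul_eq_one_right h5]
  exact hA v

/-- If the ideal of the singular point is principal, then it is generated by a coordinate. -/
theorem Fac.Centered.exists_beta (h : F.Centered R 0) (h0 : F.W 0 ≠ 0)
    (hA : ∀ a, algebraMap A K a ∈ R) (hϖ : algebraMap A K ϖ ≠ 0) (a₁ : Fin (n + 1))
    (h1 : F.mu a₁ ≠ 0) (h2 : ∀ c, F.mu c / F.mu a₁ ∈ R) :
    ∃ β : Fin n, F.W β.succ ≠ 0 ∧ ∀ c, F.mu c / F.W β.succ ∈ R := by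
  by_cases ha : a₁ = 0
  swap
  · obtain ⟨β, rfl⟩ := Fin.exists_succ_eq.mpr ha
    rw [Fac.mu_succ] at h1 h2
    exact ⟨β, h1, h2⟩
  exfalso
  subst ha
  set p := algebraMap A K ϖ with hp
  have hz : ∀ c : Fin n, F.W c.succ / (p * F.W 0) ∈ R := by
    intro c
    have h3 := h2 c.succ
    rwa [Fac.mu_zero h.1, Fac.mu_succ] at h3
  have h3 := (F.hbad h.1).qf_eq F.W
  rw [F.hW] at h3
  have h4 : (fun a : Fin n => F.W a.succ) = (p * F.W 0) • fun a => F.W a.succ / (p * F.W 0) := by
    ext a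
    rw [Pi.smul_apply, smul_eq_mul, mul_div_cancel₀ _ (mul_ne_zero hϖ h0)]
  rw [h4, qf_smul] at h3
  set Z := qf (F.Q.submatrix Fin.succ Fin.succ) (fun a => F.W a.succ / (p * F.W 0)) with hZ
  have hZR : Z ∈ R := qf_mem _ R hA _ hz
  have h5 : algebraMap A K F.u = -(∑ a, (F.W a.succ / F.W 0) * algebraMap A K (F.l a)) - p * Z := by
    have h6 : ∑ a : Fin n, algebraMap A K (F.l a) * F.W a.succ =
        F.W 0 * ∑ a, (F.W a.succ / F.W 0) * algebraMap A K (F.l a) := by
      rw [Finset.mul_sum]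
      refine Finset.sum_congr rfl fun a _ => ?_
      field_simp
    rw [h6, ← hp] at h3
    have h7 : p * F.W 0 ^ 2 ≠ 0 := mul_ne_zero hϖ (pow_ne_zero 2 h0)
    apply mul_left_cancel₀ h7
    linear_combination -h3
  have h6 : Sm R (algebraMap A K F.u) := by
    rw [h5]
    refine (sm_sum _ _ fun a _ => (h.sm_succ a).mul (hA _)).neg.sub ?_
    exact (h.sm_pi h0).mul hZR
  obtain ⟨v, hv⟩ := (F.hbad h.1).unit.exists_right_inv
  have h7 : algebraMap A K F.u * algebraMap A K v = 1 := by rw [← map_mul, hv, map_one]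
  refine not_sm_of_inv (left_ne_zero_of_mul_eq_one h7) ?_ h6
  rw [inv_eq_of_mul_eq_one_right h7]
  exact hA v

end

section Smooth

variable {A : Type*} [CommRing A] [IsDomain A] [IsDiscreteValuationRing A]
  [Finite (ResidueField A)] {K : Type*} [Field K]
  [Algebra A K] {ϖ : A} {n : ℕ} {F : Fac A K ϖ n} {R : Subring K} [IsLocalRing R]

/-- Smoothness outside of the singular point. -/
theorem Fac.smooth (hϖ : Irreducible ϖ) (hA : ∀ a, algebraMap A K a ∈ R) (a₀ : Fin (n + 1))
    (ha₀ : F.W a₀ ≠ 0) (hW : ∀ a, F.W a / F.W a₀ ∈ R) (h : ¬ F.Centered R a₀) :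
    ¬ ∀ a, Sm R (bf F.Q (fun b => F.W b / F.W a₀) (Pi.single a 1)) := by
  classical
  intro hall
  let algR : Algebra A R := ((algebraMap A K).codRestrict R hA).toAlgebra
  let k := ResidueField R
  let res : R →+* k := residue R
  let algk : Algebra A k := (res.comp (algebraMap A R)).toAlgebra
  let z : Fin (n + 1) → R := fun b => ⟨F.W b / F.W a₀, hW b⟩
  let ξ : Fin (n + 1) → k := fun b => res (z b)
  have hξ1 : ξ a₀ = 1 := by
    have h1 : z a₀ = 1 := Subtype.ext (div_self ha₀)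
    show res (z a₀) = 1
    rw [h1, map_one]
  have hbfR : ∀ x y : Fin (n + 1) → R, ((bf F.Q x y : R) : K) =
      bf F.Q (fun i => (x i : K)) (fun i => (y i : K)) := fun x y =>
    map_bf F.Q R.subtype (fun _ => rfl) x y
  have hqfR : ∀ x : Fin (n + 1) → R, ((qf F.Q x : R) : K) = qf F.Q (fun i => (x i : K)) := fun x =>
    map_qf F.Q R.subtype (fun _ => rfl) x
  have hb : ∀ a, bf F.Q ξ (Pi.single a 1) = 0 := by
    intro a
    have h1 := map_bf F.Q res (fun _ => rfl) z (Pi.single a 1)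
    have h2 : (fun i => res ((Pi.single a 1 : Fin (n + 1) → R) i)) = Pi.single a 1 := by
      ext i
      by_cases hia : i = a
      · subst hia; simp
      · simp [hia]
    rw [h2] at h1
    rw [← h1]
    obtain ⟨h3, h4⟩ := hall a
    rw [residue_eq_zero_iff]
    convert h4 using 1
    apply Subtype.ext
    rw [hbfR]
    congr 1
    ext i
    by_cases hia : i = a
    · subst hia; simp
    · simp [hia]
  have hq : qf F.Q ξ = 0 := by
    have h1 := map_qf F.Q res (fun _ => rfl) z
    rw [← h1]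
    have h2 : qf F.Q z = 0 := by
      apply Subtype.ext
      rw [hqfR]
      have h3 : (fun i => ((z i : R) : K)) = (F.W a₀)⁻¹ • F.W := by
        ext i
        show F.W i / F.W a₀ = _
        rw [Pi.smul_apply, smul_eq_mul, div_eq_inv_mul]
      rw [h3, qf_smul, F.hW, mul_zero]
      rfl
    rw [h2, map_zero]
  by_cases hp : algebraMap A k ϖ = 0
  swap
  · -- the generic fibre
    have h1 : ∀ a : A, a ≠ 0 → algebraMap A k a ≠ 0 := by
      intro a ha
      obtain ⟨m, w, rfl⟩ := IsDiscreteValuationRing.eq_unit_mul_pow_irreducible ha hϖ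
      rw [map_mul, map_pow]
      exact mul_ne_zero ((w.isUnit.map _).ne_zero) (pow_ne_zero _ hp)
    have h2 := det_mul_eq_zero F.Q ξ hb a₀
    rw [hξ1, mul_one] at h2
    exact h1 _ F.hdet h2
  have hpR : Sm R (algebraMap A K ϖ) := ⟨hA ϖ, (residue_eq_zero_iff _).mp hp⟩
  have hm : ∀ a ∈ maximalIdeal A, algebraMap A k a = 0 := by
    intro a ha
    rw [hϖ.maximalIdeal_eq, Ideal.mem_span_singleton] at ha
    obtain ⟨b, rfl⟩ := ha
    rw [map_mul, hp, zero_mul]
  by_cases hbad : F.bad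
  · -- normal form
    have hN := F.hbad hbad
    have h1 : ∀ b : Fin n, bf (F.Q.submatrix Fin.succ Fin.succ) (fun a => ξ a.succ)
        (Pi.single b 1) = 0 := by
      intro b
      have h2 := hb b.succ
      rw [bf_single_right, Fin.sum_univ_succ] at h2
      have h3 : algebraMap A k ((F.Q + F.Q.transpose) b.succ 0) = 0 := by
        have h4 : (F.Q + F.Q.transpose) b.succ 0 = ϖ * F.l b := by
          rw [← hN.h0a b, Matrix.add_apply, Matrix.transpose_apply, add_comm]
        rw [h4, map_mul, hp, zero_mul]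
      rw [h3, zero_mul, zero_add] at h2
      rw [bf_single_right]
      exact h2
    have h2 : ∀ a : Fin n, ξ a.succ = 0 := by
      intro a
      have h3 := det_mul_eq_zero _ _ h1 a
      exact (mul_eq_zero.mp h3).resolve_left (hN.det.map _).ne_zero
    apply h
    refine ⟨hbad, fun a => ?_⟩
    refine Fin.cases ?_ (fun a => ?_) a
    · rw [Fac.mu_zero hbad, mul_div_assoc]
      exact hpR.mul (hW 0)
    · rw [Fac.mu_succ]
      exact ⟨hW _, (residue_eq_zero_iff _).mp (h2 a)⟩
  · -- nonsingular reduction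
    have hgood := F.hgood hbad
    let algκ : Algebra (ResidueField A) k := (Ideal.Quotient.lift (maximalIdeal A)
      (algebraMap A k) hm).toAlgebra
    have htow : IsScalarTower A (ResidueField A) k := IsScalarTower.of_algebraMap_eq fun _ => rfl
    obtain ⟨α, s, c, w, hw, hξ⟩ := rad_decomp F.Q ξ hb hq
    have h1 : ξ a₀ = 0 := by
      rw [hξ, Finset.sum_apply]
      refine Finset.sum_eq_zero fun a _ => ?_
      rw [hgood _ (hw a)]
      simp
    rw [hξ1] at h1
    exact one_ne_zero h1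

end Smooth

end Pool.Agent.H71.Prod
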