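import Pool.Agent.H71.Prod.Local
import Pool.Agent.H19.NF.NumField

/-!
# The function field of a product of quadrics
-/

set_option autoImplicit false

namespace Pool.Agent.H71.Prod

open MvPolynomial IsLocalRing Matrix NumberField Pool.Agent.H19.NF

section Ring

variable {F : Type} [Field F] {k : ℕ} {n : Fin k → ℕ}

/-- The generic point `(1, X_1, …)` of the affine part of factor `i`. -/
noncomputable def gpt (F : Type) [Field F] {k : ℕ} (n : Fin k → ℕ) (i : Fin k) :
    Fin (n i + 1) → MvPolynomial (Σ i : Fin k, Fin (n i)) F :=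
  Fin.cons 1 (fun a => X ⟨i, a⟩)

/-- The equation of factor `i`. -/
noncomputable def qeq (S : ∀ i, Matrix (Fin (n i + 1)) (Fin (n i + 1)) F) (i : Fin k) :
    MvPolynomial (Σ i : Fin k, Fin (n i)) F :=
  ∑ c, ∑ d, C (S i c d) * (gpt F n i c * gpt F n i d)

/-- The coordinate ring of the affine part of the product. -/
abbrev PRing (S : ∀ i, Matrix (Fin (n i + 1)) (Fin (n i + 1)) F) : Type :=
  MvPolynomial (Σ i : Fin k, Fin (n i)) F ⧸ Ideal.span (Set.range (qeq S))

theorem qeq_eq (S : ∀ i, Matrix (Fin (n i + 1)) (Fin (n i + 1)) F) (i : Fin k) :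
    qeq S i = qf (S i) (gpt F n i) := rfl

variable (S : ∀ i, Matrix (Fin (n i + 1)) (Fin (n i + 1)) F) (K : Type) [Field K]
  [Algebra (PRing S) K]

/-- The base field in `K`. -/
noncomputable def rK : F →+* K :=
  (algebraMap (PRing S) K).comp ((Ideal.Quotient.mk _).comp C)

/-- The coordinates of the generic point in `K`. -/
noncomputable def wK (i : Fin k) : Fin (n i + 1) → K :=
  fun c => algebraMap (PRing S) K (Ideal.Quotient.mk _ (gpt F n i c))

theorem wK_zero (i : Fin k) : wK S K i 0 = 1 := by
  show algebraMap (PRing S) K (Ideal.Quotient.mk _ (gpt F n i 0)) = 1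
  have : gpt F n i 0 = 1 := rfl
  rw [this, map_one, map_one]

theorem qf_wK [Algebra F K] (hr : ∀ x, algebraMap F K x = rK S K x) (i : Fin k) :
    qf (S i) (wK S K i) = 0 := by
  have h1 := map_qf (S i) ((algebraMap (PRing S) K).comp (Ideal.Quotient.mk _))
    (fun a => (hr a).symm) (gpt F n i)
  have h2 : ((algebraMap (PRing S) K).comp (Ideal.Quotient.mk _)) (qf (S i) (gpt F n i)) = 0 := by
    rw [RingHom.comp_apply, ← qeq_eq,
      Ideal.Quotient.eq_zero_iff_mem.mpr (Ideal.subset_span (Set.mem_range_self i)), map_zero]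
  rw [h2] at h1
  exact h1.symm

theorem eq_top_of_mem [IsFractionRing (PRing S) K] (E : Subfield K)
    (hF : ∀ x : F, rK S K x ∈ E) (hw : ∀ i c, wK S K i c ∈ E) : E = ⊤ := by
  rw [eq_top_iff]
  have hallf : ∀ f : MvPolynomial (Σ i : Fin k, Fin (n i)) F,
      algebraMap (PRing S) K (Ideal.Quotient.mk _ f) ∈ E := by
    intro f
    induction f using MvPolynomial.induction_on with
    | C r => exact hF r
    | add p q hp hq => rw [map_add, map_add]; exact E.add_mem hp hq
    | mul_X p x hp =>
      rw [map_mul, map_mul]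
      exact E.mul_mem hp (hw x.1 x.2.succ)
  intro y _
  obtain ⟨a, b, rfl⟩ := IsLocalization.exists_mk'_eq (nonZeroDivisors (PRing S)) y
  obtain ⟨a', rfl⟩ := Ideal.Quotient.mk_surjective a
  obtain ⟨b', hb'⟩ := Ideal.Quotient.mk_surjective (b : PRing S)
  rw [IsFractionRing.mk'_eq_div, ← hb']
  exact E.div_mem (hallf a') (hallf b')

end Ring

section Trdeg

variable {F : Type} [Field F] [CharZero F]

/-- A quadratic form with nonzero discriminant: the last coordinate of a zero can be solved for in
an algebraically closed field. -/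
theorem exists_last {k : ℕ} {ν : Fin k → ℕ} (i : Fin k)
    (S : Matrix (Fin (ν i + 1 + 1)) (Fin (ν i + 1 + 1)) F) (hS : (S + Sᵀ).det ≠ 0)
    (L : Type) [Field L] [IsAlgClosed L] [Algebra F L]
    [Algebra (MvPolynomial (Σ i : Fin k, Fin (ν i)) F) L]
    [IsScalarTower F (MvPolynomial (Σ i : Fin k, Fin (ν i)) F) L]
    (hinj : Function.Injective (algebraMap (MvPolynomial (Σ i : Fin k, Fin (ν i)) F) L)) :
    ∃ z : L, qf S (Fin.cons 1 (Fin.snoc (α := fun _ => L) (fun a =>
      algebraMap (MvPolynomial (Σ i : Fin k, Fin (ν i)) F) L (X ⟨i, a⟩)) z) :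
        Fin (ν i + 1 + 1) → L) = 0 := by
  classical
  set P0 := MvPolynomial (Σ i : Fin k, Fin (ν i)) F with hP0
  have hchar : CharZero L := charZero_of_injective_algebraMap (algebraMap F L).injective
  let v : Fin (ν i + 1 + 1) → P0 :=
    Fin.cons 1 (Fin.snoc (α := fun _ => P0) (fun a => X ⟨i, a⟩) 0)
  let l : Fin (ν i + 1 + 1) := (Fin.last (ν i)).succ
  have hpt : ∀ z : L, (Fin.cons 1 (Fin.snoc (α := fun _ => L) (fun a =>
      algebraMap P0 L (X ⟨i, a⟩)) z) : Fin (ν i + 1 + 1) → L) =
      (fun c => algebraMap P0 L (v c)) + z • Pi.single l 1 := by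
    intro z
    ext c
    refine Fin.cases ?_ (fun b => ?_) c
    · have h1 : (0 : Fin (ν i + 1 + 1)) ≠ l := (Fin.succ_ne_zero _).symm
      simp [v, h1]
    · refine Fin.lastCases ?_ (fun a => ?_) b
      · simp [v, l]
      · have h1 : (a.castSucc).succ ≠ l := by
          intro h
          exact (Fin.castSucc_lt_last a).ne (Fin.succ_injective _ h)
        simp [v, h1]
  have hval : ∀ z : L, qf S ((fun c => algebraMap P0 L (v c)) + z • Pi.single l 1) =
      algebraMap F L (S l l) * (z * z) + bf S (fun c => algebraMap P0 L (v c)) (Pi.single l 1) * z +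
        qf S (fun c => algebraMap P0 L (v c)) := by
    intro z
    have h1 : qf S (Pi.single l 1 : Fin (ν i + 1 + 1) → L) = algebraMap F L (S l l) := by
      simp [qf, Pi.single_apply]
    rw [qf_add, qf_smul, bf_smul_right, h1]
    ring
  have hCa : ∀ a : F, algebraMap F P0 a = C a := fun _ => rfl
  by_cases hα : S l l = 0
  swap
  · have h1 : algebraMap F L (S l l) ≠ 0 := by
      rw [Ne, map_eq_zero_iff _ (algebraMap F L).injective]; exact hα
    obtain ⟨z, hz⟩ := exists_quadratic_eq_zero (K := L)
      (b := bf S (fun c => algebraMap P0 L (v c)) (Pi.single l 1))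
      (c := qf S (fun c => algebraMap P0 L (v c))) h1 (IsAlgClosed.exists_eq_mul_self _)
    exact ⟨z, by rw [hpt, hval, hz]⟩
  have hβ : bf S (fun c => algebraMap P0 L (v c)) (Pi.single l 1) ≠ 0 := by
    have h1 : bf S (fun c => algebraMap P0 L (v c)) (Pi.single l 1) =
        algebraMap P0 L (bf S v (Pi.single l 1)) := by
      rw [map_bf S (algebraMap P0 L) (fun a => (IsScalarTower.algebraMap_apply F P0 L a).symm)]
      congr 1
      ext c
      by_cases hc : c = l
      · subst hc; simp
      · simp [hc]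
    rw [h1, Ne, map_eq_zero_iff _ hinj]
    intro h2
    apply hS
    apply Matrix.det_eq_zero_of_row_eq_zero l
    intro c
    rw [bf_single_right, Fin.sum_univ_succ, Fin.sum_univ_castSucc] at h2
    simp only [v, Fin.cons_zero, mul_one, Fin.cons_succ, Fin.snoc_castSucc, Fin.snoc_last,
      mul_zero, add_zero] at h2
    have h3 : (S + Sᵀ) l 0 = 0 := by
      have h4 := congrArg (MvPolynomial.eval (fun _ => (0 : F))) h2
      simpa [hCa] using h4
    refine Fin.cases h3 (fun b => ?_) c
    refine Fin.lastCases ?_ (fun a => ?_) b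
    · show (S + Sᵀ) l l = 0
      rw [Matrix.add_apply, Matrix.transpose_apply, hα, add_zero]
    · have h4 := congrArg (MvPolynomial.eval (Pi.single ⟨i, a⟩ (1 : F))) h2
      rw [h3] at h4
      simp only [map_zero, zero_add, map_sum, map_mul, eval_X, hCa, eval_C] at h4
      rw [Finset.sum_eq_single a] at h4
      · simpa using h4
      · intro a' _ ha'
        have h5 : (⟨i, a'⟩ : Σ i : Fin k, Fin (ν i)) ≠ ⟨i, a⟩ := by
          intro h6
          exact ha' (by simpa using h6)
        rw [Pi.single_eq_of_ne h5, mul_zero]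
      · intro h; exact absurd (Finset.mem_univ a) h
  refine ⟨-(qf S (fun c => algebraMap P0 L (v c))) /
    bf S (fun c => algebraMap P0 L (v c)) (Pi.single l 1), ?_⟩
  rw [hpt, hval, hα, map_zero, zero_mul, zero_add, mul_div_cancel₀ _ hβ, neg_add_cancel]

theorem algebraicIndependent_wK {k : ℕ} {ν : Fin k → ℕ}
    (S : ∀ i, Matrix (Fin (ν i + 1 + 1)) (Fin (ν i + 1 + 1)) F) (hS : ∀ i, (S i + (S i)ᵀ).det ≠ 0)
    (K : Type) [Field K] [Algebra (PRing (n := fun i => ν i + 1) S) K]
    [IsFractionRing (PRing (n := fun i => ν i + 1) S) K] [Algebra F K]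
    (hr : ∀ x, algebraMap F K x = rK (n := fun i => ν i + 1) S K x) :
    AlgebraicIndependent F (fun p : (Σ i : Fin k, Fin (ν i)) =>
      wK (n := fun i => ν i + 1) S K p.1 p.2.castSucc.succ) := by
  classical
  set P0 := MvPolynomial (Σ i : Fin k, Fin (ν i)) F with hP0
  let L := AlgebraicClosure (FractionRing P0)
  have hinj : Function.Injective (algebraMap P0 L) := by
    rw [IsScalarTower.algebraMap_eq P0 (FractionRing P0) L]
    exact (algebraMap (FractionRing P0) L).injective.comp
      (IsFractionRing.injective P0 (FractionRing P0))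
  have htow : IsScalarTower F P0 L := IsScalarTower.of_algebraMap_eq fun x => by
    rw [IsScalarTower.algebraMap_apply F (FractionRing P0) L,
      IsScalarTower.algebraMap_apply F P0 (FractionRing P0),
      ← IsScalarTower.algebraMap_apply P0 (FractionRing P0) L]
  choose z hz using fun i => exists_last i (S i) (hS i) L hinj
  let θ : MvPolynomial (Σ i : Fin k, Fin (ν i + 1)) F →ₐ[F] L :=
    aeval fun p => Fin.snoc (α := fun _ => L) (fun a => algebraMap P0 L (X ⟨p.1, a⟩)) (z p.1) p.2
  have hθpt : ∀ i c, θ (gpt F (fun i => ν i + 1) i c) = (Fin.cons 1 (Fin.snoc (α := fun _ => L)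
      (fun a => algebraMap P0 L (X ⟨i, a⟩)) (z i)) : Fin (ν i + 1 + 1) → L) c := by
    intro i c
    refine Fin.cases ?_ (fun b => ?_) c
    · have : gpt F (fun i => ν i + 1) i 0 = 1 := rfl
      rw [this, map_one]; rfl
    · have : gpt F (fun i => ν i + 1) i b.succ = X ⟨i, b⟩ := rfl
      rw [this, aeval_X]; rfl
  have hθ0 : ∀ i, θ (qeq (n := fun i => ν i + 1) S i) = 0 := by
    intro i
    rw [qeq_eq]
    have h1 := map_qf (S i) (θ : MvPolynomial (Σ i : Fin k, Fin (ν i + 1)) F →+* L)
      (fun a => θ.commutes a) (gpt F (fun i => ν i + 1) i)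
    refine h1.trans ?_
    rw [← hz i]
    congr 1
    ext c
    exact hθpt i c
  rw [algebraicIndependent_iff]
  intro g hg
  let emb : (Σ i : Fin k, Fin (ν i)) → (Σ i : Fin k, Fin (ν i + 1)) := fun p => ⟨p.1, p.2.castSucc⟩
  have h1 : algebraMap (PRing (n := fun i => ν i + 1) S) K (Ideal.Quotient.mk _ (rename emb g)) =
      0 := by
    rw [← hg]
    have h2 : ((algebraMap (PRing (n := fun i => ν i + 1) S) K).comp
        (Ideal.Quotient.mk _)).comp (rename emb : P0 →ₐ[F] _).toRingHom =
        (aeval (fun p : (Σ i : Fin k, Fin (ν i)) =>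
          wK (n := fun i => ν i + 1) S K p.1 p.2.castSucc.succ) : P0 →ₐ[F] K).toRingHom := by
      apply MvPolynomial.ringHom_ext
      · intro a
        simp only [RingHom.comp_apply, AlgHom.toRingHom_eq_coe, RingHom.coe_coe,
          algHom_C]
        rw [hr]; rfl
      · intro p
        simp only [RingHom.comp_apply, AlgHom.toRingHom_eq_coe, RingHom.coe_coe, rename_X,
          aeval_X]
        rfl
    exact congrFun (congrArg DFunLike.coe h2) g
  rw [map_eq_zero_iff _ (IsFractionRing.injective (PRing (n := fun i => ν i + 1) S) K),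
    Ideal.Quotient.eq_zero_iff_mem] at h1
  have h3 : Ideal.span (Set.range (qeq (n := fun i => ν i + 1) S)) ≤ RingHom.ker θ := by
    rw [Ideal.span_le]
    rintro _ ⟨i, rfl⟩
    exact hθ0 i
  have h4 : θ (rename emb g) = 0 := h3 h1
  have h5 : θ (rename emb g) = algebraMap P0 L g := by
    have h6 : θ.comp (rename emb) = IsScalarTower.toAlgHom F P0 L := by
      apply MvPolynomial.algHom_ext
      intro p
      rw [AlgHom.comp_apply, rename_X, aeval_X]
      simp only [emb, Fin.snoc_castSucc]
      rfl
    exact congrFun (congrArg DFunLike.coe h6) g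
  rw [h5, map_eq_zero_iff _ hinj] at h4
  exact h4

end Trdeg

section Transform

theorem qf_transform {A F K : Type} [CommRing A] [Field F] [Field K] [CharZero K] [Algebra A F]
    [Algebra F K] [Algebra A K] [IsScalarTower A F K] {N : ℕ} (Q : Matrix (Fin N) (Fin N) A)
    (M S : Matrix (Fin N) (Fin N) F) (c : F)
    (h : (Q + Qᵀ).map (algebraMap A F) = c • (Mᵀ * (S + Sᵀ) * M)) (W : Fin N → K)
    (hq : qf S ((M.map (algebraMap F K)).mulVec W) = 0) : qf Q W = 0 := by
  set w := (M.map (algebraMap F K)).mulVec W with hw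
  have h1 : (Q + Qᵀ).map (algebraMap A K) =
      algebraMap F K c • ((M.map (algebraMap F K))ᵀ * (S + Sᵀ).map (algebraMap F K) *
        (M.map (algebraMap F K))) := by
    have h2 : (Q + Qᵀ).map (algebraMap A K) =
        ((Q + Qᵀ).map (algebraMap A F)).map (algebraMap F K) := by
      ext i j
      simp only [Matrix.map_apply]
      rw [← IsScalarTower.algebraMap_apply A F K]
    rw [h2, h, ← Matrix.transpose_map, ← Matrix.map_mul, ← Matrix.map_mul]
    ext i j
    simp only [Matrix.map_apply, Matrix.smul_apply, smul_eq_mul, map_mul]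
  have h3 : bf Q W W = algebraMap F K c * bf S w w := by
    rw [bf_eq_dotProduct, h1, Matrix.smul_mulVec, dotProduct_smul, smul_eq_mul,
      dotProduct_transform, bf_eq_dotProduct]
  rw [bf_self, bf_self, hq, mul_zero, mul_zero] at h3
  exact (mul_eq_zero.mp h3).resolve_left two_ne_zero

end Transform

end Pool.Agent.H71.Prod
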