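import Pool.Agent.H71.Prod.Field

/-!
# Regular projective models of products of quadrics over number fields
-/

set_option autoImplicit false

namespace Pool.Agent.H71.Prod

open MvPolynomial IsLocalRing Matrix NumberField Pool.Agent.H19.NF
open scoped Pointwise

section Disc

variable {F : Type} [Field F] [NumberField F]

/-- Away from a discriminant, a quadratic form has coefficients in the local ring and is
nondegenerate. -/
theorem exists_disc {N : ℕ} (S : Matrix (Fin N) (Fin N) F) (hS : Sᵀ = S) (hdet : S.det ≠ 0) :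
    ∃ d : 𝓞 F, d ≠ 0 ∧ ∀ (A : Type) [CommRing A] [IsDomain A] [Algebra A F] [IsFractionRing A F],
      (∀ x : 𝓞 F, ∃ a : A, algebraMap A F a = x) → (∃ a : A, IsUnit a ∧ algebraMap A F a = d) →
      ∃ Q : Matrix (Fin N) (Fin N) A, Q.map (algebraMap A F) = S ∧ IsUnit (Q + Qᵀ).det := by
  classical
  obtain ⟨b, hb⟩ := IsLocalization.exist_integer_multiples_of_finset (nonZeroDivisors (𝓞 F))
    (Finset.univ.image fun x : Fin N × Fin N => S x.1 x.2)
  have hb0 : (b : 𝓞 F) ≠ 0 := nonZeroDivisors.ne_zero b.2
  have hint : ∀ i j, ∃ z : 𝓞 F, algebraMap (𝓞 F) F b * S i j = algebraMap (𝓞 F) F z := by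
    intro i j
    obtain ⟨z, hz⟩ := hb (S i j) (Finset.mem_image.mpr ⟨(i, j), Finset.mem_univ _, rfl⟩)
    exact ⟨z, by rw [hz, Algebra.smul_def]⟩
  choose s hs using hint
  set sM : Matrix (Fin N) (Fin N) (𝓞 F) := Matrix.of s with hsM
  have hsMap : sM.map (algebraMap (𝓞 F) F) = algebraMap (𝓞 F) F b • S := by
    ext i j
    rw [Matrix.map_apply, Matrix.smul_apply, smul_eq_mul, hs]
    rfl
  have hDF : algebraMap (𝓞 F) F sM.det = (algebraMap (𝓞 F) F b) ^ N * S.det := by
    rw [← map_det', hsMap, Matrix.det_smul, Fintype.card_fin]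
  have hbF : algebraMap (𝓞 F) F b ≠ 0 := by
    rw [Ne, map_eq_zero_iff _ (IsFractionRing.injective (𝓞 F) F)]; exact hb0
  have hD0 : sM.det ≠ 0 := by
    intro h
    rw [h, map_zero] at hDF
    exact mul_ne_zero (pow_ne_zero _ hbF) hdet hDF.symm
  refine ⟨2 * b * sM.det, mul_ne_zero (mul_ne_zero two_ne_zero hb0) hD0, ?_⟩
  intro A _ _ _ _ hOA hdA
  choose ι hι using hOA
  obtain ⟨u, hu, huF⟩ := hdA
  have hAF := IsFractionRing.injective A F
  have hu' : u = 2 * ι b * ι sM.det := by
    apply hAF
    rw [huF, map_mul, map_mul, hι, hι, map_ofNat]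
    show algebraMap (𝓞 F) F (2 * b * sM.det) = _
    rw [map_mul, map_mul, map_ofNat]
  rw [hu'] at hu
  have hu2 : IsUnit (2 : A) := isUnit_of_mul_isUnit_left (isUnit_of_mul_isUnit_left hu)
  have hub : IsUnit (ι b) := isUnit_of_mul_isUnit_right (isUnit_of_mul_isUnit_left hu)
  have huD : IsUnit (ι sM.det) := isUnit_of_mul_isUnit_right hu
  obtain ⟨v, hv⟩ := hub.exists_right_inv
  have hvF : algebraMap A F v = (algebraMap (𝓞 F) F b)⁻¹ := by
    have h1 := congrArg (algebraMap A F) hv
    rw [map_mul, hι, map_one] at h1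
    exact eq_inv_of_mul_eq_one_right h1
  let Q : Matrix (Fin N) (Fin N) A := Matrix.of fun i j => v * ι (s i j)
  have hQmap : Q.map (algebraMap A F) = S := by
    ext i j
    show algebraMap A F (v * ι (s i j)) = S i j
    rw [map_mul, hvF, hι]
    have h1 : ((s i j : 𝓞 F) : F) = algebraMap (𝓞 F) F b * S i j := (hs i j).symm
    rw [h1, ← mul_assoc, inv_mul_cancel₀ hbF, one_mul]
  refine ⟨Q, hQmap, ?_⟩
  have hQrep : (Q + Qᵀ).map (algebraMap A F) = (2 : F) • S := by
    rw [Matrix.map_add _ (fun a b => map_add _ a b), Matrix.transpose_map, hQmap, hS, two_smul]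
  have h1 : (Q + Qᵀ).det = 2 ^ N * (v ^ N * ι sM.det) := by
    apply hAF
    rw [← map_det', hQrep, Matrix.det_smul, Fintype.card_fin, map_mul, map_pow, map_mul,
      map_pow, hvF, hι]
    have h2 : ((sM.det : 𝓞 F) : F) = (algebraMap (𝓞 F) F b) ^ N * S.det := hDF
    rw [h2, map_ofNat, inv_pow]
    have h3 := pow_ne_zero N hbF
    rw [inv_mul_cancel_left₀ h3]
  rw [h1]
  have hvu : IsUnit v := IsUnit.of_mul_eq_one_right _ hv
  exact (hu2.pow _).mul ((hvu.pow _).mul huD)

end Disc

section Span

variable {F K : Type} [Field F] [Field K] [Algebra F K]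

theorem span_mulVec {N : ℕ} (M : Matrix (Fin N) (Fin N) F) (hM : M.det ≠ 0) (W w : Fin N → K)
    (hw : w = (M.map (algebraMap F K)).mulVec W) :
    Submodule.span F (Set.range W) = Submodule.span F (Set.range w) := by
  have hu : IsUnit M.det := isUnit_iff_ne_zero.mpr hM
  have key : ∀ (M' : Matrix (Fin N) (Fin N) F) (a b : Fin N → K),
      b = (M'.map (algebraMap F K)).mulVec a →
      Submodule.span F (Set.range b) ≤ Submodule.span F (Set.range a) := by
    intro M' a b hb
    rw [Submodule.span_le]
    rintro _ ⟨i, rfl⟩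
    rw [hb, Matrix.mulVec, dotProduct]
    refine Submodule.sum_mem _ fun j _ => ?_
    rw [Matrix.map_apply, ← Algebra.smul_def]
    exact Submodule.smul_mem _ _ (Submodule.subset_span ⟨j, rfl⟩)
  refine le_antisymm (key M⁻¹ w W ?_) (key M W w hw)
  rw [hw, Matrix.mulVec_mulVec, ← Matrix.map_mul, Matrix.nonsing_inv_mul _ hu,
    Matrix.map_one _ (map_zero _) (map_one _), Matrix.one_mulVec]

theorem span_mul {N N' : ℕ} (a : Fin N → K) (b : Fin N' → K) :
    Submodule.span F (Set.range fun x : Fin N × Fin N' => a x.1 * b x.2) =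
      Submodule.span F (Set.range a) * Submodule.span F (Set.range b) := by
  rw [Submodule.span_mul_span]
  congr 1
  ext z
  rw [Set.mem_mul]
  constructor
  · rintro ⟨x, rfl⟩
    exact ⟨a x.1, ⟨_, rfl⟩, b x.2, ⟨_, rfl⟩, rfl⟩
  · rintro ⟨_, ⟨i, rfl⟩, _, ⟨j, rfl⟩, rfl⟩
    exact ⟨(i, j), rfl⟩

theorem span_GG {k : ℕ} {n : Fin k → ℕ} (W μ w : ∀ i, Fin (n i + 1) → K)
    (hW : ∀ i, Submodule.span F (Set.range (W i)) = Submodule.span F (Set.range (w i)))
    (hμ : ∀ i, Submodule.span F (Set.range (μ i)) = Submodule.span F (Set.range (w i)))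
    (c : Fin k ⊕ (Fin k × Fin k)) :
    Submodule.span F (Set.range (GG W μ c)) = Submodule.span F (Set.range (GG w w c)) := by
  rcases c with i | ⟨i, j⟩
  · exact hW i
  · have h1 : ∀ (W μ : ∀ i, Fin (n i + 1) → K), GG W μ (Sum.inr (i, j)) =
        Sum.elim (fun x : Fin (n i + 1) × Fin (n j + 1) => μ i x.1 * W j x.2)
          (fun x : Fin (n i + 1) × Fin (n j + 1) => W i x.1 * μ j x.2) := fun _ _ => rfl
    rw [h1, h1]
    show Submodule.span F (Set.range (Sum.elim (fun x : Fin (n i + 1) × Fin (n j + 1) =>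
        μ i x.1 * W j x.2) (fun x : Fin (n i + 1) × Fin (n j + 1) => W i x.1 * μ j x.2))) =
      Submodule.span F (Set.range (Sum.elim (fun x : Fin (n i + 1) × Fin (n j + 1) =>
        w i x.1 * w j x.2) (fun x : Fin (n i + 1) × Fin (n j + 1) => w i x.1 * w j x.2)))
    rw [Set.Sum.elim_range, Set.Sum.elim_range, Submodule.span_union, Submodule.span_union,
      span_mul, span_mul, span_mul, hW, hW, hμ, hμ]

theorem span_mu {A : Type} [CommRing A] [IsLocalRing A] [Algebra A F] [Algebra A K]
    [IsScalarTower A F K] {ϖ : A} (hϖ : algebraMap A F ϖ ≠ 0) {n : ℕ} (f : Fac A K ϖ n) :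
    Submodule.span F (Set.range f.mu) = Submodule.span F (Set.range f.W) := by
  have hp : algebraMap A K ϖ = algebraMap F K (algebraMap A F ϖ) :=
    IsScalarTower.algebraMap_apply A F K ϖ
  have hp0 : algebraMap F K (algebraMap A F ϖ) ≠ 0 := by
    rw [Ne, map_eq_zero_iff _ (algebraMap F K).injective]; exact hϖ
  apply le_antisymm
  · rw [Submodule.span_le]
    rintro _ ⟨a, rfl⟩
    unfold Fac.mu
    split_ifs with h
    · rw [hp, ← Algebra.smul_def]
      exact Submodule.smul_mem _ _ (Submodule.subset_span ⟨0, rfl⟩)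
    · exact Submodule.subset_span ⟨a, rfl⟩
  · rw [Submodule.span_le]
    rintro _ ⟨a, rfl⟩
    by_cases h : f.bad ∧ a = 0
    · have h1 : f.W a = (algebraMap A F ϖ)⁻¹ • f.mu a := by
        unfold Fac.mu
        simp only [h, and_self, if_true]
        rw [hp, ← Algebra.smul_def, smul_smul, inv_mul_cancel₀ hϖ, one_smul]
      rw [h1]
      exact Submodule.smul_mem _ _ (Submodule.subset_span ⟨a, rfl⟩)
    · have h1 : f.W a = f.mu a := by
        unfold Fac.mu
        simp only [h, if_false]
      rw [h1]
      exact Submodule.subset_span ⟨a, rfl⟩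

end Span

section Main

variable {F : Type} [Field F] [NumberField F] {k : ℕ} {n : Fin k → ℕ}

/-- The index of the product of the first coordinates. -/
def base {k : ℕ} (n : Fin k → ℕ) : ∀ c : Fin k ⊕ (Fin k × Fin k), JJ n c
  | Sum.inl i => (0 : Fin (n i + 1))
  | Sum.inr p => Sum.inl ((0 : Fin (n p.1 + 1)), (0 : Fin (n p.2 + 1)))

theorem GG_base {K : Type} [Field K] (w : ∀ i, Fin (n i + 1) → K) (hw : ∀ i, w i 0 = 1)
    (c : Fin k ⊕ (Fin k × Fin k)) : GG w w c (base n c) = 1 := by
  rcases c with i | ⟨i, j⟩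
  · exact hw i
  · show w i 0 * w j 0 = 1
    rw [hw, hw, one_mul]

theorem card_le_trdeg (hn1 : ∀ i, 1 ≤ n i)
    (S : ∀ i, Matrix (Fin (n i + 1)) (Fin (n i + 1)) F) (hS : ∀ i, (S i + (S i)ᵀ).det ≠ 0)
    (K : Type) [Field K] [Algebra (PRing S) K] [IsFractionRing (PRing S) K] [Algebra F K]
    (hr : ∀ x, algebraMap F K x = rK S K x) (A : Type) [CommRing A] [IsDomain A] [Algebra A F]
    [IsFractionRing A F] [Algebra A K] [IsScalarTower A F K] :
    ((∑ i, (n i - 1) : ℕ) : Cardinal.{0}) ≤ Algebra.trdeg A K := by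
  obtain ⟨ν, rfl⟩ : ∃ ν : Fin k → ℕ, n = fun i => ν i + 1 :=
    ⟨fun i => n i - 1, by
      ext i
      show n i = n i - 1 + 1
      have := hn1 i
      omega⟩
  have h1 := algebraicIndependent_wK S hS K hr
  have h2 := (h1.restrictScalars (R := A) (IsFractionRing.injective A F)).cardinalMk_le_trdeg
  rw [Cardinal.mk_fintype, Fintype.card_sigma] at h2
  simpa using h2

/-- **Function fields of products of quadrics in odd numbers of variables over a number field have
regular projective models over the integers.** -/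
theorem fracCharts_PRing (hn : ∀ i, Even (n i)) (hn1 : ∀ i, 1 ≤ n i)
    (S : ∀ i, Matrix (Fin (n i + 1)) (Fin (n i + 1)) F) (hS : ∀ i, (S i)ᵀ = S i)
    (hdet : ∀ i, (S i).det ≠ 0) : Pool.Agent.H19.OG.FracCharts (PRing S) := by
  classical
  intro K _ _ _
  let algFK : Algebra F K := (rK S K).toAlgebra
  have hr : ∀ x : F, algebraMap F K x = rK S K x := fun _ => rfl
  have hK : CharZero K := charZero_of_injective_algebraMap (algebraMap F K).injective
  have hS' : ∀ i, (S i + (S i)ᵀ).det ≠ 0 := by
    intro i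
    rw [hS i, ← two_smul F (S i), Matrix.det_smul]
    exact mul_ne_zero (pow_ne_zero _ two_ne_zero) (hdet i)
  choose dd hdd0 hdd using fun i => exists_disc (S i) (hS i) (hdet i)
  have hprod1 : prodTuple (GG (wK S K) (wK S K)) (base n) = 1 :=
    Finset.prod_eq_one fun c _ => GG_base (wK S K) (wK_zero S K) c
  refine hasCharts_of_charts (F := F) (prodTuple (GG (wK S K) (wK S K)))
    ⟨base n, by rw [hprod1]; exact one_ne_zero⟩ (∏ i, dd i)
    (Finset.prod_ne_zero_iff.mpr fun i _ => hdd0 i) ?_ ?_ ?_
  · -- good primes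
    intro A _ _ _ _ _ _ _ _ hOA hdA φ hφ
    have hinj : Function.Injective (algebraMap A K) := by
      rw [IsScalarTower.algebraMap_eq A F K]
      exact (algebraMap F K).injective.comp (IsFractionRing.injective A F)
    have hfaith : FaithfulSMul A K := (faithfulSMul_iff_algebraMap_injective A K).mpr hinj
    obtain ⟨ϖ, hϖ⟩ := IsDiscreteValuationRing.exists_irreducible A
    obtain ⟨a, ha, haF⟩ := hdA
    choose ι hι using hOA
    have hunit : ∀ i, IsUnit (ι (dd i)) := by
      intro i
      have h1 : a = ∏ i, ι (dd i) := by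
        apply IsFractionRing.injective A F
        rw [haF, map_prod]
        simp only [hι]
        exact map_prod (algebraMap (𝓞 F) F) _ _
      rw [h1] at ha
      exact isUnit_of_dvd_unit (Finset.dvd_prod_of_mem (fun i => ι (dd i)) (Finset.mem_univ i)) ha
    choose Q hQ1 hQ2 using fun i => hdd i A (fun x => ⟨ι x, hι x⟩) ⟨ι (dd i), hunit i, hι _⟩
    have hrad : ∀ i, ∀ w ∈ radSet (Q i), w = 0 := by
      intro i w hw
      ext b
      have h1 := det_mul_eq_zero (Q i) w hw.1 b
      have h2 : algebraMap A (ResidueField A) (Q i + (Q i)ᵀ).det ≠ 0 := ((hQ2 i).map _).ne_zero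
      exact (mul_eq_zero.mp h1).resolve_left h2
    let f : ∀ i, Fac A K ϖ (n i) := fun i =>
      { W := wK S K i
        Q := Q i
        bad := False
        u := 1
        l := 0
        hW := by
          have h1 : qf (Q i) (wK S K i) = qf (S i) (wK S K i) := by
            simp only [qf]
            refine Finset.sum_congr rfl fun a _ => Finset.sum_congr rfl fun b _ => ?_
            rw [IsScalarTower.algebraMap_apply A F K, ← hQ1 i, Matrix.map_apply]
          rw [h1]; exact qf_wK S K hr i
        hdet := (hQ2 i).ne_zero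
        hgood := fun _ => hrad i
        hbad := fun h => h.elim }
    have hmu : (fun i => (f i).mu) = wK S K := by
      funext i a
      exact Fac.mu_good (F := f i) (fun h => h) a
    have hmain := isRegularRing_chart hϖ hn1 f ?_ (card_le_trdeg hn1 S hS' K hr A) φ ?_
    · rw [hmu] at hmain
      exact hmain
    · intro E hEA hEW
      refine eq_top_of_mem S K E (fun x => ?_) fun i c => ?_
      · obtain ⟨p, q, hq, rfl⟩ := IsFractionRing.div_surjective (A := A) x
        rw [map_div₀]
        refine E.div_mem ?_ ?_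
        · rw [← hr, ← IsScalarTower.algebraMap_apply A F K]; exact hEA p
        · rw [← hr, ← IsScalarTower.algebraMap_apply A F K]; exact hEA q
      · have h1 := hEW i c 0
        have h2 : (f i).W 0 = 1 := wK_zero S K i
        rw [h2, div_one] at h1
        exact h1
    · rw [hmu]; exact hφ
  · -- all primes
    intro A _ _ _ _ _ _ _ _
    have hinj : Function.Injective (algebraMap A K) := by
      rw [IsScalarTower.algebraMap_eq A F K]
      exact (algebraMap F K).injective.comp (IsFractionRing.injective A F)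
    have hfaith : FaithfulSMul A K := (faithfulSMul_iff_algebraMap_injective A K).mpr hinj
    obtain ⟨ϖ, hϖ⟩ := IsDiscreteValuationRing.exists_irreducible A
    choose Q M c hM hc hQ hQdet hst using fun i => exists_local_form (hn i) ϖ hϖ (S i) (hS' i)
    have hul : ∀ i, ∃ (u : A) (l : Fin (n i) → A), ¬ (∀ w ∈ radSet (Q i), w = 0) →
        IsNormal ϖ (Q i) u l := by
      intro i
      by_cases h : ∀ w ∈ radSet (Q i), w = 0
      · exact ⟨1, 0, fun h' => absurd h h'⟩
      · obtain ⟨u, l, hul⟩ := (hst i).resolve_left h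
        exact ⟨u, l, fun _ => hul⟩
    choose u l hul using hul
    let W : ∀ i, Fin (n i + 1) → K := fun i => ((M i)⁻¹.map (algebraMap F K)).mulVec (wK S K i)
    have hMW : ∀ i, wK S K i = ((M i).map (algebraMap F K)).mulVec (W i) := by
      intro i
      show _ = ((M i).map (algebraMap F K)).mulVec
        (((M i)⁻¹.map (algebraMap F K)).mulVec (wK S K i))
      rw [Matrix.mulVec_mulVec, ← Matrix.map_mul,
        Matrix.mul_nonsing_inv _ (isUnit_iff_ne_zero.mpr (hM i)),
        Matrix.map_one _ (map_zero _) (map_one _), Matrix.one_mulVec]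
    let f : ∀ i, Fac A K ϖ (n i) := fun i =>
      { W := W i
        Q := Q i
        bad := ¬ (∀ w ∈ radSet (Q i), w = 0)
        u := u i
        l := l i
        hW := qf_transform (Q i) (M i) (S i) (c i) (hQ i) (W i) (by
          rw [← hMW i]; exact qf_wK S K hr i)
        hdet := hQdet i
        hgood := fun h => not_not.mp h
        hbad := hul i }
    have hϖF : algebraMap A F ϖ ≠ 0 := by
      rw [Ne, map_eq_zero_iff _ (IsFractionRing.injective A F)]
      exact hϖ.ne_zero
    have hspW : ∀ i, Submodule.span F (Set.range (W i)) =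
        Submodule.span F (Set.range (wK S K i)) := fun i =>
      span_mulVec (M i) (hM i) (W i) (wK S K i) (hMW i)
    refine ⟨∀ c, JJ n c, inferInstance, prodTuple (GG (fun i => (f i).W) (fun i => (f i).mu)),
      ?_, ?_⟩
    · apply span_prodTuple
      exact span_GG _ _ _ hspW fun i => (span_mu hϖF (f i)).trans (hspW i)
    · intro φ hφ
      refine isRegularRing_chart hϖ hn1 f ?_ (card_le_trdeg hn1 S hS' K hr A) φ hφ
      intro E hEA hEW
      have hEF : ∀ x : F, rK S K x ∈ E := by
        intro x
        obtain ⟨p, q, hq, rfl⟩ := IsFractionRing.div_surjective (A := A) x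
        rw [map_div₀]
        refine E.div_mem ?_ ?_
        · rw [← hr, ← IsScalarTower.algebraMap_apply A F K]; exact hEA p
        · rw [← hr, ← IsScalarTower.algebraMap_apply A F K]; exact hEA q
      refine eq_top_of_mem S K E hEF fun i c => ?_
      obtain ⟨b, hb⟩ : ∃ b, W i b ≠ 0 := by
        by_contra hcon
        push Not at hcon
        have h1 : W i = 0 := funext hcon
        have h2 := hMW i
        rw [h1, Matrix.mulVec_zero] at h2
        have h3 := wK_zero S K i
        rw [h2] at h3
        exact zero_ne_one h3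
      have h1 : ∀ c, wK S K i c / W i b ∈ E := by
        intro c
        rw [hMW i, Matrix.mulVec, dotProduct, Finset.sum_div]
        refine E.sum_mem fun d _ => ?_
        rw [mul_div_assoc, Matrix.map_apply, hr]
        exact E.mul_mem (hEF _) (hEW i d b)
      have h2 : wK S K i c = (wK S K i c / W i b) / (wK S K i 0 / W i b) := by
        rw [div_div_div_cancel_right₀ hb, wK_zero, div_one]
      rw [h2]
      exact E.div_mem (h1 c) (h1 0)
  · intro E hEF hE
    refine eq_top_of_mem S K E hEF fun i c => ?_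
    have h1 := prodTuple_update_div (GG (wK S K) (wK S K)) (base n)
      (fun c => by rw [GG_base _ (wK_zero S K)]; exact one_ne_zero) (Sum.inl i) c
    rw [GG_base _ (wK_zero S K), div_one] at h1
    have h2 := hE (Function.update (base n) (Sum.inl i) c) (base n)
    rw [h1] at h2
    exact h2

end Main

end Pool.Agent.H71.Prod
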