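import Pool.Agent.H96.RegSub
import Pool.Agent.H97.ChartReg
import Pool.Agent.H19.NF.PderA

/-!
# Independence of relations by derivations
-/

set_option autoImplicit false

namespace Pool.Agent.H71.Prod

open Pool.Agent.H96.Reg

section Triangular

variable {A S κ : Type*} [CommRing A] [CommRing S] [Algebra A S]

/-- A triangular system of derivations shows that the coefficients of a relation modulo `Q ^ 2` lie
in `Q`. -/
theorem mem_of_triangular [Fintype κ] (Q : Ideal S) [hQ : Q.IsPrime] (f : κ → S)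
    (hf : ∀ k, f k ∈ Q) (rank : κ → ℕ) (p : κ → Prop) (D : κ → Derivation A S S)
    (h1 : ∀ k, p k → D k (f k) ∉ Q)
    (h2 : ∀ k, p k → ∀ k', k' ≠ k → (p k' → rank k ≤ rank k') → D k (f k') ∈ Q)
    (a : κ → S) (t : S) (ht : t ∉ Q) (hmem : t * ∑ k, a k * f k ∈ Q ^ 2) :
    ∀ k, p k → a k ∈ Q := by
  classical
  have key : ∀ n, ∀ k, rank k = n → p k → a k ∈ Q := by
    intro n
    induction n using Nat.strong_induction_on with
    | _ n ih =>
      intro k hk hp
      have h3 := Pool.Agent.H97.derivation_sq_mem (D k) Q hmem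
      rw [Derivation.leibniz, smul_eq_mul, smul_eq_mul] at h3
      have hsum : ∑ k, a k * f k ∈ Q := Q.sum_mem fun j _ => Q.mul_mem_left _ (hf j)
      have h4 : t * D k (∑ k, a k * f k) ∈ Q := by
        have := Q.sub_mem h3 (Q.mul_mem_right (D k t) hsum)
        simpa using this
      have h5 := (hQ.mem_or_mem h4).resolve_left ht
      rw [map_sum, ← Finset.add_sum_erase _ _ (Finset.mem_univ k)] at h5
      have h6 : ∑ j ∈ Finset.univ.erase k, D k (a j * f j) ∈ Q := by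
        refine Q.sum_mem fun j hj => ?_
        rw [Derivation.leibniz, smul_eq_mul, smul_eq_mul]
        refine Q.add_mem ?_ (Q.mul_mem_right _ (hf j))
        have hjk : j ≠ k := Finset.ne_of_mem_erase hj
        by_cases hpj : p j ∧ rank j < rank k
        · exact Q.mul_mem_right _ (ih (rank j) (hk ▸ hpj.2) j rfl hpj.1)
        · refine Q.mul_mem_left _ (h2 k hp j hjk fun hj' => ?_)
          by_contra hcon
          exact hpj ⟨hj', not_le.mp hcon⟩
      have h7 : D k (a k * f k) ∈ Q := by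
        have := Q.sub_mem h5 h6
        simpa using this
      rw [Derivation.leibniz, smul_eq_mul, smul_eq_mul] at h7
      have h8 : a k * D k (f k) ∈ Q := by
        have := Q.sub_mem h7 (Q.mul_mem_right (D k (a k)) (hf k))
        simpa using this
      exact (hQ.mem_or_mem h8).resolve_right (h1 k hp)
  exact fun k hp => key _ k rfl hp

end Triangular

section Chain

variable {A S : Type*} [CommRing A] [CommRing S] [Algebra A S]

/-- The relation number `i` of a chain. -/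
def chainRel (q u s : ℕ → S) (i : ℕ) : S := u (i + 1) * q i - s i ^ 2 * u i * q (i + 1)

theorem D_chainRel (D : Derivation A S S) (q u s : ℕ → S) (i : ℕ) :
    D (chainRel q u s i) = u (i + 1) * D (q i) + q i * D (u (i + 1)) -
      (s i ^ 2 * u i * D (q (i + 1)) + q (i + 1) * (s i ^ 2 * D (u i) +
        u i * (2 * s i * D (s i)))) := by
  rw [chainRel, map_sub, Derivation.leibniz, Derivation.leibniz, Derivation.leibniz,
    Derivation.leibniz_pow]
  simp only [smul_eq_mul, nsmul_eq_mul, Nat.add_one_sub_one, pow_one]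
  push_cast
  ring

/-- The triangular system of derivations of a chain. -/
theorem exists_chain_derivation (Q : Ideal S) [hQ : Q.IsPrime] (Φ : Derivation A S S → Prop)
    (r : ℕ) (q u s : ℕ → S) (hE : ∀ i < r, chainRel q u s i ∈ Q) (hu : ∀ i ≤ r, u i ∉ Q)
    (hs0 : s 0 ∈ Q)
    (halt : ∀ i, i + 1 < r → (∃ D : Derivation A S S, Φ D ∧ D (q (i + 1)) ∉ Q ∧
      (∀ j, D (u j) ∈ Q) ∧ (∀ j, j ≠ i + 1 → D (q j) ∈ Q) ∧ ∀ j, D (s j) ∈ Q) ∨
      2 * q (i + 1) ∉ Q)
    (hDs : ∀ j, 1 ≤ j → j < r → ∃ D : Derivation A S S, Φ D ∧ D (s j) ∉ Q ∧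
      (∀ j', j' ≠ j → D (s j') ∈ Q) ∧ (∀ j', D (q j') ∈ Q) ∧ ∀ j', D (u j') ∈ Q)
    (i : ℕ) (hi1 : 1 ≤ i) (hir : i < r) :
    ∃ D : Derivation A S S, Φ D ∧ D (chainRel q u s i) ∉ Q ∧
      ∀ j, j ≠ i → (j = 0 ∨ i ≤ j) → D (chainRel q u s j) ∈ Q := by
  obtain ⟨i, rfl⟩ : ∃ i', i = i' + 1 := ⟨i - 1, by omega⟩
  rcases halt i hir with ⟨D, hΦ, hD1, hDu, hDq, hDsj⟩ | h2
  · refine ⟨D, hΦ, ?_, ?_⟩
    · intro hmem
      rw [D_chainRel] at hmem
      have h3 : q (i + 1) * D (u (i + 1 + 1)) - (s (i + 1) ^ 2 * u (i + 1) * D (q (i + 1 + 1)) +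
          q (i + 1 + 1) * (s (i + 1) ^ 2 * D (u (i + 1)) +
          u (i + 1) * (2 * s (i + 1) * D (s (i + 1))))) ∈ Q := by
        refine Q.sub_mem (Q.mul_mem_left _ (hDu _)) (Q.add_mem (Q.mul_mem_left _ (hDq _ (by omega)))
          (Q.mul_mem_left _ (Q.add_mem (Q.mul_mem_left _ (hDu _)) (Q.mul_mem_left _
          (Q.mul_mem_left _ (hDsj _))))))
      have h4 : u (i + 1 + 1) * D (q (i + 1)) ∈ Q := by
        have := Q.sub_mem hmem h3
        convert this using 1
        ring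
      rcases hQ.mem_or_mem h4 with h5 | h5
      · exact hu _ (by omega) h5
      · exact hD1 h5
    · intro j hj hj'
      rw [D_chainRel]
      refine Q.sub_mem (Q.add_mem (Q.mul_mem_left _ (hDq _ hj)) (Q.mul_mem_left _ (hDu _)))
        (Q.add_mem ?_ (Q.mul_mem_left _ (Q.add_mem (Q.mul_mem_left _ (hDu _)) (Q.mul_mem_left _
          (Q.mul_mem_left _ (hDsj _))))))
      rcases hj' with rfl | hj'
      · exact Q.mul_mem_right _ (Q.mul_mem_right _ (Q.pow_mem_of_mem hs0 2 (by norm_num)))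
      · exact Q.mul_mem_left _ (hDq _ (by omega))
  · have h20 : (2 : S) ∉ Q := fun h => h2 (Q.mul_mem_right _ h)
    have hq : q (i + 1) ∉ Q := fun h => h2 (Q.mul_mem_left _ h)
    have hprod : s (i + 1) ^ 2 * u (i + 1) * q (i + 1 + 1) ∉ Q := by
      intro h3
      have h4 := Q.add_mem (hE (i + 1) hir) h3
      rw [chainRel, sub_add_cancel] at h4
      rcases hQ.mem_or_mem h4 with h5 | h5
      · exact hu _ (by omega) h5
      · exact hq h5
    have hs : s (i + 1) ∉ Q := fun h => hprod (Q.mul_mem_right _ (Q.mul_mem_right _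
      (Q.pow_mem_of_mem h 2 (by norm_num))))
    have hqq : q (i + 1 + 1) ∉ Q := fun h => hprod (Q.mul_mem_left _ h)
    obtain ⟨D, hΦ, hD1, hDsj, hDq, hDu⟩ := hDs (i + 1) (by omega) hir
    refine ⟨D, hΦ, ?_, ?_⟩
    · intro hmem
      rw [D_chainRel] at hmem
      have h3 : u (i + 1 + 1) * D (q (i + 1)) + q (i + 1) * D (u (i + 1 + 1)) -
          (s (i + 1) ^ 2 * u (i + 1) * D (q (i + 1 + 1)) +
          q (i + 1 + 1) * (s (i + 1) ^ 2 * D (u (i + 1)))) ∈ Q :=
        Q.sub_mem (Q.add_mem (Q.mul_mem_left _ (hDq _)) (Q.mul_mem_left _ (hDu _)))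
          (Q.add_mem (Q.mul_mem_left _ (hDq _)) (Q.mul_mem_left _ (Q.mul_mem_left _ (hDu _))))
      have h4 : q (i + 1 + 1) * (u (i + 1) * (2 * s (i + 1) * D (s (i + 1)))) ∈ Q := by
        have := Q.sub_mem h3 hmem
        convert this using 1
        ring
      rcases hQ.mem_or_mem h4 with h5 | h5
      · exact hqq h5
      rcases hQ.mem_or_mem h5 with h6 | h6
      · exact hu _ (by omega) h6
      rcases hQ.mem_or_mem h6 with h7 | h7
      · rcases hQ.mem_or_mem h7 with h8 | h8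
        · exact h20 h8
        · exact hs h8
      · exact hD1 h7
    · intro j hj _
      rw [D_chainRel]
      exact Q.sub_mem (Q.add_mem (Q.mul_mem_left _ (hDq _)) (Q.mul_mem_left _ (hDu _)))
        (Q.add_mem (Q.mul_mem_left _ (hDq _)) (Q.mul_mem_left _ (Q.add_mem (Q.mul_mem_left _ (hDu _))
          (Q.mul_mem_left _ (Q.mul_mem_left _ (hDsj _ hj))))))

end Chain

section Main

open MvPolynomial IsLocalRing

variable {A : Type*} [CommRing A] [IsDomain A] [IsLocalRing A] [Finite (ResidueField A)]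

/-- Independence of the relations of a chain together with relations having their own
derivations. -/
theorem indepAt_chain {σ κ : Type*} [Fintype κ] (ϖ : A) (hϖ : maximalIdeal A = Ideal.span {ϖ})
    (hϖ0 : ϖ ≠ 0) (Q : Ideal (MvPolynomial σ A)) [hQ : Q.IsPrime]
    (g : κ → MvPolynomial σ A) (hg : ∀ k, g k ∈ Q)
    (r : ℕ) (q u s : ℕ → MvPolynomial σ A)
    (hDg : ∀ k, ∃ D : Derivation A (MvPolynomial σ A) (MvPolynomial σ A), D (g k) ∉ Q ∧
      (∀ k', k' ≠ k → D (g k') ∈ Q) ∧ ∀ i, D (chainRel q u s i) ∈ Q)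
    (hE : ∀ i < r, chainRel q u s i ∈ Q) (hu : ∀ i ≤ r, u i ∉ Q)
    (hr : 0 < r → s 0 ∈ Q ∧ q 0 = -C ϖ ∧ C ϖ ∈ Q)
    (halt : ∀ i, i + 1 < r → (∃ D : Derivation A (MvPolynomial σ A) (MvPolynomial σ A),
      (∀ k, D (g k) ∈ Q) ∧ D (q (i + 1)) ∉ Q ∧
      (∀ j, D (u j) ∈ Q) ∧ (∀ j, j ≠ i + 1 → D (q j) ∈ Q) ∧ ∀ j, D (s j) ∈ Q) ∨
      2 * q (i + 1) ∉ Q)
    (hDs : ∀ j, 1 ≤ j → j < r → ∃ D : Derivation A (MvPolynomial σ A) (MvPolynomial σ A),
      (∀ k, D (g k) ∈ Q) ∧ D (s j) ∉ Q ∧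
      (∀ j', j' ≠ j → D (s j') ∈ Q) ∧ (∀ j', D (q j') ∈ Q) ∧ ∀ j', D (u j') ∈ Q) :
    IndepAt (Sum.elim (fun i : Fin r => chainRel q u s i) g) Q := by
  classical
  intro a t ht hmem
  set f : Fin r ⊕ κ → MvPolynomial σ A := Sum.elim (fun i : Fin r => chainRel q u s i) g with hf
  have hfQ : ∀ k, f k ∈ Q := by
    rintro (i | k)
    · exact hE i i.2
    · exact hg k
  let p : Fin r ⊕ κ → Prop := Sum.elim (fun i => i.val ≠ 0) (fun _ => True)
  let rank : Fin r ⊕ κ → ℕ := Sum.elim (fun i => i.val) (fun _ => 0)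
  have hD : ∀ k, ∃ D : Derivation A (MvPolynomial σ A) (MvPolynomial σ A), p k →
      D (f k) ∉ Q ∧ ∀ k', k' ≠ k → (p k' → rank k ≤ rank k') → D (f k') ∈ Q := by
    rintro (i | k)
    · by_cases hi : i.val = 0
      · exact ⟨0, fun h => absurd hi h⟩
      · obtain ⟨D, hΦ, hD1, hD2⟩ := exists_chain_derivation Q (fun D => ∀ k, D (g k) ∈ Q) r q u s
          hE hu (hr (by omega)).1 halt hDs i.val (by omega) i.2
        refine ⟨D, fun _ => ⟨hD1, ?_⟩⟩
        rintro (j | k) hne hle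
        · refine hD2 j.val (fun h => hne (by rw [Fin.ext h])) ?_
          by_cases hj : j.val = 0
          · exact Or.inl hj
          · exact Or.inr (hle hj)
        · exact hΦ k
    · obtain ⟨D, hD1, hD2, hD3⟩ := hDg k
      refine ⟨D, fun _ => ⟨hD1, ?_⟩⟩
      rintro (j | k') hne _
      · exact hD3 j.val
      · exact hD2 k' fun h => hne (by rw [h])
  choose D hD using hD
  have hall := mem_of_triangular Q f hfQ rank p D (fun k hk => (hD k hk).1)
    (fun k hk => (hD k hk).2) a t ht hmem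
  rintro (i | k)
  swap
  · exact hall (Sum.inr k) trivial
  by_cases hi : i.val ≠ 0
  · exact hall (Sum.inl i) hi
  push Not at hi
  have hr0 : 0 < r := by have := i.2; omega
  obtain ⟨hs0, hq0, hϖQ⟩ := hr hr0
  rw [← Finset.add_sum_erase _ _ (Finset.mem_univ (Sum.inl i)), mul_add] at hmem
  have h1 : t * ∑ k ∈ Finset.univ.erase (Sum.inl i), a k * f k ∈ Q ^ 2 := by
    refine Ideal.mul_mem_left _ _ (Ideal.sum_mem _ fun k hk => ?_)
    have hk' : k ≠ Sum.inl i := Finset.ne_of_mem_erase hk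
    have hpk : p k := by
      rcases k with j | k
      · intro hj
        exact hk' (by rw [Fin.ext (hj.trans hi.symm)])
      · trivial
    rw [pow_two]
    exact Ideal.mul_mem_mul (hall k hpk) (hfQ k)
  have h2 : t * (a (Sum.inl i) * f (Sum.inl i)) ∈ Q ^ 2 := by
    have := Ideal.sub_mem _ hmem h1
    simpa using this
  have h3 : f (Sum.inl i) = u 1 * -C ϖ - s 0 ^ 2 * u 0 * q 1 := by
    show chainRel q u s i.val = _
    rw [hi, chainRel, hq0]
  have h4 : s 0 ^ 2 ∈ Q ^ 2 := Ideal.pow_mem_pow hs0 2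
  have h5 : C ϖ * (t * a (Sum.inl i) * u 1) ∈ Q ^ 2 := by
    have h6 := Ideal.add_mem _ h2 (Ideal.mul_mem_left _ (t * a (Sum.inl i) * (u 0 * q 1)) h4)
    rw [h3] at h6
    have h7 := Ideal.neg_mem_iff _ |>.mpr h6
    convert h7 using 1
    ring
  have h6 := Pool.Agent.H19.NF.mem_of_pi_mul_mem_sq ϖ hϖ hϖ0 Q hϖQ _ h5
  rcases hQ.mem_or_mem h6 with h7 | h7
  · exact (hQ.mem_or_mem h7).resolve_left ht
  · exact absurd h7 (hu 1 hr0)

end Main

end Pool.Agent.H71.Prod
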