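import Pool.Agent.H19.NF.Latt

/-!
# Normal form of a good quadratic form with singular reduction
-/

set_option autoImplicit false

namespace Pool.Agent.H71.Prod

open Matrix IsLocalRing Pool.Agent.H19.NF

/-- The determinant of `B - Bᵀ` is zero in odd size. -/
theorem det_sub_transpose {R : Type*} [CommRing R] {n : ℕ} (hn : Odd n)
    (B : Matrix (Fin n) (Fin n) R) : (B - Bᵀ).det = 0 := by
  let X := mvPolynomialX (Fin n) (Fin n) ℤ
  have h1 : (X - Xᵀ).det = 0 := by
    have h2 : (X - Xᵀ)ᵀ = -(X - Xᵀ) := by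
      rw [Matrix.transpose_sub, Matrix.transpose_transpose, neg_sub]
    have h3 := congrArg Matrix.det h2
    rw [Matrix.det_transpose, Matrix.det_neg, Fintype.card_fin, hn.neg_one_pow, neg_one_mul] at h3
    have h4 : (2 : MvPolynomial (Fin n × Fin n) ℤ) * (X - Xᵀ).det = 0 := by
      linear_combination h3
    exact (mul_eq_zero.mp h4).resolve_left two_ne_zero
  have h4 : (X - Xᵀ).map (MvPolynomial.eval₂Hom (Int.castRingHom R) (fun p => B p.1 p.2)) =
      B - Bᵀ := by
    ext i j
    simp [X]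
  rw [← h4, ← RingHom.mapMatrix_apply, ← RingHom.map_det, h1, map_zero]

/-- In characteristic two, the radical of the polar form of a quadratic form in an even number of
variables is not a line. -/
theorem exists_rad_pair {κ : Type*} [Field κ] (h2 : (2 : κ) = 0) {m : ℕ} (hm : Odd m)
    (B : Matrix (Fin (m + 1)) (Fin (m + 1)) κ) (v : Fin (m + 1) → κ) (hv0 : v ≠ 0)
    (hv : (B + Bᵀ).mulVec v = 0) : ∃ v', (B + Bᵀ).mulVec v' = 0 ∧ ∀ c : κ, v' ≠ c • v := by
  classical
  obtain ⟨i0, hi0⟩ : ∃ i, v i ≠ 0 := Function.ne_iff.mp hv0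
  set G := B + Bᵀ with hG
  have hGsym : Gᵀ = G := by
    rw [hG, Matrix.transpose_add, Matrix.transpose_transpose]
    exact add_comm _ _
  let B' := B.submatrix i0.succAbove i0.succAbove
  have hdet : (B' + B'ᵀ).det = 0 := by
    have h3 : B' + B'ᵀ = B' - B'ᵀ := by
      ext i j
      rw [Matrix.add_apply, Matrix.sub_apply]
      linear_combination (B'ᵀ i j) * h2
    rw [h3]; exact det_sub_transpose hm B'
  obtain ⟨y, hy0, hy⟩ := Matrix.exists_mulVec_eq_zero_iff.mpr hdet
  let x : Fin (m + 1) → κ := i0.insertNth (α := fun _ => κ) 0 y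
  have hx0 : x i0 = 0 := by simp [x]
  have hxs : ∀ j, x (i0.succAbove j) = y j := fun j => by simp [x]
  have h3 : ∀ j, G.mulVec x (i0.succAbove j) = 0 := by
    intro j
    rw [Matrix.mulVec, dotProduct, Fin.sum_univ_succAbove _ i0, hx0, mul_zero, zero_add]
    have h4 := congrFun hy j
    rw [Matrix.mulVec, dotProduct, Pi.zero_apply] at h4
    rw [← h4]
    refine Finset.sum_congr rfl fun l _ => ?_
    rw [hxs]
    rfl
  have h4 : G.mulVec x i0 = 0 := by
    have h5 : v ⬝ᵥ G.mulVec x = 0 := by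
      rw [Matrix.dotProduct_mulVec, ← Matrix.mulVec_transpose, hGsym, hv, zero_dotProduct]
    rw [dotProduct, Fin.sum_univ_succAbove _ i0] at h5
    have h6 : ∑ j, v (i0.succAbove j) * G.mulVec x (i0.succAbove j) = 0 :=
      Finset.sum_eq_zero fun j _ => by rw [h3, mul_zero]
    rw [h6, add_zero] at h5
    exact (mul_eq_zero.mp h5).resolve_left hi0
  refine ⟨x, ?_, ?_⟩
  · ext i
    rcases Fin.eq_self_or_eq_succAbove i0 i with rfl | ⟨j, rfl⟩
    · exact h4
    · exact h3 j
  · intro c hc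
    have h5 := congrFun hc i0
    rw [hx0, Pi.smul_apply, smul_eq_mul] at h5
    have h6 : c = 0 := (mul_eq_zero.mp h5.symm).resolve_right hi0
    apply hy0
    ext j
    rw [← hxs, hc, h6, zero_smul]
    rfl

section Local

variable {A : Type*} [CommRing A] [IsLocalRing A]

omit [IsLocalRing A] in
theorem bf_single_eq_mulVec {n : ℕ} {R : Type*} [CommRing R] [Algebra A R]
    (Q : Matrix (Fin n) (Fin n) A) (x : Fin n → R) (k : Fin n) :
    bf Q x (Pi.single k 1) =
      (Q.map (algebraMap A R) + (Q.map (algebraMap A R))ᵀ).mulVec x k := by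
  rw [bf_single_right, Matrix.mulVec, dotProduct]
  refine Finset.sum_congr rfl fun i _ => ?_
  congr 1
  simp [Matrix.add_apply]

/-- If the polar form of a quadratic form in an even number of variables is degenerate modulo the
maximal ideal of a local ring with finite residue field, then the reduction has a nonzero
radical. -/
theorem exists_rad_of_not_isUnit [Finite (ResidueField A)] {n : ℕ} (hn : Even n)
    (Q : Matrix (Fin n) (Fin n) A) (h : ¬ IsUnit (Q + Qᵀ).det) :
    ∃ v ∈ radSet Q, v ≠ 0 := by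
  classical
  set B := Q.map (algebraMap A (ResidueField A)) with hB
  have h1 : (B + Bᵀ).det = 0 := by
    have h3 : B + Bᵀ = (Q + Qᵀ).map (residue A) := by
      ext i j; simp [hB]
    rw [h3, ← RingHom.mapMatrix_apply, ← RingHom.map_det]
    by_contra h4
    exact h (residue_ne_zero_iff_isUnit _ |>.mp h4)
  obtain ⟨v, hv0, hv⟩ := Matrix.exists_mulVec_eq_zero_iff.mpr h1
  have hrad : ∀ {v : Fin n → ResidueField A}, (B + Bᵀ).mulVec v = 0 →
      ∀ k, bf Q v (Pi.single k 1) = 0 := by
    intro v hv k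
    rw [bf_single_eq_mulVec, ← hB, hv]
    rfl
  by_cases h2 : (2 : ResidueField A) = 0
  swap
  · refine ⟨v, ⟨hrad hv, ?_⟩, hv0⟩
    have h3 : bf Q v v = 0 := bf_eq_zero_of_rad Q (hrad hv) v
    rw [bf_self] at h3
    exact (mul_eq_zero.mp h3).resolve_left h2
  rcases n with _ | m
  · exact absurd (Subsingleton.elim v 0) hv0
  have hm : Odd m := by
    by_contra h3
    rw [Nat.not_odd_iff_even] at h3
    exact (Nat.not_odd_iff_even.mpr hn) h3.add_one
  obtain ⟨v', hv', hne⟩ := exists_rad_pair h2 hm B v hv0 hv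
  obtain ⟨a, ha⟩ := exists_sq_root h2 (qf Q v)
  obtain ⟨b, hb⟩ := exists_sq_root h2 (qf Q v')
  by_cases ha0 : a = 0
  · exact ⟨v, ⟨hrad hv, by rw [ha, ha0]; simp⟩, hv0⟩
  refine ⟨b • v + a • v', ⟨fun k => ?_, ?_⟩, ?_⟩
  · rw [bf_add_left, bf_smul_left, bf_smul_left, hrad hv, hrad hv', mul_zero, mul_zero, add_zero]
  · rw [qf_add, qf_smul, qf_smul, bf_smul_left, bf_smul_right, bf_eq_zero_of_rad Q (hrad hv), ha,
      hb]
    linear_combination (a ^ 2 * b ^ 2) * h2
  · intro h3
    apply hne (-(a⁻¹ * b))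
    have h4 : a • v' = -(b • v) := by
      rw [eq_neg_iff_add_eq_zero, ← h3]; exact add_comm _ _
    have h5 : v' = a⁻¹ • (a • v') := by rw [smul_smul, inv_mul_cancel₀ ha0, one_smul]
    rw [h5, h4, smul_neg, smul_smul, neg_smul]

end Local

section Transform

variable {A : Type*} [CommRing A] {n : ℕ} {R : Type*} [CommRing R] [Algebra A R]

theorem tf_eq_dotProduct (Q : Matrix (Fin n) (Fin n) A) (x y : Fin n → R) :
    tf Q x y = x ⬝ᵥ (Q.map (algebraMap A R)).mulVec y := by
  simp only [tf, dotProduct, Matrix.mulVec, Matrix.map_apply, Finset.mul_sum]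
  refine Finset.sum_congr rfl fun i _ => Finset.sum_congr rfl fun j _ => ?_
  ring

theorem tf_conj (Q g : Matrix (Fin n) (Fin n) A) (x y : Fin n → R) :
    tf (gᵀ * Q * g) x y = tf Q ((g.map (algebraMap A R)).mulVec x)
      ((g.map (algebraMap A R)).mulVec y) := by
  rw [tf_eq_dotProduct, tf_eq_dotProduct, ← dotProduct_transform, Matrix.map_mul, Matrix.map_mul,
    Matrix.transpose_map]

theorem qf_conj (Q g : Matrix (Fin n) (Fin n) A) (x : Fin n → R) :
    qf (gᵀ * Q * g) x = qf Q ((g.map (algebraMap A R)).mulVec x) := by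
  rw [← tf_self, tf_conj, tf_self]

theorem bf_conj (Q g : Matrix (Fin n) (Fin n) A) (x y : Fin n → R) :
    bf (gᵀ * Q * g) x y = bf Q ((g.map (algebraMap A R)).mulVec x)
      ((g.map (algebraMap A R)).mulVec y) := by
  rw [← tf_add_comm, tf_conj, tf_conj, tf_add_comm]

end Transform

section NF

variable {A : Type*} [CommRing A]

/-- The normal form of a good quadratic form with singular reduction: the form is
`ϖ (u x₀² + x₀ ℓ(x')) + Q'(x')` with `u` invertible and `Q'` nondegenerate. -/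
structure IsNormal (ϖ : A) {n : ℕ} (Q : Matrix (Fin (n + 1)) (Fin (n + 1)) A) (u : A)
    (l : Fin n → A) : Prop where
  unit : IsUnit u
  h00 : Q 0 0 = ϖ * u
  h0a : ∀ a : Fin n, Q 0 a.succ + Q a.succ 0 = ϖ * l a
  det : IsUnit ((Q.submatrix Fin.succ Fin.succ) + (Q.submatrix Fin.succ Fin.succ)ᵀ).det

theorem qf_succ {n : ℕ} {R : Type*} [CommRing R] [Algebra A R]
    (Q : Matrix (Fin (n + 1)) (Fin (n + 1)) A) (x : Fin (n + 1) → R) :
    qf Q x = algebraMap A R (Q 0 0) * x 0 ^ 2 +
      x 0 * ∑ a : Fin n, algebraMap A R (Q 0 a.succ + Q a.succ 0) * x a.succ +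
      qf (Q.submatrix Fin.succ Fin.succ) (fun a => x a.succ) := by
  simp only [qf, Fin.sum_univ_succ, Finset.sum_add_distrib, Matrix.submatrix_apply, map_add,
    Finset.mul_sum, add_mul, mul_add]
  rw [Finset.sum_congr rfl (g := fun i : Fin n =>
    x 0 * (algebraMap A R (Q i.succ 0) * x i.succ)) (fun i _ => by ring)]
  ring_nf

theorem IsNormal.qf_eq {ϖ : A} {n : ℕ} {Q : Matrix (Fin (n + 1)) (Fin (n + 1)) A} {u : A}
    {l : Fin n → A} (h : IsNormal ϖ Q u l) {R : Type*} [CommRing R] [Algebra A R]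
    (x : Fin (n + 1) → R) :
    qf Q x = algebraMap A R ϖ * (algebraMap A R u * x 0 ^ 2 +
      x 0 * ∑ a : Fin n, algebraMap A R (l a) * x a.succ) +
      qf (Q.submatrix Fin.succ Fin.succ) (fun a => x a.succ) := by
  rw [qf_succ, h.h00]
  have h1 : ∑ a : Fin n, algebraMap A R (Q 0 a.succ + Q a.succ 0) * x a.succ =
      algebraMap A R ϖ * ∑ a : Fin n, algebraMap A R (l a) * x a.succ := by
    rw [Finset.mul_sum]
    refine Finset.sum_congr rfl fun a _ => ?_
    rw [h.h0a, map_mul, mul_assoc]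
  rw [h1, map_mul]
  ring

theorem qf_single {ι : Type*} [Fintype ι] [DecidableEq ι] (Q : Matrix ι ι A) (k : ι) :
    qf Q (Pi.single k 1 : ι → A) = Q k k := by
  simp [qf, Pi.single_apply]

theorem bf_single {ι : Type*} [Fintype ι] [DecidableEq ι] (Q : Matrix ι ι A) (k l : ι) :
    bf Q (Pi.single k 1 : ι → A) (Pi.single l 1) = Q k l + Q l k := by
  rw [bf_single_right]
  simp [Pi.single_apply, Matrix.add_apply, add_comm]

theorem exists_column [IsLocalRing A] {n : ℕ} (w : Fin (n + 1) → ResidueField A) (hw : w ≠ 0) :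
    ∃ (g : Matrix (Fin (n + 1)) (Fin (n + 1)) A) (c : ResidueField A), IsUnit g.det ∧ c ≠ 0 ∧
      ∀ a, residue A (g a 0) = c * w a := by
  classical
  obtain ⟨i0, hi0⟩ : ∃ i, w i ≠ 0 := Function.ne_iff.mp hw
  choose r' hr' using fun a => residue_surjective ((w i0)⁻¹ * w a)
  let r : Fin (n + 1) → A := Function.update r' i0 1
  have hr : ∀ a, residue A (r a) = (w i0)⁻¹ * w a := by
    intro a
    by_cases h : a = i0
    · subst h
      simp [r, hi0]
    · simp [r, h, hr']
  let τ : Equiv.Perm (Fin (n + 1)) := Equiv.swap 0 i0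
  let g : Matrix (Fin (n + 1)) (Fin (n + 1)) A :=
    Matrix.of fun a b => if b = 0 then r a else if a = τ b then 1 else 0
  refine ⟨g, (w i0)⁻¹, ?_, inv_ne_zero hi0, fun a => ?_⟩
  · have h1 : g.submatrix τ id =
        (1 : Matrix (Fin (n + 1)) (Fin (n + 1)) A).updateCol 0 (fun a => r (τ a)) := by
      ext a b
      rw [Matrix.submatrix_apply, Matrix.updateCol_apply]
      show (if b = 0 then r (τ a) else if τ a = τ b then (1 : A) else 0) = _
      by_cases hb : b = 0
      · simp [hb]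
      · simp only [hb, if_false, Matrix.one_apply, EmbeddingLike.apply_eq_iff_eq]
    have h2 : (g.submatrix τ id).det = 1 := by
      rw [h1, ← Matrix.cramer_apply, Matrix.cramer_one]
      simp [r, τ]
    rw [Matrix.det_permute] at h2
    exact IsUnit.of_mul_eq_one _ ((mul_comm _ _).trans h2)
  · have h3 : g a 0 = r a := by
      show (if (0 : Fin (n + 1)) = 0 then r a else if a = τ 0 then (1 : A) else 0) = _
      rw [if_pos rfl]
    rw [h3, hr]

/-- A good form in an odd number of variables with singular reduction has a normal form. -/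
theorem exists_normal [IsDomain A] [IsDiscreteValuationRing A] [Finite (ResidueField A)] {n : ℕ}
    (hn : Even n) (ϖ : A) (hϖ : Irreducible ϖ) (Q : Matrix (Fin (n + 1)) (Fin (n + 1)) A)
    (hQ : Good Q) (w : Fin (n + 1) → ResidueField A) (hw : w ∈ radSet Q) (hw0 : w ≠ 0) :
    ∃ (g : Matrix (Fin (n + 1)) (Fin (n + 1)) A) (u : A) (l : Fin n → A), IsUnit g.det ∧
      IsNormal ϖ (gᵀ * Q * g) u l := by
  classical
  obtain ⟨g, c, hg, hc, hgw⟩ := exists_column w hw0
  set Q' := gᵀ * Q * g with hQ'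
  have hmapid : g.map (algebraMap A A) = g := by ext; rfl
  have hcol : ∀ b, g.mulVec (Pi.single b 1) = fun a => g a b := by
    intro b
    ext a
    simp
  -- the first column
  have hrw : (fun a => residue A (g a 0)) = c • w := by
    ext a; rw [hgw]; rfl
  have hrad0 : (fun a => residue A (g a 0)) ∈ radSet Q := by
    rw [hrw]
    refine ⟨fun k => ?_, ?_⟩
    · rw [bf_smul_left, hw.1 k, mul_zero]
    · rw [qf_smul, hw.2, mul_zero]
  have hr0 : (fun a => residue A (g a 0)) ≠ 0 := by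
    rw [hrw]; exact smul_ne_zero hc hw0
  have h00 : Q' 0 0 = qf Q (fun a => g a 0) := by
    rw [← qf_single Q' 0, hQ', qf_conj, hmapid, hcol]
  have h0a : ∀ a : Fin n, Q' 0 a.succ + Q' a.succ 0 = bf Q (fun a => g a 0) (fun b => g b a.succ) := by
    intro a
    rw [← bf_single Q' 0, hQ', bf_conj, hmapid, hcol, hcol]
  have hm : ∀ x : A, x ∈ maximalIdeal A → ∃ y, x = ϖ * y := by
    intro x hx
    rw [hϖ.maximalIdeal_eq, Ideal.mem_span_singleton] at hx
    exact hx
  have hq0 : qf Q (fun a => g a 0) ∈ maximalIdeal A := by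
    rw [← residue_eq_zero_iff, residue_qf]
    exact hrad0.2
  obtain ⟨u, hu⟩ := hm _ hq0
  have huu : IsUnit u := by
    by_contra h1
    have h2 : u ∈ maximalIdeal A := h1
    apply hQ.prim (fun a => g a 0) hr0 hrad0
    rw [hu, pow_two]
    exact Ideal.mul_mem_mul (by rw [hϖ.maximalIdeal_eq]; exact Ideal.mem_span_singleton_self ϖ) h2
  choose l hl using fun a : Fin n => hm _ (bf_mem_of_rad hrad0 (fun b => g b a.succ))
  refine ⟨g, u, l, hg, huu, h00.trans hu, fun a => (h0a a).trans (hl a), ?_⟩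
  by_contra hdet
  obtain ⟨v, hv, hv0⟩ := exists_rad_of_not_isUnit hn _ hdet
  let x : Fin (n + 1) → ResidueField A := Fin.cons 0 v
  have hϖ0 : algebraMap A (ResidueField A) ϖ = 0 := by
    show residue A ϖ = 0
    rw [residue_eq_zero_iff, hϖ.maximalIdeal_eq]
    exact Ideal.mem_span_singleton_self ϖ
  have hxrad : x ∈ radSet Q' := by
    refine ⟨fun k => ?_, ?_⟩
    · rw [bf_single_right, Fin.sum_univ_succ]
      simp only [x, Fin.cons_zero, mul_zero, zero_add, Fin.cons_succ]
      refine Fin.cases ?_ (fun b => ?_) k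
      · refine Finset.sum_eq_zero fun a _ => ?_
        have h1 : (Q' + Q'ᵀ) 0 a.succ = ϖ * l a := (h0a a).trans (hl a)
        rw [h1, map_mul, hϖ0, zero_mul, zero_mul]
      · have h1 := hv.1 b
        rw [bf_single_right] at h1
        exact h1
    · rw [qf_succ]
      simp only [x, Fin.cons_zero, Fin.cons_succ]
      rw [hv.2]
      simp
  -- transfer to `Q`
  set gb : Matrix (Fin (n + 1)) (Fin (n + 1)) (ResidueField A) :=
    g.map (algebraMap A (ResidueField A)) with hgb
  have hgbu : IsUnit gb.det := by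
    have h1 : gb.det = algebraMap A (ResidueField A) g.det := by
      exact ((algebraMap A (ResidueField A)).map_det g).symm
    rw [h1]; exact hg.map _
  have hyrad : gb.mulVec x ∈ radSet Q := by
    refine ⟨fun k => ?_, ?_⟩
    · have h1 : (Pi.single k 1 : Fin (n + 1) → ResidueField A) =
          gb.mulVec (gb⁻¹.mulVec (Pi.single k 1)) := by
        rw [Matrix.mulVec_mulVec, Matrix.mul_nonsing_inv _ hgbu, Matrix.one_mulVec]
      rw [h1, ← bf_conj]
      exact bf_eq_zero_of_rad _ hxrad.1 _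
    · rw [← qf_conj]
      exact hxrad.2
  obtain ⟨c', hc'⟩ := hQ.line _ hrad0 hr0 _ hyrad
  have h1 : (fun a => residue A (g a 0)) = gb.mulVec (Pi.single 0 1) := by
    ext a
    simp [hgb]
  rw [h1, ← Matrix.mulVec_smul] at hc'
  have h2 : x = c' • Pi.single 0 1 := by
    have h3 := congrArg gb⁻¹.mulVec hc'
    rwa [Matrix.mulVec_mulVec, Matrix.mulVec_mulVec, Matrix.nonsing_inv_mul _ hgbu,
      Matrix.one_mulVec, Matrix.one_mulVec] at h3
  apply hv0
  ext a
  have h3 := congrFun h2 a.succ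
  simpa [x] using h3

/-- Existence of a local form: either the reduction is nonsingular, or the form is normal. -/
theorem exists_local_form [IsDomain A] [IsDiscreteValuationRing A] [Finite (ResidueField A)]
    {n : ℕ} (hn : Even n) (ϖ : A) (hϖ : Irreducible ϖ) {F : Type*} [Field F] [Algebra A F]
    [IsFractionRing A F] (S : Matrix (Fin (n + 1)) (Fin (n + 1)) F) (hS : (S + Sᵀ).det ≠ 0) :
    ∃ (Q : Matrix (Fin (n + 1)) (Fin (n + 1)) A) (M : Matrix (Fin (n + 1)) (Fin (n + 1)) F)
      (c : F), M.det ≠ 0 ∧ c ≠ 0 ∧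
      (Q + Qᵀ).map (algebraMap A F) = c • (Mᵀ * (S + Sᵀ) * M) ∧ (Q + Qᵀ).det ≠ 0 ∧
      ((∀ w ∈ radSet Q, w = 0) ∨ ∃ u l, IsNormal ϖ Q u l) := by
  classical
  obtain ⟨Q, ⟨M, c, hM, hc, hQ⟩, hdet, hgood⟩ := exists_good (A := A) (F := F) hn.add_one S hS
  by_cases h : ∀ w ∈ radSet Q, w = 0
  · exact ⟨Q, M, c, hM, hc, hQ, hdet, Or.inl h⟩
  push Not at h
  obtain ⟨w, hw, hw0⟩ := h
  obtain ⟨g, u, l, hg, hnorm⟩ := exists_normal hn ϖ hϖ Q hgood w hw hw0
  have hsum : gᵀ * Q * g + (gᵀ * Q * g)ᵀ = gᵀ * (Q + Qᵀ) * g := by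
    rw [Matrix.transpose_mul, Matrix.transpose_mul, Matrix.transpose_transpose, Matrix.mul_add,
      Matrix.add_mul, Matrix.mul_assoc gᵀ Qᵀ g]
  refine ⟨gᵀ * Q * g, M * g.map (algebraMap A F), c, ?_, hc, ?_, ?_, Or.inr ⟨u, l, hnorm⟩⟩
  · rw [Matrix.det_mul, map_det']
    exact mul_ne_zero hM (hg.map (algebraMap A F)).ne_zero
  · rw [hsum, Matrix.map_mul, Matrix.map_mul, hQ, Matrix.transpose_mul, ← Matrix.transpose_map]
    simp only [Matrix.mul_smul, Matrix.smul_mul, Matrix.mul_assoc]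
  · rw [hsum, Matrix.det_mul, Matrix.det_mul, Matrix.det_transpose]
    exact mul_ne_zero (mul_ne_zero hg.ne_zero hdet) hg.ne_zero

end NF

end Pool.Agent.H71.Prod
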