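import Pool.Agent.H19.NF.Charts

/-!
# Products of tuples
-/

set_option autoImplicit false

namespace Pool.Agent.H71.Prod

open Pool.Agent.H19.NF
open scoped Pointwise

variable {K : Type*} [Field K] {C : Type*} [Fintype C] [DecidableEq C] {J : C → Type*}

/-- The product of tuples. -/
def prodTuple (g : ∀ c, J c → K) (φ : ∀ c, J c) : K := ∏ c, g c (φ c)

omit [DecidableEq C] in
theorem prodTuple_ne_zero_iff (g : ∀ c, J c → K) (φ : ∀ c, J c) :
    prodTuple g φ ≠ 0 ↔ ∀ c, g c (φ c) ≠ 0 := by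
  rw [prodTuple, Finset.prod_ne_zero_iff]
  simp

theorem prodTuple_update_div (g : ∀ c, J c → K) (φ : ∀ c, J c) (hφ : ∀ c, g c (φ c) ≠ 0) (c : C)
    (j : J c) : prodTuple g (Function.update φ c j) / prodTuple g φ = g c j / g c (φ c) := by
  rw [prodTuple, prodTuple, ← Finset.prod_div_distrib, ← Finset.mul_prod_erase _ _
    (Finset.mem_univ c), Function.update_self, Finset.prod_eq_one, mul_one]
  intro c' hc'
  rw [Function.update_of_ne (Finset.ne_of_mem_erase hc')]
  exact div_self (hφ c')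

theorem cAlg_prodTuple {A : Type*} [CommRing A] [Algebra A K] (g : ∀ c, J c → K) (φ : ∀ c, J c)
    (hφ : prodTuple g φ ≠ 0) :
    cAlg A (prodTuple g) φ =
      Algebra.adjoin A (Set.range fun x : Σ c, J c => g x.1 x.2 / g x.1 (φ x.1)) := by
  rw [prodTuple_ne_zero_iff] at hφ
  apply le_antisymm
  · rw [cAlg, Algebra.adjoin_le_iff]
    rintro _ ⟨ψ, rfl⟩
    have h1 : prodTuple g ψ / prodTuple g φ = ∏ c, g c (ψ c) / g c (φ c) := by
      rw [Finset.prod_div_distrib]
      rfl
    show prodTuple g ψ / prodTuple g φ ∈ _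
    rw [h1]
    exact Subalgebra.prod_mem _ fun c _ => Algebra.subset_adjoin ⟨⟨c, ψ c⟩, rfl⟩
  · rw [Algebra.adjoin_le_iff]
    rintro _ ⟨⟨c, j⟩, rfl⟩
    have h1 : g c j / g c (φ c) = prodTuple g (Function.update φ c j) / prodTuple g φ :=
      (prodTuple_update_div g φ hφ c j).symm
    show g c j / g c (φ c) ∈ _
    rw [h1]
    exact Algebra.subset_adjoin ⟨_, rfl⟩

omit [DecidableEq C] in
theorem range_prodTuple (g : ∀ c, J c → K) :
    Set.range (prodTuple g) = ∏ c, Set.range (g c) := by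
  ext z
  rw [Set.mem_fintype_prod]
  constructor
  · rintro ⟨φ, rfl⟩
    exact ⟨fun c => g c (φ c), fun c => ⟨φ c, rfl⟩, rfl⟩
  · rintro ⟨f, hf, rfl⟩
    choose φ hφ using hf
    exact ⟨φ, Finset.prod_congr rfl fun c _ => hφ c⟩

omit [DecidableEq C] in
theorem span_prodTuple {F : Type*} [Field F] [Algebra F K] {J' : C → Type*} (g : ∀ c, J c → K)
    (g' : ∀ c, J' c → K)
    (h : ∀ c, Submodule.span F (Set.range (g c)) = Submodule.span F (Set.range (g' c))) :
    Submodule.span F (Set.range (prodTuple g)) = Submodule.span F (Set.range (prodTuple g')) := by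
  rw [range_prodTuple, range_prodTuple, ← Submodule.prod_span, ← Submodule.prod_span]
  exact Finset.prod_congr rfl fun c _ => h c

end Pool.Agent.H71.Prod
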