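import Pool.Agent.H71.Prod.RegLoc
import Pool.Agent.H71.Prod.Normal
import Pool.Agent.H71.Prod.Tuple

/-!
# Local subrings of a field and local data of quadrics
-/

set_option autoImplicit false

namespace Pool.Agent.H71.Prod

open IsLocalRing Pool.Agent.H19.NF

section Sm

variable {K : Type*} [Field K] (R : Subring K) [IsLocalRing R]

/-- The element `z` lies in the maximal ideal of the local subring `R`. -/
def Sm (z : K) : Prop := ∃ h : z ∈ R, (⟨z, h⟩ : R) ∈ maximalIdeal R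

variable {R}

theorem Sm.mem {z : K} (h : Sm R z) : z ∈ R := h.1

theorem Sm.mul {z w : K} (h : Sm R z) (hw : w ∈ R) : Sm R (z * w) := by
  obtain ⟨hz, hz'⟩ := h
  exact ⟨R.mul_mem hz hw, Ideal.mul_mem_right (⟨w, hw⟩ : R) _ hz'⟩

theorem Sm.add {z w : K} (h : Sm R z) (h' : Sm R w) : Sm R (z + w) := by
  obtain ⟨hz, hz'⟩ := h
  obtain ⟨hw, hw'⟩ := h'
  exact ⟨R.add_mem hz hw, Ideal.add_mem _ hz' hw'⟩

theorem Sm.neg {z : K} (h : Sm R z) : Sm R (-z) := by
  obtain ⟨hz, hz'⟩ := h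
  exact ⟨R.neg_mem hz, (Ideal.neg_mem_iff _).mpr hz'⟩

theorem Sm.sub {z w : K} (h : Sm R z) (h' : Sm R w) : Sm R (z - w) := by
  rw [sub_eq_add_neg]; exact h.add h'.neg

theorem sm_zero : Sm R (0 : K) := ⟨R.zero_mem, Ideal.zero_mem _⟩

theorem sm_sum {α : Type*} (s : Finset α) (f : α → K) (h : ∀ a ∈ s, Sm R (f a)) :
    Sm R (∑ a ∈ s, f a) := by
  classical
  induction s using Finset.induction_on with
  | empty => simpa using sm_zero
  | insert a s ha ih =>
    rw [Finset.sum_insert ha]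
    exact (h a (Finset.mem_insert_self a s)).add (ih fun b hb => h b (Finset.mem_insert_of_mem hb))

theorem sm_or_inv {z : K} (hz : z ∈ R) : Sm R z ∨ (z ≠ 0 ∧ z⁻¹ ∈ R) := by
  by_cases h : (⟨z, hz⟩ : R) ∈ maximalIdeal R
  · exact Or.inl ⟨hz, h⟩
  · right
    have h1 : IsUnit (⟨z, hz⟩ : R) := by
      by_contra h2; exact h h2
    obtain ⟨v, hv⟩ := h1.exists_right_inv
    have h2 : z * (v : K) = 1 := congrArg Subtype.val hv
    refine ⟨left_ne_zero_of_mul_eq_one h2, ?_⟩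
    have h3 : z⁻¹ = v := by
      rw [inv_eq_iff_eq_inv]
      exact eq_inv_of_mul_eq_one_left h2
    rw [h3]; exact v.2

theorem not_sm_of_inv {z : K} (hz : z ≠ 0) (hzi : z⁻¹ ∈ R) : ¬ Sm R z := by
  rintro ⟨h, h'⟩
  rw [IsLocalRing.mem_maximalIdeal, mem_nonunits_iff] at h'
  apply h'
  refine IsUnit.of_mul_eq_one ⟨z⁻¹, hzi⟩ ?_
  apply Subtype.ext
  exact mul_inv_cancel₀ hz

theorem not_sm_one : ¬ Sm R (1 : K) :=
  not_sm_of_inv one_ne_zero (by rw [inv_one]; exact R.one_mem)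

end Sm

section LocSub

variable {K : Type*} [Field K]

/-- The fractions of elements of `B` whose denominators are invertible in `R`. -/
def locSub (B R : Subring K) : Subring K where
  carrier := {c | ∃ b' ∈ B, b' ≠ 0 ∧ b'⁻¹ ∈ R ∧ c * b' ∈ B}
  mul_mem' := by
    rintro x y ⟨b, hb, hb0, hbR, hbB⟩ ⟨c, hc, hc0, hcR, hcB⟩
    refine ⟨b * c, B.mul_mem hb hc, mul_ne_zero hb0 hc0, ?_, ?_⟩
    · rw [mul_inv]; exact R.mul_mem hbR hcR
    · have : x * y * (b * c) = (x * b) * (y * c) := by ring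
      rw [this]; exact B.mul_mem hbB hcB
  one_mem' := ⟨1, B.one_mem, one_ne_zero, by rw [inv_one]; exact R.one_mem, by
    rw [mul_one]; exact B.one_mem⟩
  add_mem' := by
    rintro x y ⟨b, hb, hb0, hbR, hbB⟩ ⟨c, hc, hc0, hcR, hcB⟩
    refine ⟨b * c, B.mul_mem hb hc, mul_ne_zero hb0 hc0, ?_, ?_⟩
    · rw [mul_inv]; exact R.mul_mem hbR hcR
    · have : (x + y) * (b * c) = (x * b) * c + (y * c) * b := by ring
      rw [this]; exact B.add_mem (B.mul_mem hbB hc) (B.mul_mem hcB hb)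
  zero_mem' := ⟨1, B.one_mem, one_ne_zero, by rw [inv_one]; exact R.one_mem, by
    rw [zero_mul]; exact B.zero_mem⟩
  neg_mem' := by
    rintro x ⟨b, hb, hb0, hbR, hbB⟩
    exact ⟨b, hb, hb0, hbR, by rw [neg_mul]; exact B.neg_mem hbB⟩

variable {B R : Subring K}

theorem mem_locSub {c : K} : c ∈ locSub B R ↔ ∃ b' ∈ B, b' ≠ 0 ∧ b'⁻¹ ∈ R ∧ c * b' ∈ B :=
  Iff.rfl

theorem le_locSub : B ≤ locSub B R := fun c hc =>
  ⟨1, B.one_mem, one_ne_zero, by rw [inv_one]; exact R.one_mem, by rwa [mul_one]⟩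

theorem inv_mem_locSub {c : K} (hc : c ∈ locSub B R) (hc0 : c ≠ 0)
    (hcR : c⁻¹ ∈ R) : c⁻¹ ∈ locSub B R := by
  obtain ⟨b, hb, hb0, hbR, hbB⟩ := hc
  refine ⟨c * b, hbB, mul_ne_zero hc0 hb0, ?_, ?_⟩
  · rw [mul_inv]; exact R.mul_mem hcR hbR
  · rw [← mul_assoc, inv_mul_cancel₀ hc0, one_mul]; exact hb

/-- The ratios of a tuple with a local generator. -/
theorem div_mem_locSub {J : Type*} (g : J → K) (h : K) (h0 : h ≠ 0)
    (hg : ∀ j, g j / h ∈ locSub B R) (j₀ : J) (hj₀ : g j₀ ≠ 0) (hj₀' : h / g j₀ ∈ R) (φ : J)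
    (hφ : g φ ≠ 0) (hφ' : g j₀ / g φ ∈ R) (j : J) : g j / g φ ∈ locSub B R := by
  have h1 : (g φ / h)⁻¹ ∈ locSub B R := by
    refine inv_mem_locSub (hg φ) (div_ne_zero hφ h0) ?_
    have h2 : (g φ / h)⁻¹ = (h / g j₀) * (g j₀ / g φ) := by
      field_simp
    rw [h2]; exact R.mul_mem hj₀' hφ'
  have h2 : g j / g φ = (g j / h) * (g φ / h)⁻¹ := by
    field_simp
  rw [h2]; exact (locSub B R).mul_mem (hg j) h1

end LocSub

section Fac

open Matrix

/-- Local data of a quadric over a discrete valuation ring: a point with coordinates `W` on the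
quadric `qf Q = 0`, whose reduction is nonsingular or in normal form. -/
structure Fac (A : Type*) [CommRing A] [IsLocalRing A] (K : Type*) [Field K] [Algebra A K]
    (ϖ : A) (n : ℕ) where
  /-- the coordinates -/
  W : Fin (n + 1) → K
  /-- the quadratic form -/
  Q : Matrix (Fin (n + 1)) (Fin (n + 1)) A
  /-- the type of the reduction -/
  bad : Prop
  /-- the unit of the normal form -/
  u : A
  /-- the linear form of the normal form -/
  l : Fin n → A
  hW : qf Q W = 0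
  hdet : (Q + Qᵀ).det ≠ 0
  hgood : ¬ bad → ∀ w ∈ radSet Q, w = 0
  hbad : bad → IsNormal ϖ Q u l

open Classical in
/-- The local equations of the singular point. -/
noncomputable def Fac.mu {A : Type*} [CommRing A] [IsLocalRing A] {K : Type*} [Field K]
    [Algebra A K] {ϖ : A} {n : ℕ} (F : Fac A K ϖ n) : Fin (n + 1) → K :=
  fun a => if F.bad ∧ a = 0 then algebraMap A K ϖ * F.W 0 else F.W a

variable {I : Type*}

/-- The index types of the tuples. -/
def JJ (n : I → ℕ) : I ⊕ (I × I) → Type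
  | Sum.inl i => Fin (n i + 1)
  | Sum.inr p => (Fin (n p.1 + 1) × Fin (n p.2 + 1)) ⊕ (Fin (n p.1 + 1) × Fin (n p.2 + 1))

instance (n : I → ℕ) (c : I ⊕ (I × I)) : Finite (JJ n c) := by
  rcases c with i | p
  · exact inferInstanceAs (Finite (Fin (n i + 1)))
  · exact inferInstanceAs (Finite ((Fin (n p.1 + 1) × Fin (n p.2 + 1)) ⊕
      (Fin (n p.1 + 1) × Fin (n p.2 + 1))))

/-- The tuples. -/
def GG {K : Type*} [Field K] {n : I → ℕ} (W μ : ∀ i, Fin (n i + 1) → K) :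
    ∀ c : I ⊕ (I × I), JJ n c → K
  | Sum.inl i => W i
  | Sum.inr p => Sum.elim (fun x => μ p.1 x.1 * W p.2 x.2) (fun x => W p.1 x.1 * μ p.2 x.2)

end Fac

end Pool.Agent.H71.Prod
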