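import Pool.Agent.H71.Prod.Indep
import Pool.Agent.H71.Prod.Normal

/-!
# Local presentations of products of quadrics
-/

set_option autoImplicit false

namespace Pool.Agent.H71.Prod

open MvPolynomial IsLocalRing Pool.Agent.H19.NF Pool.Agent.H96.Reg

section Deriv

variable {A S : Type*} [CommRing A] [CommRing S] [Algebra A S]

theorem D_qf {ι : Type*} [Fintype ι] (D : Derivation A S S) (Q : Matrix ι ι A) (x : ι → S) :
    D (qf Q x) = bf Q x (fun i => D (x i)) := by
  simp only [qf, bf, map_sum]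
  refine Finset.sum_congr rfl fun i _ => Finset.sum_congr rfl fun j _ => ?_
  rw [← Algebra.smul_def, D.map_smul, Derivation.leibniz, Algebra.smul_def]
  simp only [smul_eq_mul]
  ring

theorem bf_single_mem {ι : Type*} [Fintype ι] [DecidableEq ι] (Q : Matrix ι ι A) (P : Ideal S)
    (z : ι → S) (α : ι) (hα : z α = 1) (h : ∀ a, a ≠ α → bf Q z (Pi.single a 1) ∈ P)
    (h2 : 2 * qf Q z ∈ P) (a : ι) : bf Q z (Pi.single a 1) ∈ P := by
  by_cases ha : a = α
  swap
  · exact h a ha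
  subst ha
  rw [← bf_self, bf_eq_sum_single, ← Finset.add_sum_erase _ _ (Finset.mem_univ a), hα,
    one_mul] at h2
  have h3 : ∑ k ∈ Finset.univ.erase a, z k * bf Q z (Pi.single k 1) ∈ P :=
    P.sum_mem fun k hk => P.mul_mem_left _ (h k (Finset.ne_of_mem_erase hk))
  have h4 := P.sub_mem h2 h3
  simpa using h4

theorem mem_of_bf_single_mem {ι : Type*} [Fintype ι] [DecidableEq ι] (Q : Matrix ι ι A)
    (hdet : IsUnit (Q + Q.transpose).det) (P : Ideal S)
    (z : ι → S) (h : ∀ a, bf Q z (Pi.single a 1) ∈ P) (a : ι) : z a ∈ P := by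
  let φ : S →+* S ⧸ P := Ideal.Quotient.mk P
  have h1 : ∀ k, bf Q (fun i => φ (z i)) (Pi.single k 1) = 0 := by
    intro k
    have h2 : φ (bf Q z (Pi.single k 1)) = 0 := Ideal.Quotient.eq_zero_iff_mem.mpr (h k)
    rw [map_bf Q φ (fun _ => rfl)] at h2
    convert h2 using 2
    ext i
    by_cases hik : i = k
    · subst hik; simp
    · simp [hik]
  have h2 := det_mul_eq_zero Q (fun i => φ (z i)) h1 a
  have h3 : IsUnit (algebraMap A (S ⧸ P) (Q + Q.transpose).det) := hdet.map _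
  have h4 : φ (z a) = 0 := by
    rwa [h3.mul_right_eq_zero] at h2
  exact Ideal.Quotient.eq_zero_iff_mem.mp h4

end Deriv

section Vec

variable (A : Type*) [CommRing A] {σ ι : Type*} [DecidableEq ι]

/-- The vector of variables with one coordinate equal to one. -/
noncomputable def cvec (i : ι) (v : {j // j ≠ i} → σ) : ι → MvPolynomial σ A :=
  fun j => if h : j = i then 1 else X (v ⟨j, h⟩)

variable {A}

@[simp] theorem cvec_self (i : ι) (v : {j // j ≠ i} → σ) : cvec A i v i = 1 := by simp [cvec]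

theorem pderiv_cvec_self (i : ι) (v : {j // j ≠ i} → σ) (hv : Function.Injective v)
    (b : {j // j ≠ i}) : (fun j => pderiv (v b) (cvec A i v j)) = Pi.single (b : ι) 1 := by
  classical
  ext1 j
  by_cases hj : j = i
  · subst hj
    rw [cvec_self, Pi.single_apply, if_neg b.2.symm]
    simp
  · rw [cvec, dif_neg hj, pderiv_X, Pi.single_apply, Pi.single_apply]
    by_cases hjb : j = b
    · subst hjb; simp
    · have h2 : ¬ v ⟨j, hj⟩ = v b := fun h => hjb (congrArg Subtype.val (hv h))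
      simp [hjb, h2]

theorem pderiv_cvec_other (i : ι) (v : {j // j ≠ i} → σ) (s : σ) (hs : ∀ b, v b ≠ s) (j : ι) :
    pderiv s (cvec A i v j) = 0 := by
  classical
  by_cases hj : j = i
  · subst hj; simp
  · rw [cvec, dif_neg hj, pderiv_X, Pi.single_apply, if_neg (hs _)]

theorem aeval_cvec {R : Type*} [CommRing R] [Algebra A R] (x : σ → R) (i : ι)
    (v : {j // j ≠ i} → σ) (j : ι) :
    aeval x (cvec A i v j) = if h : j = i then 1 else x (v ⟨j, h⟩) := by
  by_cases hj : j = i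
  · subst hj; simp
  · simp [cvec, hj]

end Vec

section Seq

variable {A S : Type*} [CommRing A] [CommRing S] [Algebra A S] {r : ℕ} {m : Fin r → ℕ}

/-- The products of the first elements of a sequence. -/
def TT (s : ℕ → S) : ℕ → S
  | 0 => 1
  | i + 1 => s i * TT s i

/-- The values of the quadratic forms of a chain. -/
def QQ (ϖ : A) (Q : ∀ i, Matrix (Fin (m i)) (Fin (m i)) A) (x : ∀ i, Fin (m i) → S) : ℕ → S
  | 0 => -algebraMap A S ϖ
  | i + 1 => if h : i < r then qf (Q ⟨i, h⟩) (x ⟨i, h⟩) else 0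

/-- The units of a chain. -/
def UU (u : Fin r → A) (l : ∀ i, Fin (m i) → A) (s : ℕ → S) (x : ∀ i, Fin (m i) → S) : ℕ → S
  | 0 => 1
  | i + 1 => if h : i < r then algebraMap A S (u ⟨i, h⟩) +
      TT s (i + 1) * ∑ a, algebraMap A S (l ⟨i, h⟩ a) * x ⟨i, h⟩ a else 1

variable {R : Type*} [CommRing R] [Algebra A R] (φ : S →ₐ[A] R)

theorem map_TT (s : ℕ → S) (i : ℕ) : φ (TT s i) = TT (fun j => φ (s j)) i := by
  induction i with
  | zero => simp [TT]
  | succ i ih => rw [TT, TT, map_mul, ih]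

theorem map_QQ (ϖ : A) (Q : ∀ i, Matrix (Fin (m i)) (Fin (m i)) A) (x : ∀ i, Fin (m i) → S)
    (i : ℕ) : φ (QQ ϖ Q x i) = QQ ϖ Q (fun i a => φ (x i a)) i := by
  rcases i with _ | i
  · simp [QQ]
  · rw [QQ, QQ]
    split_ifs with h
    · exact map_qf _ (φ : S →+* R) (fun a => φ.commutes a) _
    · exact map_zero φ

theorem map_UU (u : Fin r → A) (l : ∀ i, Fin (m i) → A) (s : ℕ → S) (x : ∀ i, Fin (m i) → S)
    (i : ℕ) : φ (UU u l s x i) = UU u l (fun j => φ (s j)) (fun i a => φ (x i a)) i := by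
  rcases i with _ | i
  · simp [UU]
  · rw [UU, UU]
    split_ifs with h
    · simp [map_TT]
    · exact map_one φ

variable (D : Derivation A S S) (s : ℕ → S) (x : ∀ i, Fin (m i) → S)
  (ϖ : A) (Q : ∀ i, Matrix (Fin (m i)) (Fin (m i)) A) (u : Fin r → A) (l : ∀ i, Fin (m i) → A)

theorem D_TT (hD : ∀ j, D (s j) = 0) (i : ℕ) : D (TT s i) = 0 := by
  induction i with
  | zero => simp [TT]
  | succ i ih => rw [TT, Derivation.leibniz, ih, hD]; simp

theorem TT_mem (P : Ideal S) (h0 : s 0 ∈ P) (i : ℕ) : TT s (i + 1) ∈ P := by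
  induction i with
  | zero => rw [TT]; exact P.mul_mem_right _ h0
  | succ i ih => rw [TT]; exact P.mul_mem_left _ ih

theorem D_TT_mem (P : Ideal S) (h0 : s 0 ∈ P) (j : ℕ) (hj : 1 ≤ j)
    (hD : ∀ i, i ≠ j → D (s i) ∈ P) (i : ℕ) : D (TT s i) ∈ P := by
  induction i with
  | zero => simp [TT]
  | succ i ih =>
    rw [TT, Derivation.leibniz, smul_eq_mul, smul_eq_mul]
    refine P.add_mem (P.mul_mem_left _ ih) ?_
    by_cases h : i = j
    · obtain ⟨i', rfl⟩ : ∃ i', i = i' + 1 := ⟨i - 1, by omega⟩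
      exact P.mul_mem_right _ (TT_mem s P h0 i')
    · exact P.mul_mem_left _ (hD i h)

theorem D_QQ_eq_zero (hD : ∀ i a, D (x i a) = 0) (i : ℕ) : D (QQ ϖ Q x i) = 0 := by
  rcases i with _ | i
  · simp [QQ]
  · rw [QQ]
    split_ifs with h
    · rw [D_qf]
      have : (fun a => D (x ⟨i, h⟩ a)) = 0 := by ext a; exact hD _ _
      rw [this, bf_zero_right]
    · exact map_zero D

theorem D_QQ_ne (i0 : ℕ) (hD : ∀ i : Fin r, i.val ≠ i0 → ∀ a, D (x i a) = 0) (i : ℕ)
    (hi : i ≠ i0 + 1) : D (QQ ϖ Q x i) = 0 := by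
  rcases i with _ | i
  · simp [QQ]
  · rw [QQ]
    split_ifs with h
    · rw [D_qf]
      have : (fun a => D (x ⟨i, h⟩ a)) = 0 := by
        ext a; exact hD _ (fun h' => hi (by rw [← h'])) _
      rw [this, bf_zero_right]
    · exact map_zero D

theorem D_UU (i : ℕ) : D (UU u l s x (i + 1)) = if h : i < r then
    TT s (i + 1) * ∑ a, algebraMap A S (l ⟨i, h⟩ a) * D (x ⟨i, h⟩ a) +
      (∑ a, algebraMap A S (l ⟨i, h⟩ a) * x ⟨i, h⟩ a) * D (TT s (i + 1)) else 0 := by
  rw [UU]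
  split_ifs with h
  · rw [map_add, Derivation.leibniz, map_sum]
    simp only [Derivation.map_algebraMap, zero_add, smul_eq_mul, Derivation.leibniz, mul_zero,
      add_zero]
  · exact D.map_one_eq_zero

theorem D_UU_mem (P : Ideal S) (h0 : s 0 ∈ P) (hT : ∀ i, D (TT s i) ∈ P) (i : ℕ) :
    D (UU u l s x i) ∈ P := by
  rcases i with _ | i
  · simp [UU]
  · rw [D_UU]
    split_ifs with h
    · exact P.add_mem (P.mul_mem_right _ (TT_mem s P h0 i)) (P.mul_mem_left _ (hT _))
    · exact P.zero_mem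

theorem D_UU_eq_zero (hs : ∀ j, D (s j) = 0) (hx : ∀ i a, D (x i a) = 0) (i : ℕ) :
    D (UU u l s x i) = 0 := by
  rcases i with _ | i
  · simp [UU]
  · rw [D_UU]
    split_ifs with h
    · rw [D_TT D s hs, mul_zero, add_zero]
      simp [hx]
    · rfl

end Seq

section Pres

variable {A : Type} [CommRing A] [IsDomain A] [IsLocalRing A] [Finite (ResidueField A)]

/-- The variables of the local presentation. -/
abbrev PVar (r : ℕ) (m : Fin r → ℕ) (β : ∀ i, Fin (m i)) {κ : Type} (N : κ → ℕ)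
    (α : ∀ j, Fin (N j)) : Type :=
  Fin r ⊕ ((Σ i : Fin r, {b : Fin (m i) // b ≠ β i}) ⊕ (Σ j : κ, {a : Fin (N j) // a ≠ α j}))

/-- **The local presentation of a product of quadrics.** -/
theorem exists_presentation {R : Type} [CommRing R] [IsDomain R] [IsLocalRing R] [Algebra A R]
    (ϖ : A) (hϖ : maximalIdeal A = Ideal.span {ϖ}) (hϖ0 : ϖ ≠ 0)
    (r : ℕ) (m : Fin r → ℕ) (β : ∀ i, Fin (m i))
    (Q : ∀ i, Matrix (Fin (m i)) (Fin (m i)) A) (hQ : ∀ i, IsUnit (Q i + (Q i).transpose).det)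
    (u : Fin r → A) (hu : ∀ i, IsUnit (u i)) (l : ∀ i, Fin (m i) → A)
    (s : Fin r → R) (x : ∀ i, Fin (m i) → R) (hx : ∀ i, x i (β i) = 1)
    (t : ℕ → R) (ht0 : t 0 = 1) (ht : ∀ i : Fin r, t (i.val + 1) = s i * t i.val)
    (hs0 : 0 < r → t 1 ∈ maximalIdeal R ∧ algebraMap A R ϖ ∈ maximalIdeal R)
    (htne : ∀ i, i < r → t i ≠ 0)
    (hrel : ∀ i : Fin r, algebraMap A R ϖ * (algebraMap A R (u i) +
      t (i.val + 1) * ∑ a, algebraMap A R (l i a) * x i a) + t (i.val + 1) ^ 2 * qf (Q i) (x i) = 0)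
    {κ : Type} [Fintype κ] (N : κ → ℕ) (α : ∀ j, Fin (N j))
    (G : ∀ j, Matrix (Fin (N j)) (Fin (N j)) A)
    (z : ∀ j, Fin (N j) → R) (hz : ∀ j, z j (α j) = 1) (hzq : ∀ j, qf (G j) (z j) = 0)
    (hsm : ∀ j, ¬ ∀ a, bf (G j) (z j) (Pi.single a 1) ∈ maximalIdeal R)
    (y : PVar r m β N α → R)
    (hy : y = Sum.elim s (Sum.elim (fun p => x p.1 p.2) (fun p => z p.1 p.2))) :
    ∃ f : Fin r ⊕ κ → MvPolynomial (PVar r m β N α) A, (∀ k, aeval y (f k) = 0) ∧
      IndepAt f ((maximalIdeal R).comap (aeval y : MvPolynomial (PVar r m β N α) A →ₐ[A] R)) := by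
  classical
  let S := MvPolynomial (PVar r m β N α) A
  let φ : S →ₐ[A] R := aeval y
  set P : Ideal S := (maximalIdeal R).comap φ with hP
  have hPprime : P.IsPrime := Ideal.comap_isPrime _ _
  have hmemP : ∀ g : S, g ∈ P ↔ φ g ∈ maximalIdeal R := fun g => Iff.rfl
  have h1P : (1 : S) ∉ P := (Ideal.ne_top_iff_one _).mp hPprime.ne_top
  -- the polynomial sequences
  let sP : ℕ → S := fun i => if h : i < r then X (Sum.inl ⟨i, h⟩) else 1
  let xP : ∀ i : Fin r, Fin (m i) → S := fun i => cvec A (β i) fun b => Sum.inr (Sum.inl ⟨i, b⟩)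
  let zP : ∀ j : κ, Fin (N j) → S := fun j => cvec A (α j) fun a => Sum.inr (Sum.inr ⟨j, a⟩)
  let qP : ℕ → S := QQ ϖ Q xP
  let uP : ℕ → S := UU u l sP xP
  let gP : κ → S := fun j => qf (G j) (zP j)
  -- values
  let sR : ℕ → R := fun i => if h : i < r then s ⟨i, h⟩ else 1
  have hsR : ∀ i, φ (sP i) = sR i := by
    intro i
    by_cases h : i < r
    · simp only [sP, sR, h, dif_pos]
      show aeval y (X _) = _
      rw [aeval_X, hy]; rfl
    · simp only [sP, sR, h, dif_neg, not_false_eq_true, map_one]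
  have hxR : ∀ i a, φ (xP i a) = x i a := by
    intro i a
    show aeval y (cvec A (β i) _ a) = _
    rw [aeval_cvec]
    split_ifs with h
    · rw [h, hx]
    · rw [hy]; rfl
  have hzR : ∀ j a, φ (zP j a) = z j a := by
    intro j a
    show aeval y (cvec A (α j) _ a) = _
    rw [aeval_cvec]
    split_ifs with h
    · rw [h, hz]
    · rw [hy]; rfl
  have hTR : ∀ i ≤ r, TT sR i = t i := by
    intro i
    induction i with
    | zero => intro _; rw [ht0]; rfl
    | succ i ih =>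
      intro hi
      rw [TT, ih (by omega)]
      have h := ht ⟨i, by omega⟩
      simp only at h
      rw [h]
      congr 1
      simp only [sR, dif_pos (show i < r by omega)]
  have hqR : ∀ i, φ (qP i) = QQ ϖ Q x i := by
    intro i
    rw [map_QQ]
    congr 1
    ext i a; exact hxR i a
  have huR : ∀ i, φ (uP i) = UU u l sR x i := by
    intro i
    rw [map_UU]
    congr 1
    · ext j; exact hsR j
    · ext i a; exact hxR i a
  have htm : 0 < r → ∀ i, i ≤ r → 1 ≤ i → t i ∈ maximalIdeal R := by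
    intro hr i hi hi1
    obtain ⟨i, rfl⟩ : ∃ i', i = i' + 1 := ⟨i - 1, by omega⟩
    rw [← hTR _ hi]
    apply TT_mem
    have h := (hs0 hr).1
    rw [← hTR 1 hr, TT, TT, mul_one] at h
    exact h
  -- the basic relation
  have hH : ∀ i ≤ r, algebraMap A R ϖ * UU u l sR x i + t i ^ 2 * QQ ϖ Q x i = 0 := by
    intro i hi
    rcases i with _ | i
    · rw [UU, QQ, ht0]; ring
    · have hi' : i < r := by omega
      rw [UU, QQ, dif_pos hi', dif_pos hi', hTR _ hi]
      exact hrel ⟨i, hi'⟩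
  have hchain0 : ∀ i < r, φ (chainRel qP uP sP i) = 0 := by
    intro i hi
    have h1 : φ (chainRel qP uP sP i) = UU u l sR x (i + 1) * QQ ϖ Q x i -
        sR i ^ 2 * UU u l sR x i * QQ ϖ Q x (i + 1) := by
      rw [chainRel, map_sub, map_mul, map_mul, map_mul, map_pow, hqR, hqR, huR, huR, hsR]
    rw [h1]
    have h2 := hH i (by omega)
    have h3 := hH (i + 1) (by omega)
    have h4 : t (i + 1) = sR i * t i := by
      rw [← hTR (i + 1) (by omega), ← hTR i (by omega), TT]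
    have h5 : t i ^ 2 ≠ 0 := pow_ne_zero 2 (htne i hi)
    apply mul_left_cancel₀ h5
    rw [h4] at h3
    rw [mul_zero]
    linear_combination UU u l sR x (i + 1) * h2 - UU u l sR x i * h3
  have hg0 : ∀ j, φ (gP j) = 0 := by
    intro j
    have h1 : φ (gP j) = qf (G j) (z j) := by
      have h2 := map_qf (G j) (φ : S →+* R) (fun a => φ.commutes a) (zP j)
      refine h2.trans ?_
      congr 1
      ext a; exact hzR j a
    rw [h1, hzq]
  -- derivations
  have hDs_s : ∀ (i0 : Fin r) (i : ℕ), pderiv (Sum.inl i0 : PVar r m β N α) (sP i) =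
      if i = i0.val then 1 else 0 := by
    intro i0 i
    by_cases h : i < r
    · simp only [sP, h, dif_pos, pderiv_X, Pi.single_apply, Sum.inl.injEq]
      by_cases h2 : i = i0.val
      · subst h2; simp
      · have h3 : ¬ ((⟨i, h⟩ : Fin r) = i0) := fun h4 => h2 (by rw [← h4])
        simp [h2, h3]
    · have h2 : ¬ i = i0.val := fun h3 => h (by rw [h3]; exact i0.2)
      simp only [sP, h, dif_neg, not_false_eq_true, h2, if_false]
      simp
  have hDr_s : ∀ (v : (Σ i : Fin r, {b : Fin (m i) // b ≠ β i}) ⊕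
      (Σ j : κ, {a : Fin (N j) // a ≠ α j})) (i : ℕ),
      pderiv (Sum.inr v : PVar r m β N α) (sP i) = 0 := by
    intro v i
    by_cases h : i < r
    · simp [sP, h, pderiv_X]
    · simp only [sP, h, dif_neg, not_false_eq_true]
      simp
  have hDl_x : ∀ (i0 : Fin r) (i : Fin r) (a : Fin (m i)),
      pderiv (Sum.inl i0 : PVar r m β N α) (xP i a) = 0 := fun i0 i a =>
    pderiv_cvec_other _ _ _ (fun b h => by simp at h) a
  have hDl_z : ∀ (i0 : Fin r) (j : κ) (a : Fin (N j)),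
      pderiv (Sum.inl i0 : PVar r m β N α) (zP j a) = 0 := fun i0 j a =>
    pderiv_cvec_other _ _ _ (fun b h => by simp at h) a
  have hDx_z : ∀ (p : Σ i : Fin r, {b : Fin (m i) // b ≠ β i}) (j : κ) (a : Fin (N j)),
      pderiv (Sum.inr (Sum.inl p) : PVar r m β N α) (zP j a) = 0 := fun p j a =>
    pderiv_cvec_other _ _ _ (fun b h => by simp at h) a
  have hDz_x : ∀ (p : Σ j : κ, {a : Fin (N j) // a ≠ α j}) (i : Fin r) (a : Fin (m i)),
      pderiv (Sum.inr (Sum.inr p) : PVar r m β N α) (xP i a) = 0 := fun p j a =>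
    pderiv_cvec_other _ _ _ (fun b h => by simp at h) a
  have hDx_x : ∀ (p : Σ i : Fin r, {b : Fin (m i) // b ≠ β i}) (i : Fin r), i ≠ p.1 →
      ∀ a, pderiv (Sum.inr (Sum.inl p) : PVar r m β N α) (xP i a) = 0 := fun p i hi a =>
    pderiv_cvec_other _ _ _ (fun b h => by
      simp only [Sum.inr.injEq, Sum.inl.injEq] at h
      exact hi (congrArg Sigma.fst h)) a
  have hDz_z : ∀ (p : Σ j : κ, {a : Fin (N j) // a ≠ α j}) (j : κ), j ≠ p.1 →
      ∀ a, pderiv (Sum.inr (Sum.inr p) : PVar r m β N α) (zP j a) = 0 := fun p i hi a =>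
    pderiv_cvec_other _ _ _ (fun b h => by
      simp only [Sum.inr.injEq] at h
      exact hi (congrArg Sigma.fst h)) a
  have hDx_self : ∀ (i : Fin r) (b : {b : Fin (m i) // b ≠ β i}),
      (fun a => pderiv (Sum.inr (Sum.inl ⟨i, b⟩) : PVar r m β N α) (xP i a)) =
        Pi.single (b : Fin (m i)) 1 := fun i b =>
    pderiv_cvec_self (β i) (fun b => (Sum.inr (Sum.inl ⟨i, b⟩) : PVar r m β N α))
      (fun b b' h => by simpa using h) b
  have hDz_self : ∀ (j : κ) (b : {a : Fin (N j) // a ≠ α j}),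
      (fun a => pderiv (Sum.inr (Sum.inr ⟨j, b⟩) : PVar r m β N α) (zP j a)) =
        Pi.single (b : Fin (N j)) 1 := fun j b =>
    pderiv_cvec_self (α j) (fun b => (Sum.inr (Sum.inr ⟨j, b⟩) : PVar r m β N α))
      (fun b b' h => by simpa using h) b
  refine ⟨Sum.elim (fun i : Fin r => chainRel qP uP sP i) gP, ?_, ?_⟩
  · rintro (i | j)
    · exact hchain0 i i.2
    · exact hg0 j
  refine indepAt_chain ϖ hϖ hϖ0 P gP (fun j => ?_) r qP uP sP (fun j => ?_) (fun i hi => ?_)
    (fun i hi => ?_) (fun hr => ⟨?_, rfl, ?_⟩) (fun i hi => ?_) (fun j hj1 hj => ?_)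
  · rw [hmemP, hg0]; exact Ideal.zero_mem _
  · -- the smooth relations
    have hgP : gP j ∈ P := by rw [hmemP, hg0]; exact Ideal.zero_mem _
    have h1 : ∃ a, a ≠ α j ∧ bf (G j) (zP j) (Pi.single a 1) ∉ P := by
      by_contra hcon
      push Not at hcon
      have h2 := bf_single_mem (G j) P (zP j) (α j) (cvec_self _ _) hcon (P.mul_mem_left _ hgP)
      apply hsm j
      intro a
      have h3 := h2 a
      rw [hmemP] at h3
      have h4 := map_bf (G j) (φ : S →+* R) (fun a => φ.commutes a) (zP j) (Pi.single a 1)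
      have h5 : (φ : S →+* R) (bf (G j) (zP j) (Pi.single a 1)) =
          bf (G j) (z j) (Pi.single a 1) := by
        refine h4.trans ?_
        congr 1
        · ext b; exact hzR j b
        · ext b
          by_cases hba : b = a
          · subst hba; simp
          · simp [hba]
      rw [← h5]; exact h3
    obtain ⟨a, ha, hbf⟩ := h1
    refine ⟨pderiv (Sum.inr (Sum.inr ⟨j, ⟨a, ha⟩⟩)), ?_, ?_, ?_⟩
    · show pderiv _ (qf (G j) (zP j)) ∉ P
      rw [D_qf, hDz_self j ⟨a, ha⟩]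
      exact hbf
    · intro j' hj'
      show pderiv _ (qf (G j') (zP j')) ∈ P
      rw [D_qf]
      have h2 : (fun b => pderiv (Sum.inr (Sum.inr ⟨j, ⟨a, ha⟩⟩) : PVar r m β N α) (zP j' b)) =
          0 := by
        ext b; rw [hDz_z ⟨j, ⟨a, ha⟩⟩ j' hj' b]; rfl
      rw [h2, bf_zero_right]; exact P.zero_mem
    · intro i
      rw [D_chainRel, hDr_s]
      have h2 : ∀ i, pderiv (Sum.inr (Sum.inr ⟨j, ⟨a, ha⟩⟩) : PVar r m β N α) (qP i) = 0 :=
        D_QQ_eq_zero _ xP ϖ Q (hDz_x _)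
      have h3 : ∀ i, pderiv (Sum.inr (Sum.inr ⟨j, ⟨a, ha⟩⟩) : PVar r m β N α) (uP i) = 0 :=
        D_UU_eq_zero _ sP xP u l (hDr_s _) (hDz_x _)
      simp only [h2, h3, mul_zero, add_zero, sub_zero]
      exact P.zero_mem
  · rw [hmemP, hchain0 i hi]; exact Ideal.zero_mem _
  · -- the units
    rw [hmemP, huR]
    rcases i with _ | i
    · rw [UU]
      exact (Ideal.ne_top_iff_one _).mp (IsLocalRing.maximalIdeal.isMaximal R).ne_top
    · have hi' : i < r := by omega
      rw [UU, dif_pos hi', hTR _ hi]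
      intro hmem
      have h1 := htm (by omega) (i + 1) hi (by omega)
      have h2 := Ideal.sub_mem _ hmem (Ideal.mul_mem_right
        (∑ a, algebraMap A R (l ⟨i, hi'⟩ a) * x ⟨i, hi'⟩ a) _ h1)
      rw [add_sub_cancel_right] at h2
      exact h2 ((hu ⟨i, hi'⟩).map _)
  · rw [hmemP, hsR]
    have h1 := (hs0 hr).1
    rw [← hTR 1 hr, TT, TT, mul_one] at h1
    exact h1
  · rw [hmemP]
    show φ (algebraMap A S ϖ) ∈ _
    rw [φ.commutes]
    exact (hs0 hr).2
  · -- the alternative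
    have hr : 0 < r := by omega
    have hi' : i < r := by omega
    have hs0P : sP 0 ∈ P := by
      rw [hmemP, hsR]
      have h1 := (hs0 hr).1
      rw [← hTR 1 hr, TT, TT, mul_one] at h1
      exact h1
    by_cases hcon : ∀ b, b ≠ β ⟨i, hi'⟩ → bf (Q ⟨i, hi'⟩) (xP ⟨i, hi'⟩) (Pi.single b 1) ∈ P
    · right
      intro h2
      have hq : qP (i + 1) = qf (Q ⟨i, hi'⟩) (xP ⟨i, hi'⟩) := by
        show QQ ϖ Q xP (i + 1) = _
        rw [QQ, dif_pos hi']
      rw [hq] at h2
      have h3 := bf_single_mem _ P _ (β ⟨i, hi'⟩) (cvec_self _ _) hcon h2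
      have h4 := mem_of_bf_single_mem _ (hQ ⟨i, hi'⟩) P _ h3 (β ⟨i, hi'⟩)
      rw [cvec_self] at h4
      exact h1P h4
    · left
      push Not at hcon
      obtain ⟨b, hb, hbf⟩ := hcon
      have hDT : ∀ j, pderiv (Sum.inr (Sum.inl ⟨⟨i, hi'⟩, ⟨b, hb⟩⟩) : PVar r m β N α)
          (TT sP j) = 0 := D_TT _ sP (hDr_s _)
      refine ⟨pderiv (Sum.inr (Sum.inl ⟨⟨i, hi'⟩, ⟨b, hb⟩⟩)), ?_, ?_, ?_, ?_, ?_⟩
      · intro k
        show pderiv _ (qf (G k) (zP k)) ∈ P
        rw [D_qf]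
        have h2 : (fun c => pderiv (Sum.inr (Sum.inl ⟨⟨i, hi'⟩, ⟨b, hb⟩⟩) : PVar r m β N α)
            (zP k c)) = 0 := by
          ext c; rw [hDx_z _ k c]; rfl
        rw [h2, bf_zero_right]; exact P.zero_mem
      · show pderiv _ (QQ ϖ Q xP (i + 1)) ∉ P
        rw [QQ, dif_pos hi', D_qf, hDx_self ⟨i, hi'⟩ ⟨b, hb⟩]
        exact hbf
      · intro j
        exact D_UU_mem _ sP xP u l P hs0P (fun j => by rw [hDT]; exact P.zero_mem) j
      · intro j hj
        show pderiv _ (QQ ϖ Q xP j) ∈ P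
        rw [D_QQ_ne _ xP ϖ Q i (fun i' hi2 a => hDx_x _ i' (fun h => hi2 (congrArg Fin.val h)) a) j
          hj]
        exact P.zero_mem
      · intro j
        rw [hDr_s]; exact P.zero_mem
  · -- the derivations with respect to the ratios
    have hr : 0 < r := by omega
    have hs0P : sP 0 ∈ P := by
      rw [hmemP, hsR]
      have h1 := (hs0 hr).1
      rw [← hTR 1 hr, TT, TT, mul_one] at h1
      exact h1
    have hDs : ∀ i, i ≠ j → pderiv (Sum.inl ⟨j, hj⟩ : PVar r m β N α) (sP i) ∈ P := by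
      intro i hi
      rw [hDs_s, if_neg hi]; exact P.zero_mem
    refine ⟨pderiv (Sum.inl ⟨j, hj⟩), ?_, ?_, hDs, ?_, ?_⟩
    · intro k
      show pderiv _ (qf (G k) (zP k)) ∈ P
      rw [D_qf]
      have h2 : (fun c => pderiv (Sum.inl ⟨j, hj⟩ : PVar r m β N α) (zP k c)) = 0 := by
        ext c; rw [hDl_z _ k c]; rfl
      rw [h2, bf_zero_right]; exact P.zero_mem
    · rw [hDs_s, if_pos rfl]; exact h1P
    · intro i
      show pderiv _ (QQ ϖ Q xP i) ∈ P
      rw [D_QQ_eq_zero _ xP ϖ Q (hDl_x _)]; exact P.zero_mem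
    · intro i
      exact D_UU_mem _ sP xP u l P hs0P (D_TT_mem _ sP P hs0P j hj1 hDs) i

end Pres

end Pool.Agent.H71.Prod
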