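import Pool.Agent.H71.Prod.Loc

/-!
# Sorting by divisibility
-/

set_option autoImplicit false

namespace Pool.Agent.H71.Prod

theorem exists_sorted {I K : Type*} [Field K] (R : Subring K) (B : Finset I) (τ : I → K)
    (hτ0 : ∀ i, τ i ≠ 0) (htot : ∀ i j, τ j / τ i ∈ R ∨ τ i / τ j ∈ R) :
    ∃ (r : ℕ) (e : Fin r → I), Function.Injective e ∧ (∀ i, i ∈ B ↔ ∃ a, e a = i) ∧
      ∀ a b, a ≤ b → τ (e b) / τ (e a) ∈ R := by
  classical
  let rel : I → I → Prop := fun i j => τ j / τ i ∈ R
  have hT : IsTrans I rel := ⟨fun i j k h1 h2 => by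
    have h3 : τ k / τ i = (τ k / τ j) * (τ j / τ i) := by
      have := hτ0 j
      field_simp
    show τ k / τ i ∈ R
    rw [h3]; exact R.mul_mem h2 h1⟩
  have hTot : Std.Total rel := ⟨fun i j => htot i j⟩
  let l := B.toList.insertionSort rel
  have hperm : l.Perm B.toList := List.perm_insertionSort rel _
  have hnd : l.Nodup := hperm.nodup_iff.mpr B.nodup_toList
  have hpw : l.Pairwise rel := List.pairwise_insertionSort rel _
  refine ⟨l.length, l.get, List.nodup_iff_injective_get.mp hnd, fun i => ?_, fun a b hab => ?_⟩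
  · rw [← Finset.mem_toList, ← hperm.mem_iff, List.mem_iff_get]
  · rcases hab.eq_or_lt with rfl | hlt
    · rw [div_self (hτ0 _)]; exact R.one_mem
    · exact (List.pairwise_iff_get.mp hpw) a b hlt

end Pool.Agent.H71.Prod
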