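import Pool.Agent.H71.Prod.Factor
import Pool.Agent.H71.Prod.Pres
import Pool.Agent.H71.Prod.Sort

/-!
# Regularity of the charts over a discrete valuation ring
-/

set_option autoImplicit false

namespace Pool.Agent.H71.Prod

open MvPolynomial IsLocalRing Pool.Agent.H19.NF Pool.Agent.H96.Reg Matrix

/-- The consequence of the invertibility of the pairwise ideals. -/
theorem pair_alternative {A : Type*} [CommRing A] [IsDomain A] [IsDiscreteValuationRing A]
    {K : Type*} [Field K] [Algebra A K] {ϖ : A} {n n' : ℕ} (F : Fac A K ϖ n) (F' : Fac A K ϖ n')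
    (R : Subring K) (a₀ : Fin (n + 1)) (b₀ : Fin (n' + 1)) (ha₀ : F.W a₀ ≠ 0) (hb₀ : F'.W b₀ ≠ 0)
    (hW : ∀ a, F.W a / F.W a₀ ∈ R) (hW' : ∀ b, F'.W b / F'.W b₀ ∈ R)
    (φ : (Fin (n + 1) × Fin (n' + 1)) ⊕ (Fin (n + 1) × Fin (n' + 1)))
    (g : (Fin (n + 1) × Fin (n' + 1)) ⊕ (Fin (n + 1) × Fin (n' + 1)) → K)
    (hg : g = Sum.elim (fun x => F.mu x.1 * F'.W x.2) (fun x => F.W x.1 * F'.mu x.2))
    (hφ : g φ ≠ 0) (hgR : ∀ x, g x / g φ ∈ R) :
    (∃ a, F.mu a ≠ 0 ∧ (∀ c, F.mu c / F.mu a ∈ R) ∧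
      ∀ c, (F'.mu c / F'.W b₀) / (F.mu a / F.W a₀) ∈ R) ∨
    (∃ b, F'.mu b ≠ 0 ∧ (∀ c, F'.mu c / F'.mu b ∈ R) ∧
      ∀ c, (F.mu c / F.W a₀) / (F'.mu b / F'.W b₀) ∈ R) := by
  subst hg
  rcases φ with ⟨a, b⟩ | ⟨a, b⟩
  · left
    simp only [Sum.elim_inl] at hφ hgR
    obtain ⟨h1, h2⟩ := mul_ne_zero_iff.mp hφ
    refine ⟨a, h1, fun c => ?_, fun c => ?_⟩
    · have h3 := hgR (Sum.inl (c, b))
      simp only [Sum.elim_inl] at h3
      rwa [mul_div_mul_right _ _ h2] at h3
    · have h3 := hgR (Sum.inr (a₀, c))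
      simp only [Sum.elim_inr] at h3
      have h4 : (F'.mu c / F'.W b₀) / (F.mu a / F.W a₀) =
          (F.W a₀ * F'.mu c / (F.mu a * F'.W b)) * (F'.W b / F'.W b₀) := by
        field_simp
      rw [h4]; exact R.mul_mem h3 (hW' b)
  · right
    simp only [Sum.elim_inr] at hφ hgR
    obtain ⟨h1, h2⟩ := mul_ne_zero_iff.mp hφ
    refine ⟨b, h2, fun c => ?_, fun c => ?_⟩
    · have h3 := hgR (Sum.inr (a, c))
      simp only [Sum.elim_inr] at h3
      rwa [mul_div_mul_left _ _ h1] at h3
    · have h3 := hgR (Sum.inl (c, b₀))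
      simp only [Sum.elim_inl] at h3
      have h4 : (F.mu c / F.W a₀) / (F'.mu b / F'.W b₀) =
          (F.mu c * F'.W b₀ / (F.W a * F'.mu b)) * (F.W a / F.W a₀) := by
        field_simp
      rw [h4]; exact R.mul_mem h3 (hW a)

/-- Regularity of the local ring at a prime ideal of a chart. -/
theorem isRegularLocalRing_chart {A : Type} [CommRing A] [IsDomain A] [IsDiscreteValuationRing A]
    [Finite (ResidueField A)] {ϖ : A} (hϖ : Irreducible ϖ) {K : Type} [Field K] [Algebra A K]
    [FaithfulSMul A K] {I : Type} [Fintype I] [DecidableEq I] {n : I → ℕ} (hn : ∀ i, 1 ≤ n i)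
    (F : ∀ i, Fac A K ϖ (n i))
    (hgen : ∀ E : Subfield K, (∀ a : A, algebraMap A K a ∈ E) →
      (∀ i a b, (F i).W a / (F i).W b ∈ E) → E = ⊤)
    (htr : ((∑ i, (n i - 1) : ℕ) : Cardinal.{0}) ≤ Algebra.trdeg A K)
    (g : ∀ c, JJ n c → K) (hg : g = GG (fun i => (F i).W) (fun i => (F i).mu))
    (φ : ∀ c, JJ n c) (hφ : ∀ c, g c (φ c) ≠ 0)
    (C : Subring K) (hC : C = (Algebra.adjoin A (Set.range fun x : Σ c, JJ n c =>
      g x.1 x.2 / g x.1 (φ x.1))).toSubring) (P : Ideal C) [P.IsPrime] :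
    IsRegularLocalRing (Localization.AtPrime P) := by
  classical
  obtain ⟨R, hR⟩ : ∃ R, R = (LocalSubring.ofPrime C P).toSubring := ⟨_, rfl⟩
  have hRloc : IsLocalRing R := by rw [hR]; exact (LocalSubring.ofPrime C P).isLocalRing
  have hCR : C ≤ R := by rw [hR]; exact LocalSubring.le_ofPrime C P
  have hA : ∀ a, algebraMap A K a ∈ R := fun a => hCR (by
    rw [hC]; exact Subalgebra.algebraMap_mem _ a)
  have hrat : ∀ c j, g c j / g c (φ c) ∈ R := fun c j => hCR (by
    rw [hC]; exact Algebra.subset_adjoin ⟨⟨c, j⟩, rfl⟩)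
  have hp0 : algebraMap A K ϖ ≠ 0 := by
    rw [Ne, map_eq_zero_iff _ (FaithfulSMul.algebraMap_injective A K)]
    exact hϖ.ne_zero
  -- the chart indices
  let a₀ : ∀ i, Fin (n i + 1) := fun i => φ (Sum.inl i)
  have ha₀ : ∀ i, (F i).W (a₀ i) ≠ 0 := by
    intro i
    have h := hφ (Sum.inl i)
    rw [hg] at h; exact h
  have hWR : ∀ i a, (F i).W a / (F i).W (a₀ i) ∈ R := by
    intro i a
    have h := hrat (Sum.inl i) a
    rw [hg] at h; exact h
  -- the centered factors
  let Cen : I → Prop := fun i => (F i).Centered R (a₀ i)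
  have hzero : ∀ i, Cen i → a₀ i = 0 := fun i h => Fac.Centered.eq_zero h (ha₀ i)
  have hpair : ∀ i j, (∃ a, (F i).mu a ≠ 0 ∧ (∀ c, (F i).mu c / (F i).mu a ∈ R) ∧
      ∀ c, ((F j).mu c / (F j).W (a₀ j)) / ((F i).mu a / (F i).W (a₀ i)) ∈ R) ∨
      (∃ b, (F j).mu b ≠ 0 ∧ (∀ c, (F j).mu c / (F j).mu b ∈ R) ∧
      ∀ c, ((F i).mu c / (F i).W (a₀ i)) / ((F j).mu b / (F j).W (a₀ j)) ∈ R) := by
    intro i j
    refine pair_alternative (F i) (F j) R (a₀ i) (a₀ j) (ha₀ i) (ha₀ j) (hWR i) (hWR j)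
      (φ (Sum.inr (i, j))) (g (Sum.inr (i, j))) ?_ (hφ _) (hrat (Sum.inr (i, j)))
    rw [hg]; rfl
  have hbeta : ∀ i, ∃ β : Fin (n i), Cen i → (F i).W β.succ ≠ 0 ∧
      ∀ c, (F i).mu c / (F i).W β.succ ∈ R := by
    intro i
    by_cases h : Cen i
    · have h0 := hzero i h
      have hc : (F i).Centered R 0 := by
        have h' : (F i).Centered R (a₀ i) := h
        rwa [h0] at h'
      have hW0 : (F i).W 0 ≠ 0 := by rw [← h0]; exact ha₀ i
      have h1 : ∃ a, (F i).mu a ≠ 0 ∧ ∀ c, (F i).mu c / (F i).mu a ∈ R := by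
        rcases hpair i i with ⟨a, h1, h2, -⟩ | ⟨a, h1, h2, -⟩
        · exact ⟨a, h1, h2⟩
        · exact ⟨a, h1, h2⟩
      obtain ⟨a, h1, h2⟩ := h1
      obtain ⟨β, h3⟩ := hc.exists_beta hW0 hA hp0 a h1 h2
      exact ⟨β, fun _ => h3⟩
    · exact ⟨⟨0, hn i⟩, fun h' => absurd h' h⟩
  choose β hβ using hbeta
  -- the local generators
  let τ : I → K := fun i => if Cen i then (F i).W (β i).succ / (F i).W (a₀ i) else 1
  have hτc : ∀ i, Cen i → τ i = (F i).W (β i).succ / (F i).W (a₀ i) := fun i h => if_pos h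
  have hτn : ∀ i, ¬ Cen i → τ i = 1 := fun i h => if_neg h
  have hτ0 : ∀ i, τ i ≠ 0 := by
    intro i
    by_cases h : Cen i
    · rw [hτc i h]; exact div_ne_zero (hβ i h).1 (ha₀ i)
    · rw [hτn i h]; exact one_ne_zero
  have hτR : ∀ i, τ i ∈ R := by
    intro i
    by_cases h : Cen i
    · rw [hτc i h]; exact hWR i _
    · rw [hτn i h]; exact R.one_mem
  have htot : ∀ i j, τ j / τ i ∈ R ∨ τ i / τ j ∈ R := by
    intro i j
    by_cases hi : Cen i
    swap
    · left; rw [hτn i hi, div_one]; exact hτR j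
    by_cases hj : Cen j
    swap
    · right; rw [hτn j hj, div_one]; exact hτR i
    have key : ∀ i j, Cen i → Cen j → ∀ a, (F i).mu a ≠ 0 →
        (∀ c, ((F j).mu c / (F j).W (a₀ j)) / ((F i).mu a / (F i).W (a₀ i)) ∈ R) →
        τ j / τ i ∈ R := by
      intro i j hi hj a ha h
      have h1 := h (β j).succ
      rw [Fac.mu_succ] at h1
      have h2 := (hβ i hi).2 a
      have h3 : τ j / τ i = (((F j).W (β j).succ / (F j).W (a₀ j)) /
          ((F i).mu a / (F i).W (a₀ i))) * ((F i).mu a / (F i).W (β i).succ) := by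
        rw [hτc i hi, hτc j hj]
        have h4 := (hβ i hi).1
        have h5 := ha₀ i
        have h6 := ha₀ j
        field_simp
      rw [h3]; exact R.mul_mem h1 h2
    rcases hpair i j with ⟨a, h1, -, h3⟩ | ⟨b, h1, -, h3⟩
    · left; exact key i j hi hj a h1 h3
    · right; exact key j i hj hi b h1 h3
  obtain ⟨r, e, heinj, hemem, hsort⟩ := exists_sorted R (Finset.univ.filter Cen) τ hτ0 htot
  have hecen : ∀ a, Cen (e a) := fun a => by
    have h1 := (hemem (e a)).mpr ⟨a, rfl⟩
    exact (Finset.mem_filter.mp h1).2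
  have hcenE : ∀ i, Cen i → ∃ a, e a = i := fun i h =>
    (hemem i).mp (Finset.mem_filter.mpr ⟨Finset.mem_univ _, h⟩)
  -- the sequence of the local generators
  let tt : ℕ → K := fun i => match i with
    | 0 => 1
    | i + 1 => if h : i < r then τ (e ⟨i, h⟩) else 1
  have htt0 : tt 0 = 1 := rfl
  have htts : ∀ i (h : i < r), tt (i + 1) = τ (e ⟨i, h⟩) := fun i h => dif_pos h
  have httne : ∀ i, tt i ≠ 0 := by
    intro i
    rcases i with _ | i
    · exact one_ne_zero
    · by_cases h : i < r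
      · rw [htts i h]; exact hτ0 _
      · have h1 : tt (i + 1) = 1 := dif_neg h
        rw [h1]; exact one_ne_zero
  have httR : ∀ i, tt i ∈ R := by
    intro i
    rcases i with _ | i
    · exact R.one_mem
    · by_cases h : i < r
      · rw [htts i h]; exact hτR _
      · have h1 : tt (i + 1) = 1 := dif_neg h
        rw [h1]; exact R.one_mem
  let sK : Fin r → K := fun i => tt (i.val + 1) / tt i.val
  have hsR : ∀ i, sK i ∈ R := by
    rintro ⟨i, hi⟩
    rcases i with _ | i
    · show tt 1 / tt 0 ∈ R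
      rw [htt0, div_one]; exact httR 1
    · show tt (i + 1 + 1) / tt (i + 1) ∈ R
      rw [htts (i + 1) hi, htts i (by omega)]
      exact hsort _ _ (by simp [Fin.le_def])
  let xK : ∀ i : Fin r, Fin (n (e i)) → K := fun i b =>
    (F (e i)).W b.succ / (F (e i)).W (β (e i)).succ
  have hxR : ∀ i b, xK i b ∈ R := fun i b => by
    have h1 := (hβ _ (hecen i)).2 b.succ
    rwa [Fac.mu_succ] at h1
  let κ : Type := {j : I // ¬ Cen j}
  let zK : ∀ j : κ, Fin (n j + 1) → K := fun j a => (F j).W a / (F j).W (a₀ j)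
  have hzR : ∀ j a, zK j a ∈ R := fun j a => hWR j a
  -- the centered factors have vanishing chart index
  have hcen0 : ∀ i, Cen i → (F i).Centered R 0 := by
    intro i h
    have h' : (F i).Centered R (a₀ i) := h
    rwa [hzero i h] at h'
  have hW0 : ∀ i, Cen i → (F i).W (a₀ i) = (F i).W 0 := fun i h => by rw [hzero i h]
  have hW00 : ∀ i, Cen i → (F i).W 0 ≠ 0 := fun i h => by rw [← hW0 i h]; exact ha₀ i
  have htte : ∀ i : Fin r, tt (i.val + 1) = (F (e i)).W (β (e i)).succ / (F (e i)).W 0 := by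
    intro i
    rw [htts i.val i.2, hτc _ (hecen _), hW0 _ (hecen _)]
  -- the local ring as an algebra
  let algR : Algebra A R := ((algebraMap A K).codRestrict R hA).toAlgebra
  let sR : Fin r → R := fun i => ⟨sK i, hsR i⟩
  let xR : ∀ i : Fin r, Fin (n (e i)) → R := fun i b => ⟨xK i b, hxR i b⟩
  let zR : ∀ j : κ, Fin (n j + 1) → R := fun j a => ⟨zK j a, hzR j a⟩
  let tR : ℕ → R := fun i => ⟨tt i, httR i⟩
  let y : PVar r (fun i => n (e i)) (fun i => β (e i)) (fun j : κ => n j + 1)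
      (fun j : κ => a₀ j) → R :=
    Sum.elim sR (Sum.elim (fun p => xR p.1 p.2) (fun p => zR p.1 p.2))
  have hqfR : ∀ {ι : Type} [Fintype ι] (Q : Matrix ι ι A) (v : ι → R),
      ((qf Q v : R) : K) = qf Q (fun i => (v i : K)) := fun Q v =>
    map_qf Q R.subtype (fun _ => rfl) v
  have hbfR : ∀ {ι : Type} [Fintype ι] (Q : Matrix ι ι A) (v w : ι → R),
      ((bf Q v w : R) : K) = bf Q (fun i => (v i : K)) (fun i => (w i : K)) := fun Q v w =>
    map_bf Q R.subtype (fun _ => rfl) v w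
  have H1 : ∀ i, xR i (β (e i)) = 1 := fun i => Subtype.ext (div_self (hβ _ (hecen i)).1)
  have H2 : tR 0 = 1 := rfl
  have H3 : ∀ i : Fin r, tR (i.val + 1) = sR i * tR i.val := fun i => Subtype.ext (by
    show tt (i.val + 1) = tt (i.val + 1) / tt i.val * tt i.val
    rw [div_mul_cancel₀ _ (httne _)])
  have H4 : 0 < r → tR 1 ∈ maximalIdeal R ∧ algebraMap A R ϖ ∈ maximalIdeal R := by
    intro hr
    have h1 := hcen0 _ (hecen ⟨0, hr⟩)
    obtain ⟨h2, h3⟩ := h1.sm_succ (β (e ⟨0, hr⟩))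
    obtain ⟨h4, h5⟩ := h1.sm_pi (hW00 _ (hecen ⟨0, hr⟩))
    refine ⟨?_, h5⟩
    convert h3 using 1
    exact Subtype.ext (htte ⟨0, hr⟩)
  have H5 : ∀ i, i < r → tR i ≠ 0 := fun i _ h => httne i (congrArg Subtype.val h)
  have H6 : ∀ i : Fin r, algebraMap A R ϖ * (algebraMap A R (F (e i)).u +
      tR (i.val + 1) * ∑ a, algebraMap A R ((F (e i)).l a) * xR i a) +
      tR (i.val + 1) ^ 2 * qf ((F (e i)).Q.submatrix Fin.succ Fin.succ) (xR i) = 0 := by
    intro i
    have h1 := (hcen0 _ (hecen i)).relation (hW00 _ (hecen i)) (β (e i)) (hβ _ (hecen i)).1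
    rw [← htte i] at h1
    apply Subtype.ext
    refine Eq.trans ?_ h1
    simp only [Subring.coe_add, Subring.coe_mul, Subring.coe_pow, hqfR]
    rw [AddSubmonoidClass.coe_finsetSum]
    rfl
  have H7 : ∀ j : κ, zR j (a₀ j) = 1 := fun j => Subtype.ext (div_self (ha₀ j))
  have H8 : ∀ j : κ, qf (F j).Q (zR j) = 0 := by
    intro j
    apply Subtype.ext
    rw [hqfR]
    have h3 : (fun i => ((zR j i : R) : K)) = ((F j).W (a₀ j))⁻¹ • (F j).W := by
      ext i
      show (F j).W i / (F j).W (a₀ j) = _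
      rw [Pi.smul_apply, smul_eq_mul, div_eq_inv_mul]
    rw [h3, qf_smul, (F j).hW, mul_zero]
    rfl
  have H9 : ∀ j : κ, ¬ ∀ a, bf (F j).Q (zR j) (Pi.single a 1) ∈ maximalIdeal R := by
    intro j hall
    apply Fac.smooth hϖ hA (a₀ j) (ha₀ j) (hWR j) j.2
    intro a
    have h1 := hall a
    have h2 : ((bf (F j).Q (zR j) (Pi.single a 1) : R) : K) =
        bf (F j).Q (fun b => (F j).W b / (F j).W (a₀ j)) (Pi.single a 1) := by
      rw [hbfR]
      congr 1
      ext i
      by_cases hia : i = a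
      · subst hia; simp
      · simp [hia]
    rw [← h2]
    exact ⟨Subtype.property _, h1⟩
  obtain ⟨f, hf, hind⟩ := exists_presentation (R := R) ϖ hϖ.maximalIdeal_eq hϖ.ne_zero r
    (fun i => n (e i)) (fun i => β (e i)) (fun i => (F (e i)).Q.submatrix Fin.succ Fin.succ)
    (fun i => ((F (e i)).hbad (hecen i).1).det) (fun i => (F (e i)).u)
    (fun i => ((F (e i)).hbad (hecen i).1).unit) (fun i => (F (e i)).l) sR xR H1 tR H2 H3 H4 H5 H6
    (κ := κ) (fun j => n j + 1) (fun j => a₀ j) (fun j => (F j).Q) zR H7 H8 H9 y rfl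
  let ιR : R →ₐ[A] K := { R.subtype with commutes' := fun _ => rfl }
  let x : PVar r (fun i => n (e i)) (fun i => β (e i)) (fun j : κ => n j + 1)
      (fun j : κ => a₀ j) → K := fun v => (y v : K)
  have hρ : ∀ g : MvPolynomial (PVar r (fun i => n (e i)) (fun i => β (e i))
      (fun j : κ => n j + 1) (fun j : κ => a₀ j)) A, ((aeval y g : R) : K) = aeval x g := by
    intro g
    have h1 : ιR.comp (aeval y : MvPolynomial _ A →ₐ[A] R) = aeval x := by
      apply MvPolynomial.algHom_ext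
      intro v
      simp [ιR, x]
    exact congrFun (congrArg DFunLike.coe h1) g
  set B := Algebra.adjoin A (Set.range x) with hB
  -- membership
  have hBs : ∀ i, sK i ∈ B := fun i => Algebra.subset_adjoin ⟨Sum.inl i, rfl⟩
  have hBx : ∀ i b, xK i b ∈ B := by
    intro i b
    by_cases hb : b = β (e i)
    · have h1 : xK i b = 1 := by rw [hb]; exact div_self (hβ _ (hecen i)).1
      rw [h1]; exact B.one_mem
    · exact Algebra.subset_adjoin ⟨Sum.inr (Sum.inl ⟨i, ⟨b, hb⟩⟩), rfl⟩
  have hBz : ∀ j a, zK j a ∈ B := by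
    intro j a
    by_cases ha : a = a₀ j
    · have h1 : zK j a = 1 := by rw [ha]; exact div_self (ha₀ j)
      rw [h1]; exact B.one_mem
    · exact Algebra.subset_adjoin ⟨Sum.inr (Sum.inr ⟨j, ⟨a, ha⟩⟩), rfl⟩
  have hBt : ∀ d i, i + d ≤ r → tt (i + d) / tt i ∈ B := by
    intro d
    induction d with
    | zero => intro i _; rw [add_zero, div_self (httne i)]; exact B.one_mem
    | succ d ih =>
      intro i hi
      have h1 : tt (i + (d + 1)) / tt i = sK ⟨i + d, by omega⟩ * (tt (i + d) / tt i) := by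
        show _ = tt (i + d + 1) / tt (i + d) * (tt (i + d) / tt i)
        have h2 := httne (i + d)
        have h3 := httne i
        rw [← add_assoc]
        field_simp
      rw [h1]; exact B.mul_mem (hBs _) (ih i (by omega))
  let L : Subring K := locSub B.toSubring R
  have hBL : ∀ b ∈ B, b ∈ L := fun b hb => le_locSub hb
  have hAL : ∀ a, algebraMap A K a ∈ L := fun a => hBL _ (B.algebraMap_mem a)
  have hτtt : ∀ i (h : i < r), τ (e ⟨i, h⟩) = tt (i + 1) := fun i h => (htts i h).symm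
  have hF3 : ∀ i j, τ j / τ i ∈ L ∨ τ i / τ j ∈ L := by
    have key : ∀ i : I, τ i ∈ B := by
      intro i
      by_cases h : Cen i
      · obtain ⟨⟨a, ha⟩, rfl⟩ := hcenE i h
        rw [hτtt a ha]
        have h1 := hBt (a + 1) 0 (by omega)
        rwa [zero_add, htt0, div_one] at h1
      · rw [hτn i h]; exact B.one_mem
    intro i j
    by_cases hi : Cen i
    swap
    · left; rw [hτn i hi, div_one]; exact hBL _ (key j)
    by_cases hj : Cen j
    swap
    · right; rw [hτn j hj, div_one]; exact hBL _ (key i)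
    obtain ⟨⟨a, ha⟩, rfl⟩ := hcenE i hi
    obtain ⟨⟨b, hb⟩, rfl⟩ := hcenE j hj
    rw [hτtt a ha, hτtt b hb]
    rcases le_total a b with hab | hab
    · left
      obtain ⟨d, rfl⟩ := Nat.exists_eq_add_of_le hab
      have h1 := hBt d (a + 1) (by omega)
      rw [show a + 1 + d = a + d + 1 by omega] at h1
      exact hBL _ h1
    · right
      obtain ⟨d, rfl⟩ := Nat.exists_eq_add_of_le hab
      have h1 := hBt d (b + 1) (by omega)
      rw [show b + 1 + d = b + d + 1 by omega] at h1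
      exact hBL _ h1
  have hτL : ∀ i, τ i ∈ L := by
    intro i
    by_cases h : Cen i
    · obtain ⟨⟨a, ha⟩, rfl⟩ := hcenE i h
      rw [hτtt a ha]
      have h1 := hBt (a + 1) 0 (by omega)
      rw [zero_add, htt0, div_one] at h1
      exact hBL _ h1
    · rw [hτn i h]; exact L.one_mem
  have hxL : ∀ i, Cen i → ∀ b : Fin (n i), (F i).W b.succ / (F i).W (β i).succ ∈ L := by
    intro i h b
    obtain ⟨a, rfl⟩ := hcenE i h
    exact hBL _ (hBx a b)
  have hF1 : ∀ i a, (F i).W a / (F i).W (a₀ i) ∈ L := by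
    intro i a
    by_cases h : Cen i
    · refine Fin.cases ?_ (fun b => ?_) a
      · rw [hW0 i h, div_self (hW00 i h)]; exact L.one_mem
      · have h1 : (F i).W b.succ / (F i).W (a₀ i) =
            τ i * ((F i).W b.succ / (F i).W (β i).succ) := by
          rw [hτc i h]
          have h2 := (hβ i h).1
          field_simp
        rw [h1]; exact L.mul_mem (hτL i) (hxL i h b)
    · exact hBL _ (hBz ⟨i, h⟩ a)
  have hF2R : ∀ i a, (F i).mu a / (F i).W (a₀ i) ∈ R := by
    intro i a
    by_cases hb : (F i).bad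
    · refine Fin.cases ?_ (fun b => ?_) a
      · rw [Fac.mu_zero hb, mul_div_assoc]; exact R.mul_mem (hA _) (hWR i 0)
      · rw [Fac.mu_succ]; exact hWR i _
    · rw [Fac.mu_good hb]; exact hWR i _
  have hF2 : ∀ i a, (F i).mu a / ((F i).W (a₀ i) * τ i) ∈ L := by
    intro i a
    by_cases h : Cen i
    · have h0 : (F i).W (a₀ i) * τ i = (F i).W (β i).succ := by
        rw [hτc i h, mul_div_cancel₀ _ (ha₀ i)]
      rw [h0]
      refine Fin.cases ?_ (fun b => ?_) a
      swap
      · rw [Fac.mu_succ]; exact hxL i h b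
      have hb0 := (hβ i h).1
      have hw0 := hW00 i h
      have h1 := (hcen0 i h).relation (hW00 i h) (β i) hb0
      have h2 := (hcen0 i h).not_sm_unit hA (β i) hb0
      have ht : (F i).W (β i).succ / (F i).W 0 = τ i := by rw [hτc i h, hW0 i h]
      set U := algebraMap A K (F i).u + (F i).W (β i).succ / (F i).W 0 *
        ∑ a, algebraMap A K ((F i).l a) * ((F i).W a.succ / (F i).W (β i).succ) with hU
      set Z := qf ((F i).Q.submatrix Fin.succ Fin.succ)
        (fun a => (F i).W a.succ / (F i).W (β i).succ) with hZ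
      have hUL : U ∈ L := by
        rw [hU, ht]
        exact L.add_mem (hAL _) (L.mul_mem (hτL i) (L.sum_mem fun a _ =>
          L.mul_mem (hAL _) (hxL i h a)))
      have hLR : ∀ c ∈ L, c ∈ R := by
        rintro c ⟨b', hb', hb'0, hb'R, hcb⟩
        have hBR : ∀ b ∈ B, b ∈ R := by
          intro b hb
          rw [hB, Algebra.adjoin_range_eq_range_aeval] at hb
          obtain ⟨q, hq⟩ := hb
          have h3 : b = ((aeval y q : R) : K) := by rw [hρ q]; exact hq.symm
          rw [h3]; exact Subtype.property _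
        have h3 : c = (c * b') * b'⁻¹ := by rw [mul_assoc, mul_inv_cancel₀ hb'0, mul_one]
        rw [h3]; exact R.mul_mem (hBR _ hcb) hb'R
      have hZL : Z ∈ L := qf_mem _ L hAL _ (hxL i h)
      obtain ⟨hU0, hUR⟩ := (sm_or_inv (hLR U hUL)).resolve_left h2
      have hUiL : U⁻¹ ∈ L := inv_mem_locSub hUL hU0 hUR
      have h3 : (F i).mu 0 / (F i).W (β i).succ = -(τ i * Z * U⁻¹) := by
        rw [Fac.mu_zero (hcen0 i h).1, ← ht]
        rw [eq_neg_iff_add_eq_zero]
        have h4 : algebraMap A K ϖ = -(((F i).W (β i).succ / (F i).W 0) ^ 2 * Z * U⁻¹) := by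
          rw [eq_neg_iff_add_eq_zero]
          have h5 : (algebraMap A K ϖ + ((F i).W (β i).succ / (F i).W 0) ^ 2 * Z * U⁻¹) * U = 0 := by
            rw [add_mul, mul_assoc _ U⁻¹ U, inv_mul_cancel₀ hU0, mul_one]; exact h1
          exact (mul_eq_zero.mp h5).resolve_right hU0
        rw [h4]
        field_simp
        ring
      rw [h3]
      exact L.neg_mem (L.mul_mem (L.mul_mem (hτL i) hZL) hUiL)
    · rw [hτn i h, mul_one]
      by_cases hb : (F i).bad
      · refine Fin.cases ?_ (fun b => ?_) a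
        · rw [Fac.mu_zero hb, mul_div_assoc]; exact L.mul_mem (hAL _) (hF1 i 0)
        · rw [Fac.mu_succ]; exact hF1 i _
      · rw [Fac.mu_good hb]; exact hF1 i _
  have hF2' : ∀ i, ∃ a, (F i).mu a ≠ 0 ∧ ((F i).W (a₀ i) * τ i) / (F i).mu a ∈ R := by
    intro i
    by_cases h : Cen i
    · refine ⟨(β i).succ, ?_, ?_⟩
      · rw [Fac.mu_succ]; exact (hβ i h).1
      · rw [Fac.mu_succ, hτc i h, mul_div_cancel₀ _ (ha₀ i), div_self (hβ i h).1]
        exact R.one_mem
    · rw [hτn i h, mul_one]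
      by_cases hb : (F i).bad
      · have h1 : ∃ a, ¬ Sm R ((F i).mu a / (F i).W (a₀ i)) := by
          by_contra hcon
          push Not at hcon
          exact h ⟨hb, hcon⟩
        obtain ⟨a, h1⟩ := h1
        obtain ⟨h2, h3⟩ := (sm_or_inv (hF2R i a)).resolve_left h1
        rw [inv_div] at h3
        exact ⟨a, fun h4 => h2 (by rw [h4, zero_div]), h3⟩
      · refine ⟨a₀ i, ?_, ?_⟩
        · rw [Fac.mu_good hb]; exact ha₀ i
        · rw [Fac.mu_good hb, div_self (ha₀ i)]; exact R.one_mem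
  have hCL : C ≤ L := by
    rw [hC, Algebra.adjoin_eq_ring_closure, Subring.closure_le]
    rintro _ (⟨a, rfl⟩ | ⟨⟨c, j⟩, rfl⟩)
    · exact hAL a
    rcases c with i | ⟨i, i'⟩
    · show g (Sum.inl i) j / g (Sum.inl i) (φ (Sum.inl i)) ∈ L
      rw [hg]
      exact hF1 i j
    · show g (Sum.inr (i, i')) j / g (Sum.inr (i, i')) (φ (Sum.inr (i, i'))) ∈ L
      have hgx : ∀ x : (Fin (n i + 1) × Fin (n i' + 1)) ⊕ (Fin (n i + 1) × Fin (n i' + 1)),
          g (Sum.inr (i, i')) x = Sum.elim (fun x => (F i).mu x.1 * (F i').W x.2)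
            (fun x => (F i).W x.1 * (F i').mu x.2) x := by
        intro x; rw [hg]; rfl
      have hw := ha₀ i
      have hw' := ha₀ i'
      have ht := hτ0 i
      have ht' := hτ0 i'
      rcases hF3 i i' with h3 | h3
      · obtain ⟨a, ha, haR⟩ := hF2' i
        refine div_mem_locSub (g (Sum.inr (i, i')))
          (((F i).W (a₀ i) * τ i) * (F i').W (a₀ i')) (mul_ne_zero (mul_ne_zero hw ht) hw')
          ?_ (Sum.inl (a, a₀ i')) ?_ ?_ _ (hφ _) (hrat _ _) j
        · rintro (⟨a, b⟩ | ⟨a, b⟩)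
          · rw [hgx]
            simp only [Sum.elim_inl]
            rw [mul_div_mul_comm]
            exact L.mul_mem (hF2 i a) (hF1 i' b)
          · rw [hgx]
            simp only [Sum.elim_inr]
            have h4 : (F i).W a * (F i').mu b / (((F i).W (a₀ i) * τ i) * (F i').W (a₀ i')) =
                ((F i).W a / (F i).W (a₀ i)) * ((F i').mu b / ((F i').W (a₀ i') * τ i')) *
                  (τ i' / τ i) := by
              field_simp
            rw [h4]
            exact L.mul_mem (L.mul_mem (hF1 i a) (hF2 i' b)) h3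
        · rw [hgx]; exact mul_ne_zero ha hw'
        · rw [hgx]
          simp only [Sum.elim_inl]
          rwa [mul_div_mul_right _ _ hw']
      · obtain ⟨b, hb, hbR⟩ := hF2' i'
        refine div_mem_locSub (g (Sum.inr (i, i')))
          ((F i).W (a₀ i) * ((F i').W (a₀ i') * τ i')) (mul_ne_zero hw (mul_ne_zero hw' ht'))
          ?_ (Sum.inr (a₀ i, b)) ?_ ?_ _ (hφ _) (hrat _ _) j
        · rintro (⟨a, b⟩ | ⟨a, b⟩)
          · rw [hgx]
            simp only [Sum.elim_inl]
            have h4 : (F i).mu a * (F i').W b / ((F i).W (a₀ i) * ((F i').W (a₀ i') * τ i')) =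
                ((F i).mu a / ((F i).W (a₀ i) * τ i)) * ((F i').W b / (F i').W (a₀ i')) *
                  (τ i / τ i') := by
              field_simp
            rw [h4]
            exact L.mul_mem (L.mul_mem (hF2 i a) (hF1 i' b)) h3
          · rw [hgx]
            simp only [Sum.elim_inr]
            rw [mul_div_mul_comm]
            exact L.mul_mem (hF1 i a) (hF2 i' b)
        · rw [hgx]; exact mul_ne_zero hw hb
        · rw [hgx]
          simp only [Sum.elim_inr]
          rwa [mul_div_mul_left _ _ hw]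
  refine isRegularLocalRing_of_presentation C P R hR x (aeval y : MvPolynomial _ A →ₐ[A] R) hρ
    (fun c hc => hCL hc) ?_ f ?_ ?_ hind
  · intro E hE
    have hLE : ∀ c ∈ L, c ∈ E := by
      rintro c ⟨b', hb', hb'0, -, hcb⟩
      have h3 : c = (c * b') / b' := by rw [mul_div_assoc, div_self hb'0, mul_one]
      rw [h3]; exact E.div_mem (hE _ hcb) (hE _ hb')
    refine hgen E (fun a => hE _ (B.algebraMap_mem a)) fun i a b => ?_
    rw [← div_div_div_cancel_right₀ (ha₀ i) ((F i).W a) ((F i).W b)]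
    exact E.div_mem (hLE _ (hF1 i a)) (hLE _ (hF1 i b))
  · intro k
    rw [← hρ, hf k]; rfl
  · have hcard : Nat.card (PVar r (fun i => n (e i)) (fun i => β (e i)) (fun j : κ => n j + 1)
        (fun j : κ => a₀ j)) = r + ((∑ i : Fin r, (n (e i) - 1)) + ∑ j : κ, n j) := by
      rw [Nat.card_eq_fintype_card, Fintype.card_sum, Fintype.card_sum, Fintype.card_sigma,
        Fintype.card_sigma, Fintype.card_fin]
      congr 2
      · refine Finset.sum_congr rfl fun i _ => ?_
        have h1 := Set.card_ne_eq (β (e i))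
        rw [Fintype.card_fin] at h1
        exact h1
      · refine Finset.sum_congr rfl fun j _ => ?_
        have h1 := Set.card_ne_eq (a₀ j)
        rw [Fintype.card_fin, Nat.add_sub_cancel] at h1
        exact h1
    have h1 : ∑ i : Fin r, (n (e i) - 1) = ∑ i ∈ Finset.univ.filter Cen, (n i - 1) := by
      have h2 : Finset.univ.filter Cen = Finset.univ.image e := by
        ext i
        rw [hemem i]
        simp
      rw [h2, Finset.sum_image fun a _ b _ h => heinj h]
    have h2 : ∑ j : κ, n j = ∑ j ∈ Finset.univ.filter (fun i => ¬ Cen i), n j := by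
      rw [Finset.sum_subtype (p := fun i => ¬ Cen i)]
      simp
    have h3 : Fintype.card κ = (Finset.univ.filter (fun i => ¬ Cen i)).card :=
      Fintype.card_subtype _
    have h4 : ∑ j ∈ Finset.univ.filter (fun i => ¬ Cen i), n j =
        ∑ j ∈ Finset.univ.filter (fun i => ¬ Cen i), (n j - 1) + Fintype.card κ := by
      rw [h3, Finset.card_eq_sum_ones, ← Finset.sum_add_distrib]
      refine Finset.sum_congr rfl fun j _ => ?_
      have := hn j
      omega
    have h5 : ∑ i ∈ Finset.univ.filter Cen, (n i - 1) +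
        ∑ j ∈ Finset.univ.filter (fun i => ¬ Cen i), (n j - 1) = ∑ i, (n i - 1) := by
      rw [← Finset.sum_filter_add_sum_filter_not Finset.univ Cen (fun i => n i - 1)]
    have h6 : Nat.card (PVar r (fun i => n (e i)) (fun i => β (e i)) (fun j : κ => n j + 1)
        (fun j : κ => a₀ j)) ≤ (∑ i, (n i - 1)) + Fintype.card (Fin r ⊕ κ) := by
      rw [hcard, Fintype.card_sum, Fintype.card_fin, h1, h2, h4, ← h5]
      generalize ∑ i ∈ Finset.univ.filter Cen, (n i - 1) = X1
      omega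
    have h7 : ((Nat.card (PVar r (fun i => n (e i)) (fun i => β (e i)) (fun j : κ => n j + 1)
        (fun j : κ => a₀ j)) : ℕ) : Cardinal.{0}) ≤
        ((∑ i, (n i - 1) : ℕ) : Cardinal.{0}) + (Fintype.card (Fin r ⊕ κ) : ℕ) := by
      exact_mod_cast h6
    exact h7.trans (add_le_add_left htr _)

/-- **Regularity of the charts of a product of quadrics over a discrete valuation ring.** -/
theorem isRegularRing_chart {A : Type} [CommRing A] [IsDomain A] [IsDiscreteValuationRing A]
    [Finite (ResidueField A)] {ϖ : A} (hϖ : Irreducible ϖ) {K : Type} [Field K] [Algebra A K]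
    [FaithfulSMul A K] {I : Type} [Fintype I] [DecidableEq I] {n : I → ℕ} (hn : ∀ i, 1 ≤ n i)
    (F : ∀ i, Fac A K ϖ (n i))
    (hgen : ∀ E : Subfield K, (∀ a : A, algebraMap A K a ∈ E) →
      (∀ i a b, (F i).W a / (F i).W b ∈ E) → E = ⊤)
    (htr : ((∑ i, (n i - 1) : ℕ) : Cardinal.{0}) ≤ Algebra.trdeg A K)
    (φ : ∀ c, JJ n c)
    (hφ : prodTuple (GG (fun i => (F i).W) (fun i => (F i).mu)) φ ≠ 0) :
    IsRegularRing (cAlg A (prodTuple (GG (fun i => (F i).W) (fun i => (F i).mu))) φ) := by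
  classical
  set g : ∀ c, JJ n c → K := GG (fun i => (F i).W) (fun i => (F i).mu) with hg
  have h1 := cAlg_prodTuple (A := A) g φ hφ
  rw [h1]
  have hfin : Finite (Σ c, JJ n c) := inferInstance
  have hN : IsNoetherianRing (Algebra.adjoin A (Set.range fun x : Σ c, JJ n c =>
      g x.1 x.2 / g x.1 (φ x.1))).toSubring :=
    isNoetherianRing_of_fg (Subalgebra.fg_def.2 ⟨_, Set.finite_range _, rfl⟩)
  have h2 : IsRegularRing (Algebra.adjoin A (Set.range fun x : Σ c, JJ n c =>
      g x.1 x.2 / g x.1 (φ x.1))).toSubring := by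
    rw [isRegularRing_iff]
    intro P hP
    exact isRegularLocalRing_chart hϖ hn F hgen htr g hg φ ((prodTuple_ne_zero_iff g φ).mp hφ) _
      rfl P
  exact h2

end Pool.Agent.H71.Prod
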