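import Pool.Agent.H96.RegHeight
import Pool.Agent.H19.NF.LocGlob

/-!
# Regularity of a local ring of a subring of a field from a local presentation
-/

set_option autoImplicit false

namespace Pool.Agent.H71.Prod

open IsLocalRing Module MvPolynomial Pool.Agent.H96.Reg

/-- In a regular local ring the ideal generated by `c` elements which are linearly independent in
the cotangent space is a prime ideal of height at least `c`. -/
theorem span_isPrime_and_height {R : Type*} [CommRing R] [IsRegularLocalRing R] :
    ∀ (c : ℕ) (f : Fin c → R) (hf : ∀ i, f i ∈ maximalIdeal R)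
      (_ : LinearIndependent (ResidueField R)
        (fun i => (maximalIdeal R).toCotangent ⟨f i, hf i⟩ : Fin c → CotangentSpace R)),
      (Ideal.span (Set.range f)).IsPrime ∧ (c : ℕ∞) ≤ (Ideal.span (Set.range f)).height := by
  intro c
  induction c with
  | zero =>
    intro f hf hli
    have hreg := Pool.Agent.H97.isRegularLocalRing_quotient f hf hli
    have hdom := isDomain_of_isRegularLocalRing (R ⧸ Ideal.span (Set.range f))
    exact ⟨(Ideal.Quotient.isDomain_iff_prime _).mp hdom, by simp⟩
  | succ c ih =>
    intro f hf hli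
    have hreg := Pool.Agent.H97.isRegularLocalRing_quotient f hf hli
    have hdom := isDomain_of_isRegularLocalRing (R ⧸ Ideal.span (Set.range f))
    have hprime : (Ideal.span (Set.range f)).IsPrime :=
      (Ideal.Quotient.isDomain_iff_prime _).mp hdom
    refine ⟨hprime, ?_⟩
    obtain ⟨hp, hh⟩ := ih (fun i => f i.castSucc) (fun i => hf _)
      (hli.comp Fin.castSucc (Fin.castSucc_injective c))
    have hlt : Ideal.span (Set.range fun i : Fin c => f i.castSucc) <
        Ideal.span (Set.range f) := by
      refine lt_of_le_of_ne (Ideal.span_mono (by rintro _ ⟨i, rfl⟩; exact ⟨_, rfl⟩)) ?_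
      intro heq
      have h1 : f (Fin.last c) ∈ Ideal.span (Set.range fun i : Fin c => f i.castSucc) := by
        rw [heq]; exact Ideal.subset_span ⟨_, rfl⟩
      rw [Ideal.mem_span_range_iff_exists_fun] at h1
      obtain ⟨r, hr⟩ := h1
      rw [Fintype.linearIndependent_iff] at hli
      have h2 := hli (Fin.lastCases (-1) fun i => residue R (r i)) (by
        rw [Fin.sum_univ_castSucc]
        simp only [Fin.lastCases_castSucc, Fin.lastCases_last]
        have h3 : ∑ i : Fin c, (residue R (r i)) •
            (maximalIdeal R).toCotangent ⟨f i.castSucc, hf _⟩ =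
            (maximalIdeal R).toCotangent ⟨f (Fin.last c), hf _⟩ := by
          have h4 : (⟨f (Fin.last c), hf _⟩ : maximalIdeal R) =
              ∑ i : Fin c, r i • (⟨f i.castSucc, hf _⟩ : maximalIdeal R) := by
            apply Subtype.ext
            simpa using hr.symm
          rw [h4, map_sum]
          refine Finset.sum_congr rfl fun i _ => ?_
          rw [map_smul]
          rfl
        rw [h3, neg_one_smul]
        exact add_neg_cancel _) (Fin.last c)
      simp at h2
    have h5 := Ideal.height_add_one_le_of_lt_of_isPrime hlt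
    push_cast
    exact (add_le_add_left hh 1).trans h5

/-- Regularity of the image of a regular ring at a prime ideal, from elements of the kernel which
are independent at that prime ideal, at least as many as the height of the kernel. -/
theorem isRegularLocalRing_of_indepAt {S B : Type*} [CommRing S] [IsRegularRing S] [CommRing B]
    [IsDomain B] (π : S →+* B) (hπ : Function.Surjective π) {c : ℕ} (f : Fin c → S)
    (hf : ∀ k, π (f k) = 0) (hht : (RingHom.ker π).height ≤ c)
    (q : Ideal B) [q.IsPrime] (hq : IndepAt f (q.comap π)) :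
    IsRegularLocalRing (Localization.AtPrime q) := by
  classical
  set P : Ideal S := RingHom.ker π with hP
  have hPprime : P.IsPrime := RingHom.ker_isPrime π
  set Q : Ideal S := q.comap π with hQ
  have hQprime : Q.IsPrime := Ideal.comap_isPrime π q
  have hPQ : P ≤ Q := by
    intro x hx
    show π x ∈ q
    rw [show π x = 0 from hx]
    exact q.zero_mem
  let R := Localization.AtPrime Q
  have hR : IsRegularLocalRing R := inferInstance
  let f' : Fin c → R := fun i => algebraMap S R (f i)
  have hf' : ∀ i, f' i ∈ maximalIdeal R := fun i =>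
    (IsLocalization.AtPrime.to_map_mem_maximal_iff R Q (f i)).mpr (hPQ (hf i))
  have hli := linearIndependent_of_indepAt f Q hq hf'
  obtain ⟨hJ, hJh⟩ := span_isPrime_and_height c f' hf' hli
  -- the image of the kernel
  have hdisj : Disjoint (Q.primeCompl : Set S) (P : Set S) := by
    rw [Set.disjoint_left]
    intro a ha haP
    exact ha (hPQ haP)
  set PR : Ideal R := P.map (algebraMap S R) with hPR
  have hPRprime : PR.IsPrime :=
    IsLocalization.isPrime_of_isPrime_disjoint Q.primeCompl R P hPprime hdisj
  have hPRh : PR.height = P.height :=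
    IsLocalization.height_map_of_disjoint Q.primeCompl P hdisj
  have hle : Ideal.span (Set.range f') ≤ PR := by
    rw [Ideal.span_le]
    rintro _ ⟨i, rfl⟩
    exact Ideal.mem_map_of_mem _ (hf i)
  have hEq : Ideal.span (Set.range f') = PR := by
    by_contra hne
    have h1 := Ideal.height_add_one_le_of_lt_of_isPrime (lt_of_le_of_ne hle hne)
    rw [hPRh] at h1
    have h2 : (c : ℕ∞) + 1 ≤ c := (add_le_add_left hJh 1).trans (h1.trans hht)
    have h3 : c + 1 ≤ c := by exact_mod_cast h2
    omega
  have hreg := Pool.Agent.H97.isRegularLocalRing_quotient f' hf' hli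
  -- the isomorphism
  have hM : Submonoid.map π Q.primeCompl = q.primeCompl := by
    ext x
    constructor
    · rintro ⟨y, hy, rfl⟩
      exact hy
    · intro hx
      obtain ⟨y, rfl⟩ := hπ x
      exact ⟨y, hx, rfl⟩
  have hle' : Q.primeCompl ≤ q.primeCompl.comap π := by
    rw [← hM]; exact Submonoid.le_comap_map _
  let φ : R →+* Localization.AtPrime q := IsLocalization.map (Localization.AtPrime q) π hle'
  have hφ : Function.Surjective φ := by
    have : IsLocalization (Submonoid.map π Q.primeCompl) (Localization.AtPrime q) := by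
      rw [hM]; infer_instance
    exact IsLocalization.map_surjective_of_surjective Q.primeCompl R (Localization.AtPrime q) hπ
  have hker : RingHom.ker φ = Ideal.span (Set.range f') := by
    have h1 : RingHom.ker φ = Ideal.map (algebraMap S R) (RingHom.ker π) :=
      IsLocalization.ker_map (Localization.AtPrime q) π hM
    rw [h1, hEq]
  let e := RingHom.quotientKerEquivOfSurjective hφ
  have e' : (R ⧸ Ideal.span (Set.range f')) ≃+* (R ⧸ RingHom.ker φ) :=
    Ideal.quotEquivOfEq hker.symm
  exact IsRegularLocalRing.of_ringEquiv (e'.trans e)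

/-- The height of the kernel of an evaluation over a domain. -/
theorem height_ker_le_of_indep {A : Type*} [CommRing A] [IsDomain A] {σ : Type*} [Finite σ]
    {B : Type*} [CommRing B] [Algebra A B] [IsDomain B]
    (π : MvPolynomial σ A →ₐ[A] B) (T : Set σ)
    (hT : AlgebraicIndependent A (fun t : T => π (X (t : σ)))) :
    (RingHom.ker π).height ≤ Nat.card (Tᶜ : Set σ) := by
  classical
  let e : σ ≃ (↥(Tᶜ : Set σ)) ⊕ (↥T) := ((Equiv.sumComm _ _).trans (Equiv.Set.sumCompl T)).symm
  let E : MvPolynomial σ A ≃ₐ[A] MvPolynomial (↥(Tᶜ : Set σ)) (MvPolynomial (↥T) A) :=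
    (renameEquiv A e).trans (sumAlgEquiv A _ _)
  have hprime : (RingHom.ker π).IsPrime := RingHom.ker_isPrime π
  have h1 : ((RingHom.ker π).comap (E.symm.toRingEquiv : _ ≃+* _)).height =
      (RingHom.ker π).height := RingEquiv.height_comap _ _
  rw [← h1]
  have : ((RingHom.ker π).comap (E.symm.toRingEquiv : _ ≃+* _)).IsPrime :=
    Ideal.comap_isPrime _ _
  apply height_le_of_comap_C
  intro a ha
  have h2 : π (E.symm (C a)) = 0 := ha
  have h3 : E.symm (C a) = rename (Subtype.val) a := by
    rw [AlgEquiv.symm_apply_eq]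
    show C a = (sumAlgEquiv A _ _) (renameEquiv A e (rename Subtype.val a))
    rw [renameEquiv_apply, rename_rename]
    have h4 : (e ∘ Subtype.val : ↥T → _) = Sum.inr := by
      ext t
      simp only [Function.comp_apply]
      rw [Equiv.symm_apply_eq]
      simp
    rw [h4]
    have h5 := congrArg (fun φ => φ a)
      (sumAlgEquiv_comp_rename_inr (R := A) (S₁ := ↥(Tᶜ : Set σ)) (S₂ := ↥T))
    simpa using h5.symm
  rw [h3] at h2
  have h6 : aeval (fun t : T => π (X (t : σ))) a = 0 := by
    rw [← h2]
    have h7 : aeval (fun t : T => π (X (t : σ))) =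
        π.comp (rename (Subtype.val : T → σ)) := by
      apply MvPolynomial.algHom_ext
      intro t; simp
    exact congrFun (congrArg DFunLike.coe h7) a
  exact (injective_iff_map_eq_zero _).mp hT a h6

section Local

variable {K : Type*} [Field K]

open Pool.Agent.H19.NF

/-- Let `P` be a prime ideal of a subring `C` of a field and let `B` be a subring inside of the
local ring of `C` at `P`, such that the elements of `C` are fractions of elements of `B`
with denominators invertible in the local ring. If the local ring of `B` at the induced prime ideal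
is regular, then so is the local ring of `C` at `P`. -/
theorem isRegularLocalRing_of_dominate' (C B : Subring K) (P : Ideal C) [P.IsPrime]
    (h1 : B ≤ (LocalSubring.ofPrime C P).toSubring)
    (hB : ∀ (P' : Ideal B) [P'.IsPrime],
      P' = (maximalIdeal (LocalSubring.ofPrime C P).toSubring).comap (Subring.inclusion h1) →
      IsRegularLocalRing (Localization.AtPrime P'))
    (h2 : ∀ c ∈ C, ∃ b' ∈ B, b' ≠ 0 ∧ b'⁻¹ ∈ (LocalSubring.ofPrime C P).toSubring ∧
      c * b' ∈ B) :
    IsRegularLocalRing (Localization.AtPrime P) := by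
  set R := (LocalSubring.ofPrime C P).toSubring with hR
  have hRloc : IsLocalRing R := (LocalSubring.ofPrime C P).isLocalRing
  let P' : Ideal B := (IsLocalRing.maximalIdeal R).comap (Subring.inclusion h1)
  have hP' : P'.IsPrime := Ideal.comap_isPrime _ _
  have hnot : ∀ b : B, (b : K) ≠ 0 → (b : K)⁻¹ ∈ R → b ∉ P' := by
    intro b hb0 hb hbP
    have h3 : Subring.inclusion h1 b ∈ IsLocalRing.maximalIdeal R := hbP
    rw [IsLocalRing.mem_maximalIdeal, mem_nonunits_iff] at h3
    apply h3
    refine IsUnit.of_mul_eq_one ⟨(b : K)⁻¹, hb⟩ ?_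
    apply Subtype.ext
    exact mul_inv_cancel₀ hb0
  have hinv : ∀ b : B, b ∉ P' → (b : K) ≠ 0 ∧ (b : K)⁻¹ ∈ R := by
    intro b hb
    have h3 : IsUnit (Subring.inclusion h1 b) := by
      by_contra h4
      exact hb h4
    obtain ⟨v, hv⟩ := h3.exists_right_inv
    have h4 : (b : K) * (v : K) = 1 := congrArg Subtype.val hv
    refine ⟨left_ne_zero_of_mul_eq_one h4, ?_⟩
    have h5 : (b : K)⁻¹ = v := by
      rw [inv_eq_iff_eq_inv]
      exact eq_inv_of_mul_eq_one_left h4
    rw [h5]; exact v.2
  have hEq : (LocalSubring.ofPrime B P').toSubring = R := by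
    apply le_antisymm
    · intro x hx
      rw [mem_ofPrime_iff] at hx
      obtain ⟨a, s, hs, rfl⟩ := hx
      rw [div_eq_mul_inv]
      exact R.mul_mem (h1 a.2) (hinv s hs).2
    · intro x hx
      rw [hR, mem_ofPrime_iff] at hx
      obtain ⟨a, s, hs, rfl⟩ := hx
      obtain ⟨b1, hb1, hb10, hb1R, hb1B⟩ := h2 a a.2
      obtain ⟨b2, hb2, hb20, hb2R, hb2B⟩ := h2 s s.2
      have hs0 : (s : K) ≠ 0 := by
        intro h3
        have : s = 0 := Subtype.ext h3
        exact hs (by rw [this]; exact P.zero_mem)
      have hsR : (s : K)⁻¹ ∈ R := by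
        rw [← one_div]
        exact div_mem_ofPrime C P C.one_mem s.2 hs
      rw [mem_ofPrime_iff]
      refine ⟨⟨a * b1 * b2, B.mul_mem hb1B hb2⟩, ⟨b1 * (s * b2), B.mul_mem hb1 hb2B⟩, ?_, ?_⟩
      · apply hnot
        · exact mul_ne_zero hb10 (mul_ne_zero hs0 hb20)
        · show (b1 * (s * b2))⁻¹ ∈ R
          rw [mul_inv, mul_inv]
          exact R.mul_mem hb1R (R.mul_mem hsR hb2R)
      · show (a : K) / s = (a * b1 * b2) / (b1 * (s * b2))
        field_simp
  have h3 : IsRegularLocalRing (Localization.AtPrime P') := hB P' rfl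
  have e : Localization.AtPrime P' ≃+* Localization.AtPrime P :=
    (LocalSubring.ofPrimeEquiv B P').toRingEquiv.trans
      ((RingEquiv.subringCongr hEq).trans (LocalSubring.ofPrimeEquiv C P).symm.toRingEquiv)
  exact IsRegularLocalRing.of_ringEquiv e

end Local

/-- **Regularity of a local ring from a local presentation.** -/
theorem isRegularLocalRing_of_presentation {A : Type} [CommRing A] [IsDomain A] [IsRegularRing A]
    {K : Type} [Field K] [Algebra A K] [FaithfulSMul A K] (C : Subring K) (P : Ideal C) [P.IsPrime]
    (R : Subring K) [IsLocalRing R] (hR : R = (LocalSubring.ofPrime C P).toSubring)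
    {σ κ : Type} [Finite σ] [Fintype κ] (x : σ → K) (ρ : MvPolynomial σ A →+* R)
    (hρ : ∀ g, (ρ g : K) = aeval x g)
    (h2 : ∀ c ∈ C, ∃ b' ∈ Algebra.adjoin A (Set.range x), b' ≠ 0 ∧
      b'⁻¹ ∈ R ∧ c * b' ∈ Algebra.adjoin A (Set.range x))
    (hfield : ∀ E : Subfield K, (∀ b ∈ Algebra.adjoin A (Set.range x), b ∈ E) → E = ⊤)
    (f : κ → MvPolynomial σ A) (hf : ∀ k, aeval x (f k) = 0)
    (htr : (Nat.card σ : Cardinal.{0}) ≤ Algebra.trdeg A K + Fintype.card κ)
    (hind : IndepAt f ((maximalIdeal R).comap ρ)) :
    IsRegularLocalRing (Localization.AtPrime P) := by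
  classical
  subst hR
  set B := Algebra.adjoin A (Set.range x) with hB
  let π : MvPolynomial σ A →ₐ[A] B := aeval (fun i => ⟨x i, Algebra.subset_adjoin ⟨i, rfl⟩⟩)
  have hπx : ∀ g, ((π g : B) : K) = aeval x g := by
    intro g
    have : (B.val.comp π) = aeval x := by
      apply MvPolynomial.algHom_ext
      intro i
      simp [π]
    exact congrFun (congrArg DFunLike.coe this) g
  have hπ : Function.Surjective (π : MvPolynomial σ A →+* B) := by
    rintro ⟨z, hz⟩
    have hz' := hz
    rw [hB, Algebra.adjoin_range_eq_range_aeval] at hz'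
    obtain ⟨g, hg⟩ := hz'
    exact ⟨g, Subtype.ext ((hπx g).trans hg)⟩
  have hBR : B.toSubring ≤ (LocalSubring.ofPrime C P).toSubring := by
    intro z hz
    obtain ⟨g, hg⟩ := hπ ⟨z, hz⟩
    have h3 : z = (ρ g : K) := by
      rw [hρ, ← hπx]
      exact (congrArg Subtype.val hg).symm
    rw [h3]; exact (ρ g).2
  refine isRegularLocalRing_of_dominate' C B.toSubring P hBR ?_ h2
  intro P' hP' hPe
  -- a transcendence basis among the generators
  have hclos : Subfield.closure (B : Set K) = ⊤ := hfield _ fun b hb => Subfield.subset_closure hb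
  have hsurj : ∀ y : K, ∃ a b : B, y = (a : K) / (b : K) := by
    intro y
    have hk : y ∈ Subfield.closure (B : Set K) := by
      rw [hclos]; trivial
    rw [Subfield.mem_closure_iff] at hk
    obtain ⟨a, ha, b, hb, rfl⟩ := hk
    have hcl : Subring.closure (B : Set K) = B.toSubring := Subring.closure_eq B.toSubring
    rw [hcl] at ha hb
    exact ⟨⟨a, ha⟩, ⟨b, hb⟩, rfl⟩
  have hfrac : IsFractionRing B K := IsFractionRing.of_field B K hsurj
  have halg : Algebra.IsAlgebraic (Algebra.adjoin A (Set.range x)) K :=
    IsLocalization.isAlgebraic K (nonZeroDivisors B)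
  obtain ⟨t, htx, ht⟩ := exists_isTranscendenceBasis_subset (R := A) (A := K) (Set.range x)
  choose g hg using fun z : t => htx z.2
  have hginj : Function.Injective g := by
    intro a b hab
    apply Subtype.ext
    rw [← hg a, ← hg b, hab]
  let T : Set σ := Set.range g
  let e : t ≃ T := Equiv.ofInjective g hginj
  have hT : AlgebraicIndependent A (fun i : T => x (i : σ)) := by
    have h1 : (fun i : T => x (i : σ)) = (Subtype.val : t → K) ∘ e.symm := by
      funext i
      obtain ⟨z, rfl⟩ := e.surjective i
      rw [Function.comp_apply, Equiv.symm_apply_apply]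
      exact hg z
    rw [h1]
    exact ht.1.comp _ e.symm.injective
  have hcardT : (Nat.card T : Cardinal.{0}) = Algebra.trdeg A K := by
    rw [← ht.cardinalMk_eq_trdeg, Nat.cast_card]
    exact (Cardinal.mk_congr e).symm
  have hsplit : Nat.card σ = Nat.card T + Nat.card (Tᶜ : Set σ) := by
    rw [← Nat.card_sum]
    exact Nat.card_congr (Equiv.Set.sumCompl T).symm
  have hcompl : Nat.card (Tᶜ : Set σ) ≤ Fintype.card κ := by
    rw [← hcardT, hsplit] at htr
    have : Nat.card T + Nat.card (Tᶜ : Set σ) ≤ Nat.card T + Fintype.card κ := by exact_mod_cast htr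
    omega
  have hTπ : AlgebraicIndependent A (fun i : T => π (X (i : σ))) := by
    have h1 : AlgebraicIndependent A (fun i : T => B.val (π (X (i : σ)))) := by
      have : (fun i : T => B.val (π (X (i : σ)))) = fun i : T => x (i : σ) := by
        funext i
        show ((π (X (i : σ)) : B) : K) = x i
        rw [hπx, aeval_X]
      rw [this]; exact hT
    exact AlgebraicIndependent.of_comp B.val h1
  have hht := (height_ker_le_of_indep π T hTπ).trans
    (show ((Nat.card (Tᶜ : Set σ) : ℕ) : ℕ∞) ≤ ((Fintype.card κ : ℕ) : ℕ∞) by exact_mod_cast hcompl)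
  let ε : Fin (Fintype.card κ) ≃ κ := (Fintype.equivFin κ).symm
  have hf0 : ∀ k, (π : MvPolynomial σ A →+* B) (f k) = 0 := by
    intro k
    apply Subtype.ext
    exact (hπx (f k)).trans (hf k)
  refine isRegularLocalRing_of_indepAt (B := B.toSubring) (π : MvPolynomial σ A →+* B) hπ (f ∘ ε)
    (fun k => hf0 _) hht P' ?_
  have hcom : P'.comap (π : MvPolynomial σ A →+* B) =
      (maximalIdeal (LocalSubring.ofPrime C P).toSubring).comap ρ := by
    rw [hPe]
    ext g
    show Subring.inclusion hBR (π g) ∈ maximalIdeal (LocalSubring.ofPrime C P).toSubring ↔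
      ρ g ∈ maximalIdeal (LocalSubring.ofPrime C P).toSubring
    have h3 : Subring.inclusion hBR (π g) = ρ g := by
      apply Subtype.ext
      rw [hρ, ← hπx]
      rfl
    rw [h3]
  have h4 := hind.comp_equiv ε
  rw [← hcom] at h4
  exact h4

end Pool.Agent.H71.Prod
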